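import Pool.Agent.H99.TJ.Hm

namespace Pool.Agent.H99.TJ

section Jord

variable {𝕜 : Type*} [RCLike 𝕜] {E : Type*} [NormedAddCommGroup E] [NormedSpace 𝕜 E]

/-- polarised first relation -/
lemma pol1 (s : Hm 𝕜 E (Hm 𝕜 E (Hm 𝕜 E E)))
    (h1 : ∀ p e e' w, s (s e' p e + s p e' e) p w + s (s p p e) e' w + s e' (s p p e) w
      + s p (s e' p e + s p e' e) w
      = s (s e p e' + s p e e') p w + s (s p p e') e w + s e (s p p e') w
      + s p (s e p e' + s p e e') w) (p q e f w : E) :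
    (s (s f p e) q w + s (s p f e) q w + s (s p q e) f w + s f (s p q e) w + s q (s f p e) w
      + s q (s p f e) w
      - (s (s e p f) q w + s (s p e f) q w + s (s p q f) e w + s e (s p q f) w + s q (s e p f) w
      + s q (s p e f) w))
    + (s (s f q e) p w + s (s q f e) p w + s (s q p e) f w + s f (s q p e) w + s p (s f q e) w
      + s p (s q f e) w
      - (s (s e q f) p w + s (s q e f) p w + s (s q p f) e w + s e (s q p f) w + s p (s e q f) w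
      + s p (s q e f) w)) = 0 := by
  have a1 := h1 (p + q) e f w
  have a2 := h1 p e f w
  have a3 := h1 q e f w
  simp only [map_add, Hm.add_ap] at a1 a2 a3
  rw [← sub_eq_zero] at a1 a2 a3
  have : (0:E) = 0 - 0 - 0 := by simp
  rw [this]
  nth_rewrite 1 [← a1]
  nth_rewrite 1 [← a2]
  rw [← a3]
  module

/-- polarised second relation -/
lemma pol2 (s : Hm 𝕜 E (Hm 𝕜 E (Hm 𝕜 E E)))
    (h2 : ∀ p e w, s e (s p p e) w - s (s p p e) e w + s p p (s e e w) - s e e (s p p w) = 0)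
    (p q e f w : E) :
    (s e (s p q f) w - s (s p q f) e w + s p q (s e f w) - s e f (s p q w))
    + (s f (s p q e) w - s (s p q e) f w + s p q (s f e w) - s f e (s p q w))
    + (s e (s q p f) w - s (s q p f) e w + s q p (s e f w) - s e f (s q p w))
    + (s f (s q p e) w - s (s q p e) f w + s q p (s f e w) - s f e (s q p w)) = 0 := by
  have a1 := h2 (p + q) (e + f) w
  have a2 := h2 (p + q) e w
  have a3 := h2 (p + q) f w
  have a4 := h2 p (e + f) w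
  have a5 := h2 p e w
  have a6 := h2 p f w
  have a7 := h2 q (e + f) w
  have a8 := h2 q e w
  have a9 := h2 q f w
  simp only [map_add, Hm.add_ap] at a1 a2 a3 a4 a5 a6 a7 a8 a9
  have key : ∀ x1 x2 x3 x4 x5 x6 x7 x8 x9 : E, x1 = 0 → x2 = 0 → x3 = 0 → x4 = 0 → x5 = 0 →
      x6 = 0 → x7 = 0 → x8 = 0 → x9 = 0 → x1 - x2 - x3 - (x4 - x5 - x6) - (x7 - x8 - x9) = 0 := by
    intro x1 x2 x3 x4 x5 x6 x7 x8 x9 g1 g2 g3 g4 g5 g6 g7 g8 g9
    rw [g1, g2, g3, g4, g5, g6, g7, g8, g9]; simp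
  have h := key _ _ _ _ _ _ _ _ _ a1 a2 a3 a4 a5 a6 a7 a8 a9
  rw [← h]
  module

/-- the two quartic relations imply the Jordan identity -/
theorem jordan_of (s : Hm 𝕜 E (Hm 𝕜 E (Hm 𝕜 E E)))
    (hsym : ∀ x y z, s x y z = s z y x)
    (h1 : ∀ p e e' w, s (s e' p e + s p e' e) p w + s (s p p e) e' w + s e' (s p p e) w
      + s p (s e' p e + s p e' e) w
      = s (s e p e' + s p e e') p w + s (s p p e') e w + s e (s p p e') w
      + s p (s e p e' + s p e e') w)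
    (h2 : ∀ p e w, s e (s p p e) w - s (s p p e) e w + s p p (s e e w) - s e e (s p p w) = 0)
    (X Y Z V W : E) :
    s X (s Y Z V) W - s W V (s X Y Z) + s Z Y (s X V W) - s X V (s Z Y W) = 0 := by
  have r0 : ∀ e d a b c, s e d (s a b c) = s (s a b c) d e := fun e d a b c => hsym _ _ _
  have rYX : ∀ m, s Y m X = s X m Y := fun m => hsym _ _ _
  have rZX : ∀ m, s Z m X = s X m Z := fun m => hsym _ _ _
  have rZY : ∀ m, s Z m Y = s Y m Z := fun m => hsym _ _ _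
  have rVX : ∀ m, s V m X = s X m V := fun m => hsym _ _ _
  have rVY : ∀ m, s V m Y = s Y m V := fun m => hsym _ _ _
  have rVZ : ∀ m, s V m Z = s Z m V := fun m => hsym _ _ _
  have rWX : ∀ m, s W m X = s X m W := fun m => hsym _ _ _
  have rWY : ∀ m, s W m Y = s Y m W := fun m => hsym _ _ _
  have rWZ : ∀ m, s W m Z = s Z m W := fun m => hsym _ _ _
  have rWV : ∀ m, s W m V = s V m W := fun m => hsym _ _ _
  have k0 := pol2 s h2 Y Z V W X
  have k1 := pol1 s h1 V W Y Z X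
  have k2 := pol2 s h2 X V Z W Y
  have k3 := pol2 s h2 X W Z V Y
  have k4 := pol2 s h2 V W X Z Y
  have k5 := pol2 s h2 X V Y W Z
  have k6 := pol2 s h2 X W Y V Z
  have k7 := pol2 s h2 V W X Y Z
  have k8 := pol1 s h1 X W Y Z V
  have k9 := pol2 s h2 Y Z X W V
  have k10 := pol1 s h1 X V Y Z W
  have k11 := pol2 s h2 Y Z X V W
  simp only [r0, rYX, rZX, rZY, rVX, rVY, rVZ, rWX, rWY, rWZ, rWV] at k0 k1 k2 k3 k4 k5 k6 k7 k8 k9 k10 k11 ⊢
  have key : ∀ x0 x1 x2 x3 x4 x5 x6 x7 x8 x9 x10 x11 : E, x0 = 0 → x1 = 0 → x2 = 0 → x3 = 0 → x4 = 0 → x5 = 0 → x6 = 0 → x7 = 0 → x8 = 0 → x9 = 0 → x10 = 0 → x11 = 0 → (1/4:𝕜) • x0 + (1/4:𝕜) • x1 + (1/4:𝕜) • x2 + (-1/4:𝕜) • x3 + (1/4:𝕜) • x4 + (-1/4:𝕜) • x5 + (1/4:𝕜) • x6 + (-1/4:𝕜) • x7 + (-1/4:𝕜) • x8 + (-1/4:𝕜) • x9 + (1/4:𝕜) • x10 + (1/4:𝕜) • x11 = 0 := by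
    intro x0 x1 x2 x3 x4 x5 x6 x7 x8 x9 x10 x11 g0 g1 g2 g3 g4 g5 g6 g7 g8 g9 g10 g11
    rw [g0, g1, g2, g3, g4, g5, g6, g7, g8, g9, g10, g11]; simp
  have h := key _ _ _ _ _ _ _ _ _ _ _ _ k0 k1 k2 k3 k4 k5 k6 k7 k8 k9 k10 k11
  rw [← h]
  module

end Jord

end Pool.Agent.H99.TJ
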