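import Pool.Agent.H99.TJ.El5
import Pool.Agent.H99.TJ.Jord

open scoped ContDiff

namespace Pool.Agent.H99.TJ

open TopologicalSpace

set_option linter.unusedSectionVars false

section Final

variable {𝕜 : Type*} [RCLike 𝕜] {E : Type*} [NormedAddCommGroup E] [NormedSpace 𝕜 E]
variable {Ω : Opens E}
variable {F : Type*} [NormedAddCommGroup F] [NormedSpace 𝕜 F]

namespace Sys

variable (c : Sys 𝕜 Ω)

/-- the Jordan identity from a normalised symmetry -/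
theorem jordan_norm {m : ℕ} (hm : 1 ≤ m) {S : SF 𝕜 Ω E} (hS : c.NSym (m+5) S) {u : E} (hu : u ∈ Ω)
    (X Y Z V W : E) :
    c.sg u X (c.sg u Y Z V) W - c.sg u W V (c.sg u X Y Z) + c.sg u Z Y (c.sg u X V W)
      - c.sg u X V (c.sg u Z Y W) = 0 := by
  obtain ⟨hA, hr⟩ := c.C1 (c.curv_exact hS)
  obtain ⟨Θ, hΘ, Y0, hY0⟩ := c.lax_exact hm hS hr c.Z0_r
  set Y2 : SF 𝕜 Ω (Hm 𝕜 E E) := (1/3:𝕜) • Θ + c.dt c.r c.T0 with hY2def
  have hY2 : c.dt c.r c.sPP = c.D Y2 := by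
    rw [c.ca_eq, map_smul, map_sub, c.dtD_end hr] at hΘ
    rw [hY2def, map_add, map_smul, ← hΘ, smul_smul]
    norm_num
  have hΘ' : Θ = (3:𝕜) • (Y2 - c.dt c.r c.T0) := by
    rw [hY2def, add_sub_cancel_right, smul_smul]
    norm_num
  have hdiag : ∀ u ∈ Ω, ∀ p e w : E, c.nab c.sg u p e e w = 0 :=
    fun u hu p e w => c.nsh_diag hY2 hu p e w
  have hs : ∀ u ∈ Ω, c.nab c.sg u = 0 := fun u hu => c.nsg_zero hdiag hu
  obtain ⟨Y', hY'⟩ := c.lax2 hs hA hr hY2 hΘ' hY0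
  obtain ⟨Y'', hY''⟩ := c.lax3 hs hr hY'
  exact jordan_of (c.sg u) (fun x y z => c.sg_symm hu x y z)
    (fun p e e' w => c.J1 hs hY2 hu p e e' w)
    (fun p e w => c.J2 hs hY2 hY'' hu p e w) X Y Z V W

end Sys

/-! ### Scaling -/

/-- scaling of jets -/
def scJ (s : 𝕜) (v : Jets Ω) : Jets Ω := ⟨fun k => s ^ k • v.1 k, by simpa using v.2⟩

lemma scJ_val (s : 𝕜) (v : Jets Ω) (k : ℕ) : (scJ s v).1 k = s ^ k • v.1 k := rfl

lemma IsSm.scal (s : 𝕜) {f : Jets Ω → F} (hf : IsSm 𝕜 f) : IsSm 𝕜 (fun v => f (scJ s v)) := by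
  obtain ⟨n, g, hg⟩ := hf
  refine ⟨n, fun p => g (fun k => s ^ (k : ℕ) • p k), ?_, fun v => hg.2 (scJ s v)⟩
  apply hg.1.comp
  · apply ContDiff.contDiffOn
    apply contDiff_pi.2
    intro k
    exact (contDiff_apply 𝕜 E k).const_smul _
  · intro p hp
    have hp' : p 0 ∈ Ω := hp
    change s ^ 0 • p 0 ∈ Ω
    simpa using hp'

/-- pull back by scaling -/
noncomputable def sc (s : 𝕜) : SF 𝕜 Ω F →ₗ[𝕜] SF 𝕜 Ω F where
  toFun f := ⟨fun v => f.1 (scJ s v), f.sm.scal s⟩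
  map_add' _ _ := rfl
  map_smul' _ _ := rfl

lemma sc_val (s : 𝕜) (f : SF 𝕜 Ω F) (v : Jets Ω) : (sc s f).1 v = f.1 (scJ s v) := rfl

lemma ld_sc (s : 𝕜) (f : SF 𝕜 Ω F) (v : Jets Ω) (w : ℕ → E) :
    ld 𝕜 (sc s f).1 v w = ld 𝕜 f.1 (scJ s v) (fun k => s ^ k • w k) := by
  unfold ld
  congr 1
  funext t
  have h0 : (v.1 + t • w) 0 = ((scJ s v).1 + t • fun k => s ^ k • w k) 0 := by
    simp [scJ_val]
  unfold ext0
  by_cases h1 : (v.1 + t • w) 0 ∈ Ω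
  · rw [dif_pos h1, dif_pos (h0 ▸ h1)]
    rw [sc_val]
    refine congrArg f.1 (Jets.ext (funext fun k => ?_))
    change s ^ k • (v.1 k + t • w k) = s ^ k • v.1 k + t • s ^ k • w k
    rw [smul_add, smul_comm]
  · rw [dif_neg h1, dif_neg (h0 ▸ h1)]

lemma sc_dv_sh (s : 𝕜) (f : SF 𝕜 Ω F) : s • dv sh (sc s f) = sc s (dv sh f) := by
  apply SF.ext; intro v
  rw [smul_val, dv_apply, ld_sc, sc_val, dv_apply, ← f.sm.ld_smul_dir]
  congr 1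
  funext k
  change s • s ^ k • v.1 (k+1) = s ^ (k+1) • v.1 (k+1)
  rw [smul_smul, pow_succ']

lemma sc_prol (s : 𝕜) (φ : SF 𝕜 Ω E) (k : ℕ) : s ^ k • prol (sc s φ) k = sc s (prol φ k) := by
  induction k with
  | zero => rw [pow_zero, one_smul]; rfl
  | succ k ih => rw [prol_succ, prol_succ, ← sc_dv_sh, ← ih, map_smul, smul_smul, pow_succ']

lemma sc_dv_prol (s : 𝕜) (φ : SF 𝕜 Ω E) (f : SF 𝕜 Ω F) :
    dv (prol (sc s φ)) (sc s f) = sc s (dv (prol φ) f) := by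
  apply SF.ext; intro v
  rw [dv_apply, ld_sc, sc_val, dv_apply]
  congr 1
  funext k
  have := congrArg (fun g => g.1 v) (sc_prol s φ k)
  exact this

lemma sc_ap (s : 𝕜) (f : SF 𝕜 Ω (Hm 𝕜 E F)) (g : SF 𝕜 Ω E) : sc s (ap f g) = ap (sc s f) (sc s g) := rfl

lemma sc_base (s : 𝕜) (C : E → F) (hC : ContDiffOn 𝕜 ∞ C Ω) :
    sc s (base C hC : SF 𝕜 Ω F) = base C hC := by
  apply SF.ext; intro v
  rw [sc_val, base_val, base_val, scJ_val, pow_zero, one_smul]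

lemma ap_smul (f : SF 𝕜 Ω (Hm 𝕜 E F)) (s : 𝕜) (g : SF 𝕜 Ω E) : ap f (s • g) = s • ap f g :=
  SF.ext fun v => map_smul (f.1 v) s _

lemma smul_ap' (s : 𝕜) (f : SF 𝕜 Ω (Hm 𝕜 E F)) (g : SF 𝕜 Ω E) : ap (s • f) g = s • ap f g := rfl

namespace Sys

variable (c : Sys 𝕜 Ω)

lemma sc_P (s : 𝕜) (k : ℕ) : sc s (c.P k) = s ^ (k+1) • c.P k := by
  induction k with
  | zero =>
    apply SF.ext; intro v
    change s ^ 1 • v.1 1 = s ^ (0+1) • v.1 1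
    rfl
  | succ k ih =>
    have h0 : sc s (sh 0 : SF 𝕜 Ω E) = s • sh 0 := by
      apply SF.ext; intro v
      change s ^ 1 • v.1 1 = s • v.1 1
      rw [pow_one]
    have h1 : ∀ φ : SF 𝕜 Ω E, sc s (c.D φ) = s • c.D (sc s φ) := by
      intro φ
      change sc s (c.cov sh φ) = s • c.cov sh (sc s φ)
      rw [c.cov_vec, c.cov_vec, map_add, ← sc_dv_sh, sc_ap, sc_ap, h0, smul_add]
      rw [Conn.αh, sc_base, ap_smul, smul_ap']
    rw [← D_P, h1, ih, map_smul, smul_smul, ← pow_succ']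

lemma sc_K (s : 𝕜) : sc s c.K = s ^ 3 • c.K := by
  have h0 : sc s (c.P 0) = s ^ 1 • c.P 0 := c.sc_P s 0
  have h1 : sc s (c.P 1) = s ^ 2 • c.P 1 := c.sc_P s 1
  have h2 : sc s (c.P 2) = s ^ 3 • c.P 2 := c.sc_P s 2
  rw [K, map_add, map_add, sc_ap, sc_ap, sc_ap, sc_ap, sc_ap, h0, h1, h2, Conn.Th, βh, sc_base,
    sc_base]
  simp only [ap_smul, smul_ap', smul_add, smul_smul]
  congr 2
  · congr 1; ring
  · ring

/-- a symmetry of order `n` -/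
structure IsSym (n : ℕ) (S : SF 𝕜 Ω E) : Prop where
  ord : OrdLE n S
  top : pd n S = oneE
  comm : dv (prol c.K) S = dv (prol S) c.K

lemma comm_sc {S : SF 𝕜 Ω E} (h : dv (prol c.K) S = dv (prol S) c.K) {s : 𝕜} (hs : s ≠ 0) :
    dv (prol c.K) (sc s S) = dv (prol (sc s S)) c.K := by
  have h1 := congrArg (sc s) h
  rw [← sc_dv_prol, ← sc_dv_prol, c.sc_K, dv_prol_smul, map_smul] at h1
  have h3 : s ^ 3 ≠ 0 := pow_ne_zero 3 hs
  exact (smul_right_inj h3).1 h1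

end Sys

lemma pd_add (k : ℕ) (f g : SF 𝕜 Ω F) : pd k (f + g) = pd k f + pd k g := by
  apply SF.ext; intro v
  ext e
  rw [add_val, Hm.add_ap, pd_val, pd_val, pd_val]
  exact IsSm.ld_add f.sm g.sm v _

lemma pd_smul (k : ℕ) (s : 𝕜) (f : SF 𝕜 Ω F) : pd k (s • f) = s • pd k f := by
  apply SF.ext; intro v
  ext e
  rw [smul_val, Hm.smul_ap, pd_val, pd_val]
  exact IsSm.ld_smul s f.sm v _

lemma pd_sc (k : ℕ) (s : 𝕜) (f : SF 𝕜 Ω F) : pd k (sc s f) = s ^ k • sc s (pd k f) := by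
  apply SF.ext; intro v
  ext e
  rw [smul_val, Hm.smul_ap, pd_val, sc_val, pd_val, ld_sc, ← f.sm.ld_smul_dir]
  congr 1
  funext j
  by_cases hj : j = k
  · subst hj; simp
  · simp [Pi.single_eq_of_ne hj]

lemma ord_sc {m : ℕ} (s : 𝕜) {f : SF 𝕜 Ω F} (h : OrdLE m f) : OrdLE m (sc s f) := by
  intro v v' hv
  rw [sc_val, sc_val]
  apply h
  intro k hk
  rw [scJ_val, scJ_val, hv k hk]

lemma scJ_rest (s : 𝕜) {v : Jets Ω} (hv : ∀ k, v.1 (k+1) = 0) : scJ s v = v := by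
  ext k
  rw [scJ_val]
  cases k with
  | zero => rw [pow_zero, one_smul]
  | succ k => rw [hv k, smul_zero]

namespace Sys

variable (c : Sys 𝕜 Ω)

/-- the normalised symmetry -/
noncomputable def nrm (n : ℕ) (S : SF 𝕜 Ω E) : SF 𝕜 Ω E :=
  (4:𝕜) • S + (-6 * 2 ^ n : 𝕜) • sc (1/2) S + (4 * 3 ^ n : 𝕜) • sc (1/3) S
    + (-1 * 4 ^ n : 𝕜) • sc (1/4) S

lemma nrm_sym {n : ℕ} {S : SF 𝕜 Ω E} (hS : c.IsSym n S) : c.NSym n (nrm n S) := by
  have hp : ∀ k, pd k (nrm n S) = (4:𝕜) • pd k S + (-6 * 2 ^ n * (1/2)^k : 𝕜) • sc (1/2) (pd k S)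
      + (4 * 3 ^ n * (1/3)^k : 𝕜) • sc (1/3) (pd k S) + (-1 * 4 ^ n * (1/4)^k : 𝕜) • sc (1/4) (pd k S) := by
    intro k
    simp only [nrm, pd_add, pd_smul, pd_sc, smul_smul]
  refine ⟨?_, ?_, ?_, ?_⟩
  · exact ((((hS.ord.smul _).add ((ord_sc _ hS.ord).smul _)).add ((ord_sc _ hS.ord).smul _)).add
      ((ord_sc _ hS.ord).smul _))
  · rw [hp, hS.top]
    have h1 : ∀ s : 𝕜, sc s (oneE : SF 𝕜 Ω (Hm 𝕜 E E)) = oneE := fun s => rfl
    rw [h1, h1, h1, ← add_smul, ← add_smul, ← add_smul]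
    have e2 : (-6 * 2 ^ n * (1/2)^n : 𝕜) = -6 := by
      rw [mul_assoc, ← mul_pow]; norm_num
    have e3 : (4 * 3 ^ n * (1/3)^n : 𝕜) = 4 := by
      rw [mul_assoc, ← mul_pow]; norm_num
    have e4 : (-1 * 4 ^ n * (1/4)^n : 𝕜) = -1 := by
      rw [mul_assoc, ← mul_pow]; norm_num
    rw [e2, e3, e4]
    norm_num
  · intro k hk hk3 v hv
    rw [hp]
    simp only [add_val, smul_val, sc_val, scJ_rest _ hv, ← add_smul]
    obtain ⟨j, rfl⟩ : ∃ j, n = k + j := ⟨n - k, by omega⟩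
    have hj : j = 1 ∨ j = 2 ∨ j = 3 := by omega
    have e2 : (-6 * 2 ^ (k+j) * (1/2)^k : 𝕜) = -6 * 2 ^ j := by
      rw [pow_add, show (-6 * (2 ^ k * 2 ^ j) * (1/2)^k : 𝕜) = -6 * 2 ^ j * (2 ^ k * (1/2)^k) by ring,
        ← mul_pow]; norm_num
    have e3 : (4 * 3 ^ (k+j) * (1/3)^k : 𝕜) = 4 * 3 ^ j := by
      rw [pow_add, show (4 * (3 ^ k * 3 ^ j) * (1/3)^k : 𝕜) = 4 * 3 ^ j * (3 ^ k * (1/3)^k) by ring,
        ← mul_pow]; norm_num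
    have e4 : (-1 * 4 ^ (k+j) * (1/4)^k : 𝕜) = -1 * 4 ^ j := by
      rw [pow_add, show (-1 * (4 ^ k * 4 ^ j) * (1/4)^k : 𝕜) = -1 * 4 ^ j * (4 ^ k * (1/4)^k) by ring,
        ← mul_pow]; norm_num
    rw [e2, e3, e4]
    have h0 : (4 + -6 * 2 ^ j + 4 * 3 ^ j + -1 * 4 ^ j : 𝕜) = 0 := by
      rcases hj with rfl | rfl | rfl <;> norm_num
    rw [h0, zero_smul]
  · have h2 := c.comm_sc hS.comm (s := 1/2) (by norm_num)
    have h3 := c.comm_sc hS.comm (s := 1/3) (by norm_num)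
    have h4 := c.comm_sc hS.comm (s := 1/4) (by norm_num)
    simp only [nrm, map_add, map_smul, dv_prol_add, dv_prol_smul, h2, h3, h4, hS.comm]

/-- **main theorem**, coordinate free form -/
theorem jordan {n : ℕ} (hn : 6 ≤ n) {S : SF 𝕜 Ω E} (hS : c.IsSym n S) {u : E} (hu : u ∈ Ω)
    (X Y Z V W : E) :
    c.sg u X (c.sg u Y Z V) W - c.sg u W V (c.sg u X Y Z) + c.sg u Z Y (c.sg u X V W)
      - c.sg u X V (c.sg u Z Y W) = 0 := by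
  obtain ⟨m, rfl⟩ : ∃ m, n = m + 5 := ⟨n - 5, by omega⟩
  exact c.jordan_norm (by omega) (c.nrm_sym hS) hu X Y Z V W

end Sys

end Final

end Pool.Agent.H99.TJ
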