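import Pool.Agent.H99.TJ.Defs
import Pool.Agent.H99.TJ.Final

open scoped ContDiff

namespace Pool.Agent.H99.TJ.Coord

open TopologicalSpace Pool.Agent.H99.TJ

set_option linter.unusedSectionVars false

section Tens

variable {𝕜 : Type} [RCLike 𝕜] {N : ℕ}

/-- evaluation as a linear map -/
noncomputable def evx {E F : Type*} [NormedAddCommGroup E] [NormedSpace 𝕜 E]
    [NormedAddCommGroup F] [NormedSpace 𝕜 F] (x : E) : Hm 𝕜 E F →L[𝕜] F :=
  (ContinuousLinearMap.apply 𝕜 F x).comp Hm.toL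

lemma evx_apply {E F : Type*} [NormedAddCommGroup E] [NormedSpace 𝕜 E]
    [NormedAddCommGroup F] [NormedSpace 𝕜 F] (x : E) (f : Hm 𝕜 E F) : evx x f = f x := rfl

lemma sum_ap {E F : Type*} [NormedAddCommGroup E] [NormedSpace 𝕜 E]
    [NormedAddCommGroup F] [NormedSpace 𝕜 F] {ι : Type*} (s : Finset ι) (f : ι → Hm 𝕜 E F) (x : E) :
    (∑ i ∈ s, f i) x = ∑ i ∈ s, f i x := map_sum (evx x) f s

/-- elementary bilinear maps -/
noncomputable def el2 (i j k : Fin N) : Hm 𝕜 (Fin N → 𝕜) (Hm 𝕜 (Fin N → 𝕜) (Fin N → 𝕜)) :=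
  Hm.ofL ((ContinuousLinearMap.proj (R := 𝕜) (φ := fun _ : Fin N => 𝕜) j).smulRight
    (Hm.ofL ((ContinuousLinearMap.proj (R := 𝕜) (φ := fun _ : Fin N => 𝕜) k).smulRight
      (Pi.single i (1:𝕜)))))

lemma el2_apply (i j k : Fin N) (x y : Fin N → 𝕜) :
    (el2 i j k : Hm 𝕜 (Fin N → 𝕜) (Hm 𝕜 (Fin N → 𝕜) (Fin N → 𝕜))) x y = x j • y k • (Pi.single i (1:𝕜) : Fin N → 𝕜) := rfl

/-- elementary trilinear maps -/
noncomputable def el3 (i j k l : Fin N) :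
    Hm 𝕜 (Fin N → 𝕜) (Hm 𝕜 (Fin N → 𝕜) (Hm 𝕜 (Fin N → 𝕜) (Fin N → 𝕜))) :=
  Hm.ofL ((ContinuousLinearMap.proj (R := 𝕜) (φ := fun _ : Fin N => 𝕜) j).smulRight (el2 i k l))

lemma el3_apply (i j k l : Fin N) (x y z : Fin N → 𝕜) :
    (el3 i j k l : Hm 𝕜 (Fin N → 𝕜) (Hm 𝕜 (Fin N → 𝕜) (Hm 𝕜 (Fin N → 𝕜) (Fin N → 𝕜)))) x y z
      = x j • y k • z l • (Pi.single i (1:𝕜) : Fin N → 𝕜) := rfl

noncomputable def tens2 (a : Fin N → Fin N → Fin N → 𝕜) :
    Hm 𝕜 (Fin N → 𝕜) (Hm 𝕜 (Fin N → 𝕜) (Fin N → 𝕜)) :=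
  ∑ i, ∑ j, ∑ k, a i j k • el2 i j k

noncomputable def tens3 (a : Fin N → Fin N → Fin N → Fin N → 𝕜) :
    Hm 𝕜 (Fin N → 𝕜) (Hm 𝕜 (Fin N → 𝕜) (Hm 𝕜 (Fin N → 𝕜) (Fin N → 𝕜))) :=
  ∑ i, ∑ j, ∑ k, ∑ l, a i j k l • el3 i j k l

lemma tens2_apply (a : Fin N → Fin N → Fin N → 𝕜) (x y : Fin N → 𝕜) :
    tens2 a x y = ev2 a x y := by
  simp only [tens2, sum_ap, Hm.smul_ap, el2_apply]
  funext i'
  simp only [Finset.sum_apply, Pi.smul_apply, smul_eq_mul, ev2]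
  rw [Finset.sum_eq_single i']
  · apply Finset.sum_congr rfl; intro j _
    apply Finset.sum_congr rfl; intro k _
    rw [Pi.single_eq_same]; ring
  · intro i _ hi
    apply Finset.sum_eq_zero; intro j _
    apply Finset.sum_eq_zero; intro k _
    rw [Pi.single_eq_of_ne (Ne.symm hi)]; ring
  · intro h; exact absurd (Finset.mem_univ _) h

lemma tens3_apply (a : Fin N → Fin N → Fin N → Fin N → 𝕜) (x y z : Fin N → 𝕜) :
    tens3 a x y z = ev3 a x y z := by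
  simp only [tens3, sum_ap, Hm.smul_ap, el3_apply]
  funext i'
  simp only [Finset.sum_apply, Pi.smul_apply, smul_eq_mul, ev3]
  rw [Finset.sum_eq_single i']
  · apply Finset.sum_congr rfl; intro j _
    apply Finset.sum_congr rfl; intro k _
    apply Finset.sum_congr rfl; intro l _
    rw [Pi.single_eq_same]; ring
  · intro i _ hi
    apply Finset.sum_eq_zero; intro j _
    apply Finset.sum_eq_zero; intro k _
    apply Finset.sum_eq_zero; intro l _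
    rw [Pi.single_eq_of_ne (Ne.symm hi)]; ring
  · intro h; exact absurd (Finset.mem_univ _) h

lemma tens2_smooth {Ω : Set (Fin N → 𝕜)} {a : Fin N → Fin N → Fin N → (Fin N → 𝕜) → 𝕜}
    (h : ∀ i j k, ContDiffOn 𝕜 ∞ (a i j k) Ω) :
    ContDiffOn 𝕜 ∞ (fun u => tens2 (fun i j k => a i j k u)) Ω := by
  unfold tens2
  apply ContDiffOn.sum; intro i _
  apply ContDiffOn.sum; intro j _
  apply ContDiffOn.sum; intro k _
  exact (h i j k).smul contDiffOn_const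

lemma tens3_smooth {Ω : Set (Fin N → 𝕜)} {a : Fin N → Fin N → Fin N → Fin N → (Fin N → 𝕜) → 𝕜}
    (h : ∀ i j k l, ContDiffOn 𝕜 ∞ (a i j k l) Ω) :
    ContDiffOn 𝕜 ∞ (fun u => tens3 (fun i j k l => a i j k l u)) Ω := by
  unfold tens3
  apply ContDiffOn.sum; intro i _
  apply ContDiffOn.sum; intro j _
  apply ContDiffOn.sum; intro k _
  apply ContDiffOn.sum; intro l _
  exact (h i j k l).smul contDiffOn_const

lemma fderiv_tens2 {Ω : Set (Fin N → 𝕜)} (hΩ : IsOpen Ω)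
    {a : Fin N → Fin N → Fin N → (Fin N → 𝕜) → 𝕜}
    (h : ∀ i j k, ContDiffOn 𝕜 ∞ (a i j k) Ω) {u : Fin N → 𝕜} (hu : u ∈ Ω) (x : Fin N → 𝕜) :
    fderiv 𝕜 (fun u => tens2 (fun i j k => a i j k u)) u x
      = tens2 (fun i j k => fderiv 𝕜 (a i j k) u x) := by
  have hd : ∀ i j k, DifferentiableAt 𝕜 (a i j k) u := fun i j k =>
    ((h i j k).contDiffAt (hΩ.mem_nhds hu)).differentiableAt (by simp)
  have h1 : HasFDerivAt (fun u => tens2 (fun i j k => a i j k u))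
      (∑ i, ∑ j, ∑ k, (fderiv 𝕜 (a i j k) u).smulRight (el2 i j k)) u := by
    unfold tens2
    apply HasFDerivAt.fun_sum; intro i _
    apply HasFDerivAt.fun_sum; intro j _
    apply HasFDerivAt.fun_sum; intro k _
    exact (hd i j k).hasFDerivAt.smul_const (el2 i j k)
  rw [h1.fderiv]
  simp only [_root_.sum_apply, ContinuousLinearMap.smulRight_apply, tens2]

lemma pd_eq {Ω : Set (Fin N → 𝕜)} (hΩ : IsOpen Ω) {f : (Fin N → 𝕜) → 𝕜}
    (h : ContDiffOn 𝕜 ∞ f Ω) {u : Fin N → 𝕜} (hu : u ∈ Ω) (j : Fin N) :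
    pd j f u = fderiv 𝕜 f u (Pi.single j 1) :=
  (((h.contDiffAt (hΩ.mem_nhds hu)).differentiableAt (by simp)).lineDeriv_eq_fderiv)

lemma fderiv_eq_sum {Ω : Set (Fin N → 𝕜)} (hΩ : IsOpen Ω) {f : (Fin N → 𝕜) → 𝕜}
    (h : ContDiffOn 𝕜 ∞ f Ω) {u : Fin N → 𝕜} (hu : u ∈ Ω) (x : Fin N → 𝕜) :
    fderiv 𝕜 f u x = ∑ j, pd j f u * x j := by
  have hx : x = ∑ j, x j • (Pi.single j (1:𝕜) : Fin N → 𝕜) := by
    funext i
    simp [Finset.sum_apply, Pi.single_apply]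
  conv_lhs => rw [hx]
  rw [map_sum]
  apply Finset.sum_congr rfl
  intro j _
  rw [map_smul, pd_eq hΩ h hu, smul_eq_mul, mul_comm]

end Tens

section Cor

variable {𝕜 : Type} [RCLike 𝕜] {N : ℕ} {Ω : Opens (Fin N → 𝕜)}

/-- component functions on jets represented by a smooth differential function -/
def Cor (f : Fin N → Jet 𝕜 N → 𝕜) (F : SF 𝕜 Ω (Fin N → 𝕜)) : Prop :=
  ∀ (v : Jet 𝕜 N) (h : v 0 ∈ Ω) (i : Fin N), f i v = F.1 ⟨v, h⟩ i

lemma lineDeriv_cor {f : Jet 𝕜 N → 𝕜} {F : Jets Ω → 𝕜}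
    (h : ∀ (v : Jet 𝕜 N) (hv : v 0 ∈ Ω), f v = F ⟨v, hv⟩) (v : Jet 𝕜 N) (hv : v 0 ∈ Ω)
    (w : Jet 𝕜 N) : lineDeriv 𝕜 f v w = ld 𝕜 F ⟨v, hv⟩ w := by
  unfold lineDeriv ld
  apply Filter.EventuallyEq.deriv_eq
  filter_upwards [eventually_mem (𝕜 := 𝕜) (⟨v, hv⟩ : Jets Ω) w] with t ht
  rw [ext0, dif_pos ht]
  exact h _ ht

/-- projection to a component -/
noncomputable def prj (i : Fin N) : (Fin N → 𝕜) →L[𝕜] 𝕜 :=
  ContinuousLinearMap.proj (R := 𝕜) (φ := fun _ : Fin N => 𝕜) i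

lemma Cor.line {f : Fin N → Jet 𝕜 N → 𝕜} {F : SF 𝕜 Ω (Fin N → 𝕜)} (h : Cor f F)
    (X : ℕ → SF 𝕜 Ω (Fin N → 𝕜)) (v : Jet 𝕜 N) (hv : v 0 ∈ Ω) (w : Jet 𝕜 N)
    (hw : ∀ k, w k = (X k).1 ⟨v, hv⟩) (i : Fin N) :
    lineDeriv 𝕜 (f i) v w = (dv X F).1 ⟨v, hv⟩ i := by
  have h1 := lineDeriv_cor (f := f i) (F := (mapL (prj (𝕜 := 𝕜) i) F : SF 𝕜 Ω 𝕜).1)
    (fun v hv => h v hv i) v hv w
  rw [h1]
  have h2 : (dv X (mapL (prj (𝕜 := 𝕜) i) F : SF 𝕜 Ω 𝕜)).1 ⟨v, hv⟩ = (dv X F).1 ⟨v, hv⟩ i := by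
    rw [dv_mapL]; rfl
  rw [← h2, dv_apply]
  congr 1
  funext k
  rw [hw]

lemma Cor.total {f : Fin N → Jet 𝕜 N → 𝕜} {F : SF 𝕜 Ω (Fin N → 𝕜)} (h : Cor f F) :
    Cor (fun i => totalDeriv (f i)) (dv sh F) := fun v hv i => h.line sh v hv _ (fun _ => rfl) i

lemma Cor.iter {f : Fin N → Jet 𝕜 N → 𝕜} {F : SF 𝕜 Ω (Fin N → 𝕜)} (h : Cor f F) (k : ℕ) :
    Cor (fun i => totalDeriv^[k] (f i)) (prol F k) := by
  induction k with
  | zero => exact h
  | succ k ih =>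
    rw [prol_succ]
    have := ih.total
    simp only [Function.iterate_succ_apply']
    exact this

lemma Cor.evol {K f : Fin N → Jet 𝕜 N → 𝕜} {KF F : SF 𝕜 Ω (Fin N → 𝕜)} (hK : Cor K KF)
    (h : Cor f F) : Cor (fun i => evolDeriv K (f i)) (dv (prol KF) F) := by
  intro v hv i
  apply h.line (prol KF) v hv
  intro k
  funext j
  exact hK.iter k v hv j

lemma Cor.ext {f : Fin N → Jet 𝕜 N → 𝕜} {F G : SF 𝕜 Ω (Fin N → 𝕜)} (h : Cor f F) (h' : Cor f G) :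
    F = G := by
  apply SF.ext; intro v
  funext i
  rw [← h v.1 v.2 i, ← h' v.1 v.2 i]

end Cor

section KVal

variable {𝕜 : Type*} [RCLike 𝕜] {E : Type*} [NormedAddCommGroup E] [NormedSpace 𝕜 E]
variable {Ω : Opens E}

lemma K_val (c : Sys 𝕜 Ω) (v : Jets Ω) : c.K.1 v = v.1 3 + (3:𝕜) • c.α (v.1 0) (v.1 1) (v.1 2)
    + fderiv 𝕜 c.α (v.1 0) (v.1 1) (v.1 1) (v.1 1)
    + (2:𝕜) • c.α (v.1 0) (v.1 1) (c.α (v.1 0) (v.1 1) (v.1 1))
    - c.α (v.1 0) (c.α (v.1 0) (v.1 1) (v.1 1)) (v.1 1)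
    + c.β (v.1 0) (v.1 1) (v.1 1) (v.1 1) := by
  have h1 : c.P 1 = coord 2 + ap (ap c.αh (coord 1)) (coord 1) := by
    change c.cov sh (coord 1) = _
    rw [c.cov_vec, dv_coord]
    rfl
  have h2 : c.P 2 = coord 3 + (ap (ap (ap (base (fun u => (Hm.ofL (fderiv 𝕜 c.α u) :
      Hm 𝕜 E (Hm 𝕜 E (Hm 𝕜 E E)))) (contDiffOn_fderivH c.sm)) (coord 1)) (coord 1)) (coord 1)
      + ap (ap c.αh (coord 2)) (coord 1) + ap (ap c.αh (coord 1)) (coord 2))
      + ap (ap c.αh (coord 1)) (c.P 1) := by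
    change c.cov sh (c.P 1) = _
    rw [c.cov_vec]
    nth_rewrite 1 [h1]
    rw [map_add, dv_ap, dv_ap, Conn.αh, dv_base, dv_coord, dv_coord]
    apply SF.ext; intro v
    simp only [add_val, ap_val, Hm.add_ap]
    rfl
  have e1 : (c.P 1).1 v = v.1 2 + c.α (v.1 0) (v.1 1) (v.1 1) := c.P1_val v
  have e2 : (c.P 2).1 v = v.1 3 + (fderiv 𝕜 c.α (v.1 0) (v.1 1) (v.1 1) (v.1 1)
      + c.α (v.1 0) (v.1 2) (v.1 1) + c.α (v.1 0) (v.1 1) (v.1 2))
      + c.α (v.1 0) (v.1 1) (v.1 2 + c.α (v.1 0) (v.1 1) (v.1 1)) := by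
    rw [h2, ← e1]
    rfl
  simp only [Sys.K, add_val, ap_val, e1, e2, c.Th_val, c.βh_val, c.P0_val, Conn.T_apply, map_add]
  module

end KVal

section Sys

variable {𝕜 : Type} [RCLike 𝕜] {N : ℕ} (S : GeomSystem 𝕜 N)

/-- the domain -/
abbrev domO : Opens (Fin N → 𝕜) := ⟨S.Ω, S.isOpen⟩

/-- the system in coordinate free form -/
noncomputable def toSys : Sys 𝕜 (domO S) where
  α := fun u => tens2 (fun i j k => S.α i j k u)
  sm := tens2_smooth S.α_smooth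
  β := fun u => tens3 (fun i j k l => S.β i j k l u)
  βsm := tens3_smooth S.β_smooth
  βs1 := by
    intro u hu x y z
    rw [tens3_apply, tens3_apply]
    funext i
    simp only [ev3]
    rw [Finset.sum_comm]
    apply Finset.sum_congr rfl; intro k _
    apply Finset.sum_congr rfl; intro j _
    apply Finset.sum_congr rfl; intro l _
    rw [S.β_symm₁ u hu]; ring
  βs2 := by
    intro u hu x y z
    rw [tens3_apply, tens3_apply]
    funext i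
    simp only [ev3]
    apply Finset.sum_congr rfl; intro k _
    rw [Finset.sum_comm]
    apply Finset.sum_congr rfl; intro j _
    apply Finset.sum_congr rfl; intro l _
    rw [S.β_symm₂ u hu]; ring

lemma toSys_α (u : Fin N → 𝕜) (x y : Fin N → 𝕜) :
    (toSys S).α u x y = ev2 (fun i j k => S.α i j k u) x y := tens2_apply _ _ _

lemma toSys_β (u : Fin N → 𝕜) (x y z : Fin N → 𝕜) :
    (toSys S).β u x y z = ev3 (fun i j k l => S.β i j k l u) x y z := tens3_apply _ _ _ _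

lemma toSys_fderiv {u : Fin N → 𝕜} (hu : u ∈ S.Ω) (x y z : Fin N → 𝕜) :
    fderiv 𝕜 (toSys S).α u x y z = fun i => ∑ j, ∑ k, ∑ m, pd j (S.α i k m) u * x j * y k * z m := by
  have h1 := fderiv_tens2 S.isOpen S.α_smooth hu x
  have h2 : fderiv 𝕜 (toSys S).α u x y z
      = ev2 (fun i k m => fderiv 𝕜 (S.α i k m) u x) y z := by
    rw [← tens2_apply, ← h1]; rfl
  rw [h2]
  funext i
  simp only [ev2, fderiv_eq_sum S.isOpen (S.α_smooth _ _ _) hu, Finset.sum_mul]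
  have e1 : ∀ k : Fin N, ∑ m, ∑ j, pd j (S.α i k m) u * x j * y k * z m
      = ∑ j, ∑ m, pd j (S.α i k m) u * x j * y k * z m := fun k => Finset.sum_comm
  simp only [e1]
  rw [Finset.sum_comm]

lemma rhs_cor : Cor S.rhs (toSys S).K := by
  intro v hv i
  rw [K_val]
  have hu : v 0 ∈ S.Ω := hv
  change S.rhs i v = (v 3 + (3:𝕜) • (toSys S).α (v 0) (v 1) (v 2)
    + fderiv 𝕜 (toSys S).α (v 0) (v 1) (v 1) (v 1)
    + (2:𝕜) • (toSys S).α (v 0) (v 1) ((toSys S).α (v 0) (v 1) (v 1))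
    - (toSys S).α (v 0) ((toSys S).α (v 0) (v 1) (v 1)) (v 1)
    + (toSys S).β (v 0) (v 1) (v 1) (v 1)) i
  rw [toSys_fderiv S hu, toSys_α, toSys_α, toSys_α, toSys_α, toSys_β]
  simp only [Pi.add_apply, Pi.sub_apply, Pi.smul_apply, smul_eq_mul, ev2, ev3, GeomSystem.rhs]
  have e1 : ∑ j, ∑ k, S.α i j k (v 0) * v 1 j * ∑ j', ∑ k', S.α k j' k' (v 0) * v 1 j' * v 1 k'
      = ∑ j, ∑ k, ∑ m, (∑ r, S.α i j r (v 0) * S.α r k m (v 0)) * v 1 j * v 1 k * v 1 m := by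
    apply Finset.sum_congr rfl; intro j _
    simp only [Finset.mul_sum, Finset.sum_mul]
    rw [Finset.sum_comm]
    apply Finset.sum_congr rfl; intro k _
    rw [Finset.sum_comm]
    apply Finset.sum_congr rfl; intro m _
    apply Finset.sum_congr rfl; intro r _
    ring
  have e2 : ∑ j, ∑ k, S.α i j k (v 0) * (∑ j', ∑ k', S.α j j' k' (v 0) * v 1 j' * v 1 k') * v 1 k
      = ∑ j, ∑ k, ∑ m, (∑ r, S.α i r j (v 0) * S.α r k m (v 0)) * v 1 j * v 1 k * v 1 m := by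
    rw [Finset.sum_comm]
    apply Finset.sum_congr rfl; intro j _
    simp only [Finset.mul_sum, Finset.sum_mul]
    rw [Finset.sum_comm]
    apply Finset.sum_congr rfl; intro k _
    rw [Finset.sum_comm]
    apply Finset.sum_congr rfl; intro m _
    apply Finset.sum_congr rfl; intro r _
    ring
  rw [e1, e2]
  simp only [add_mul, sub_mul, Finset.sum_add_distrib, Finset.sum_sub_distrib, mul_assoc,
    ← Finset.mul_sum]
  ring

/-- a smooth function of jets as a smooth differential function -/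
lemma exists_SF {n : ℕ} {G : Fin N → Jet 𝕜 N → 𝕜} (hG : ∀ i, IsSmoothOfJets S.Ω n (G i)) :
    ∃ GF : SF 𝕜 (domO S) (Fin N → 𝕜), Cor G GF ∧
      ∀ v v' : Jets (domO S), (∀ k < n, v.1 k = v'.1 k) → GF.1 v = GF.1 v' := by
  choose g hg hgv using hG
  refine ⟨⟨fun v i => g i (fun k => v.1 k), ?_⟩, fun v hv i => hgv i v hv, ?_⟩
  · refine ⟨n, fun p i => g i (fun k => p (Fin.castSucc k)), ?_, fun v => rfl⟩
    apply contDiffOn_pi.2
    intro i
    apply (hg i).comp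
    · apply ContDiff.contDiffOn
      apply contDiff_pi.2
      intro k
      exact contDiff_apply 𝕜 (Fin N → 𝕜) (Fin.castSucc k)
    · intro p hp h
      exact hp
  · intro v v' h
    funext i
    change g i _ = g i _
    congr 1
    funext k
    exact h k k.2

lemma isSym_of {n : ℕ} (hn : 1 ≤ n) {L : Fin N → Jet 𝕜 N → 𝕜} (hL : S.IsSymmetry n L) :
    ∃ LF : SF 𝕜 (domO S) (Fin N → 𝕜), (toSys S).IsSym n LF := by
  obtain ⟨⟨G, hG, hLG⟩, hcomm⟩ := hL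
  obtain ⟨GF, hGF, hGo⟩ := exists_SF S hG
  obtain ⟨m, rfl⟩ : ∃ m, n = m + 1 := ⟨n - 1, by omega⟩
  have hGo' : OrdLE m GF := fun v v' h => hGo v v' (fun k hk => h k (by omega))
  set LF : SF 𝕜 (domO S) (Fin N → 𝕜) := coord (m+1) + GF with hLF
  have hcor : Cor L LF := by
    intro v hv i
    rw [hLG v hv i, hGF v hv i]
    rfl
  refine ⟨LF, ?_, ?_, ?_⟩
  · have h1 : OrdLE (m+1) (coord (m+1) : SF 𝕜 (domO S) (Fin N → 𝕜)) := fun v v' h => h (m+1) le_rfl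
    exact h1.add (hGo'.mono (by omega))
  · rw [hLF, pd_add]
    apply SF.ext; intro v
    ext e
    rw [add_val, Hm.add_ap, pd_val, pd_val]
    have h1 : ld 𝕜 (coord (m+1) : SF 𝕜 (domO S) (Fin N → 𝕜)).1 v (Pi.single (m+1) e) = e := by
      have := ld_coord (𝕜 := 𝕜) (m+1) v (Pi.single (m+1) e)
      rw [Pi.single_eq_same] at this
      exact this
    have h2 : ld 𝕜 GF.1 v (Pi.single (m+1) e) = 0 := by
      rw [← ld_zero_dir GF v]
      apply ld_congr hGo' (fun _ _ => rfl)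
      intro k hk
      rw [Pi.single_eq_of_ne (by omega)]
      rfl
    rw [h1, h2, add_zero]
    rfl
  · have h1 := (rhs_cor S).evol hcor
    have h2 := hcor.evol (rhs_cor S)
    apply SF.ext; intro v
    funext i
    rw [← h1 v.1 v.2 i, ← h2 v.1 v.2 i]
    exact hcomm v.1 v.2 i

end Sys

end Pool.Agent.H99.TJ.Coord
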