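import Mathlib

namespace Pool.Agent.H99.TJ

set_option linter.unusedSectionVars false

section Coef

variable {𝕜 : Type*} [Field 𝕜] [CharZero 𝕜] {O : Type*} [Ring O] [Algebra 𝕜 O]

/-- the inner derivation -/
def ad (d x : O) : O := d * x - x * d

lemma ad_add (d x y : O) : ad d (x + y) = ad d x + ad d y := by unfold ad; noncomm_ring
lemma ad_sub (d x y : O) : ad d (x - y) = ad d x - ad d y := by unfold ad; noncomm_ring
lemma ad_mul (d x y : O) : ad d (x * y) = ad d x * y + x * ad d y := by unfold ad; noncomm_ring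
lemma ad_smul (d : O) (c : 𝕜) (x : O) : ad d (c • x) = c • ad d x := by
  unfold ad; rw [mul_smul_comm, smul_mul_assoc, smul_sub]
lemma ad_neg (d x : O) : ad d (-x) = -ad d x := by unfold ad; noncomm_ring

/-- operators of order `< m` -/
def Fil (G : Subalgebra 𝕜 O) (d : O) (m : ℕ) : Submodule 𝕜 O where
  carrier := {x | ∃ f : ℕ → O, (∀ k, f k ∈ G) ∧ x = ∑ k ∈ Finset.range m, f k * d ^ k}
  add_mem' := by
    rintro _ _ ⟨f, hf, rfl⟩ ⟨g, hg, rfl⟩
    refine ⟨fun k => f k + g k, fun k => G.add_mem (hf k) (hg k), ?_⟩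
    rw [← Finset.sum_add_distrib]
    exact Finset.sum_congr rfl fun k _ => by rw [add_mul]
  zero_mem' := ⟨fun _ => 0, fun _ => G.zero_mem, by simp⟩
  smul_mem' := by
    rintro c _ ⟨f, hf, rfl⟩
    refine ⟨fun k => c • f k, fun k => G.smul_mem (hf k) c, ?_⟩
    rw [Finset.smul_sum]
    exact Finset.sum_congr rfl fun k _ => by rw [smul_mul_assoc]

variable {G : Subalgebra 𝕜 O} {d : O}

lemma mem_Fil {g : O} (hg : g ∈ G) {k m : ℕ} (h : k < m) : g * d ^ k ∈ Fil G d m := by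
  classical
  refine ⟨fun j => if j = k then g else 0, fun j => ?_, ?_⟩
  · by_cases hj : j = k
    · simp [hj, hg]
    · simp [hj, G.zero_mem]
  · rw [Finset.sum_eq_single k]
    · simp
    · intro j _ hj; simp [hj]
    · intro hk; exact absurd (Finset.mem_range.2 h) hk

lemma Fil_le_of {m : ℕ} {S : Submodule 𝕜 O} (h : ∀ g ∈ G, ∀ k < m, g * d ^ k ∈ S) :
    Fil G d m ≤ S := by
  rintro _ ⟨f, hf, rfl⟩
  exact S.sum_mem fun k hk => h _ (hf k) k (Finset.mem_range.1 hk)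

lemma Fil_mono {m n : ℕ} (h : m ≤ n) : Fil G d m ≤ Fil G d n :=
  Fil_le_of fun _ hg _ hk => mem_Fil hg (by omega)

lemma G_Fil {g x : O} (hg : g ∈ G) {m : ℕ} (hx : x ∈ Fil G d m) : g * x ∈ Fil G d m := by
  have : Fil G d m ≤ (Fil G d m).comap (LinearMap.mulLeft 𝕜 g) := by
    apply Fil_le_of
    intro g' hg' k hk
    rw [Submodule.mem_comap, LinearMap.mulLeft_apply, ← mul_assoc]
    exact mem_Fil (G.mul_mem hg hg') hk
  exact this hx

lemma Fil_d {x : O} {m : ℕ} (hx : x ∈ Fil G d m) : x * d ∈ Fil G d (m+1) := by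
  have : Fil G d m ≤ (Fil G d (m+1)).comap (LinearMap.mulRight 𝕜 d) := by
    apply Fil_le_of
    intro g hg k hk
    rw [Submodule.mem_comap, LinearMap.mulRight_apply, mul_assoc, ← pow_succ]
    exact mem_Fil hg (by omega)
  exact this hx

variable (hd : ∀ g ∈ G, ad d g ∈ G)
include hd

lemma ad_Fil {x : O} {m : ℕ} (hx : x ∈ Fil G d m) : ad d x ∈ Fil G d m := by
  have : Fil G d m ≤ (Fil G d m).comap (LinearMap.mulLeft 𝕜 d - LinearMap.mulRight 𝕜 d) := by
    apply Fil_le_of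
    intro g hg k hk
    rw [Submodule.mem_comap, LinearMap.sub_apply, LinearMap.mulLeft_apply,
      LinearMap.mulRight_apply]
    have : d * (g * d ^ k) - g * d ^ k * d = ad d g * d ^ k := by
      have h1 : d ^ k * d = d * d ^ k := by rw [← pow_succ, ← pow_succ']
      unfold ad
      rw [mul_assoc g, h1]; noncomm_ring
    rw [this]
    exact mem_Fil (hd g hg) hk
  exact this hx

lemma d_Fil {x : O} {m : ℕ} (hx : x ∈ Fil G d m) : d * x ∈ Fil G d (m+1) := by
  have : d * x = ad d x + x * d := by unfold ad; abel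
  rw [this]
  exact (Fil G d (m+1)).add_mem (Fil_mono (by omega) (ad_Fil hd hx)) (Fil_d hx)

lemma d3_Fil {x : O} {m : ℕ} (hx : x ∈ Fil G d m) :
    d ^ 3 * x - x * d ^ 3 ∈ Fil G d (m+2) := by
  have h : d ^ 3 * x - x * d ^ 3 = d * (d * ad d x) + d * (ad d x * d) + ad d x * d * d := by
    unfold ad; noncomm_ring
  rw [h]
  have h1 := ad_Fil hd hx
  exact (Fil G d (m+2)).add_mem ((Fil G d (m+2)).add_mem (d_Fil hd (d_Fil hd h1))
    (d_Fil hd (Fil_d h1))) (Fil_d (Fil_d h1))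

/-- Leibniz expansion -/
lemma pow_mul_expand (k : ℕ) (g : O) :
    d ^ k * g = ∑ s ∈ Finset.range (k+1), ((k.choose s : ℕ) : 𝕜) • ((ad d)^[s] g * d ^ (k - s)) := by
  clear hd
  have hc : Commute (LinearMap.mulLeft 𝕜 d - LinearMap.mulRight 𝕜 d) (LinearMap.mulRight 𝕜 d) := by
    apply Commute.sub_left _ (Commute.refl _)
    exact LinearMap.commute_mulLeft_right d d
  have h1 := hc.add_pow k
  rw [sub_add_cancel] at h1
  have h2 := LinearMap.congr_fun h1 g
  have hL : ∀ j : ℕ, (LinearMap.mulLeft 𝕜 d ^ j) g = d ^ j * g := by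
    intro j; rw [LinearMap.pow_mulLeft]; rfl
  rw [hL, LinearMap.sum_apply] at h2
  rw [h2]
  apply Finset.sum_congr rfl
  intro s _
  have hA : ∀ j : ℕ, ((LinearMap.mulLeft 𝕜 d - LinearMap.mulRight 𝕜 d) ^ j) g = (ad d)^[j] g := by
    intro j
    rw [Module.End.pow_apply]
    rfl
  have h4 : ((LinearMap.mulLeft 𝕜 d - LinearMap.mulRight 𝕜 d) ^ s * LinearMap.mulRight 𝕜 d ^ (k - s)) g
      = (ad d)^[s] g * d ^ (k - s) := by
    rw [(hc.pow_pow s (k-s)).eq, Module.End.mul_apply, hA, LinearMap.pow_mulRight]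
    rfl
  rw [Module.End.mul_apply, Module.End.natCast_apply, map_nsmul, h4, Nat.cast_smul_eq_nsmul]

lemma iter_ad_mem {g : O} (hg : g ∈ G) (s : ℕ) : (ad d)^[s] g ∈ G := by
  induction s with
  | zero => exact hg
  | succ s ih => rw [Function.iterate_succ_apply']; exact hd _ ih

lemma expand_top (i j : ℕ) {g : O} (hg : g ∈ G) :
    d ^ (j+i) * g - ∑ s ∈ Finset.range (i+1), (((j+i).choose s : ℕ) : 𝕜) • ((ad d)^[s] g * d ^ (j + (i - s)))
      ∈ Fil G d j := by
  rw [pow_mul_expand (𝕜 := 𝕜) hd (j+i) g]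
  have h1 : Finset.range (j+i+1) = Finset.range (i + 1 + j) := by congr 1; ring
  rw [h1, Finset.sum_range_add]
  have h2 : ∑ s ∈ Finset.range (i+1), (((j+i).choose s : ℕ) : 𝕜) • ((ad d)^[s] g * d ^ (j + i - s))
      = ∑ s ∈ Finset.range (i+1), (((j+i).choose s : ℕ) : 𝕜) • ((ad d)^[s] g * d ^ (j + (i - s))) := by
    apply Finset.sum_congr rfl
    intro s hs
    have := Finset.mem_range.1 hs
    rw [show j + i - s = j + (i - s) by omega]
  rw [h2, add_sub_cancel_left]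
  apply Submodule.sum_mem
  intro s hs
  have hs' := Finset.mem_range.1 hs
  apply Submodule.smul_mem
  exact mem_Fil (iter_ad_mem hd hg _) (by omega)

lemma Fil_G {g x : O} (hg : g ∈ G) {m : ℕ} (hx : x ∈ Fil G d m) : x * g ∈ Fil G d m := by
  have : Fil G d m ≤ (Fil G d m).comap (LinearMap.mulRight 𝕜 g) := by
    apply Fil_le_of
    intro g' hg' k hk
    rw [Submodule.mem_comap, LinearMap.mulRight_apply, mul_assoc]
    apply G_Fil hg'
    rw [pow_mul_expand (𝕜 := 𝕜) hd k g]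
    apply Submodule.sum_mem
    intro s hs
    apply Submodule.smul_mem
    exact mem_Fil (iter_ad_mem hd hg _) (by omega)
  exact this hx

section Dt

variable {Dt : O} (hρ : ad Dt d ∈ G) (hDt : ∀ g ∈ G, ad Dt g ∈ G)
include hρ

lemma Dt_pow (k : ℕ) :
    ad Dt (d ^ (k+1)) - (((k+1 : ℕ) : 𝕜)) • (ad Dt d * d ^ k) ∈ Fil G d k := by
  induction k with
  | zero =>
    have : ad Dt (d ^ (0+1)) - (((0+1 : ℕ) : 𝕜)) • (ad Dt d * d ^ 0) = 0 := by simp
    rw [this]; exact Submodule.zero_mem _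
  | succ k ih =>
    have h1 := expand_top (𝕜 := 𝕜) hd 0 (k+1) hρ
    simp only [zero_add, Finset.range_one, Finset.sum_singleton, Nat.choose_zero_right,
      Nat.cast_one, one_smul, Function.iterate_zero, id, Nat.sub_zero, add_zero] at h1
    have h2 : ad Dt (d ^ (k+1+1)) - (((k+1+1 : ℕ) : 𝕜)) • (ad Dt d * d ^ (k+1))
        = (ad Dt (d ^ (k+1)) - (((k+1 : ℕ) : 𝕜)) • (ad Dt d * d ^ k)) * d
          + (d ^ (k+1) * ad Dt d - ad Dt d * d ^ (k+1)) := by
      rw [pow_succ d (k+1), ad_mul, sub_mul, smul_mul_assoc, mul_assoc (ad Dt d), ← pow_succ,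
        Nat.cast_succ (k+1), add_smul, one_smul]
      abel
    rw [h2]
    exact (Fil G d (k+1)).add_mem (Fil_d ih) h1

lemma Dt_pow_mem (k : ℕ) : ad Dt (d ^ k) ∈ Fil G d k := by
  cases k with
  | zero =>
    have : ad Dt (d ^ 0) = 0 := by simp [ad]
    rw [this]; exact Submodule.zero_mem _
  | succ k =>
    have h1 := Dt_pow (𝕜 := 𝕜) hd hρ k
    have h2 : ad Dt (d ^ (k+1)) = (ad Dt (d ^ (k+1)) - (((k+1 : ℕ) : 𝕜)) • (ad Dt d * d ^ k))
      + (((k+1 : ℕ) : 𝕜)) • (ad Dt d * d ^ k) := by abel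
    rw [h2]
    exact (Fil G d (k+1)).add_mem (Fil_mono (by omega) h1)
      (Submodule.smul_mem _ _ (mem_Fil hρ (by omega)))

include hDt

lemma Dt_Fil {x : O} {m : ℕ} (hx : x ∈ Fil G d m) : ad Dt x ∈ Fil G d m := by
  have : Fil G d m ≤ (Fil G d m).comap (LinearMap.mulLeft 𝕜 Dt - LinearMap.mulRight 𝕜 Dt) := by
    apply Fil_le_of
    intro g hg k hk
    rw [Submodule.mem_comap, LinearMap.sub_apply, LinearMap.mulLeft_apply,
      LinearMap.mulRight_apply]
    have : Dt * (g * d ^ k) - g * d ^ k * Dt = ad Dt g * d ^ k + g * ad Dt (d ^ k) := by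
      unfold ad; noncomm_ring
    rw [this]
    exact (Fil G d m).add_mem (mem_Fil (hDt g hg) hk)
      (G_Fil hg (Fil_mono (by omega) (Dt_pow_mem hd hρ k)))
  exact this hx

end Dt

end Coef

end Pool.Agent.H99.TJ
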