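import Pool.Agent.H99.TJ.Coef

namespace Pool.Agent.H99.TJ

set_option linter.unusedSectionVars false
set_option linter.unusedSimpArgs false

section Master

variable {𝕜 : Type*} [Field 𝕜] [CharZero 𝕜] {O : Type*} [Ring O] [Algebra 𝕜 O]

lemma master (d D a B l2 l3 l4 l5 δ rest : O) (c1 c2 c3 c4 c5 c6 c7 : 𝕜)
    (hD : D * d = d * D) (hδ : δ * d = d * δ) (hδD : δ * D = D * δ) :
    ad (δ - (d^3 + a * d + B)) (d^5 * D + l2 * (d^3 * D) + l3 * (d^2 * D) + l4 * (d * D) + l5 * D + rest)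
    = (-((3:𝕜) • ad d l2 - c1 • ad d a)) * (d^5 * D)
    + (-((3:𝕜) • ad d l3 + (3:𝕜) • ad d (ad d l2) + (a * l2 - l2 * a) - c2 • ad d (ad d a) - c1 • ad d B)) * (d^4 * D)
    + (ad δ l2 - ((3:𝕜) • ad d l4 + (3:𝕜) • ad d (ad d l3) + ad d (ad d (ad d l2)) + (a * l3 - l3 * a) + a * ad d l2
        - c5 • (l2 * ad d a) - c3 • ad d (ad d (ad d a)) + (B * l2 - l2 * B) - c2 • ad d (ad d B))) * (d^3 * D)
    + (ad δ l3 - ((3:𝕜) • ad d l5 + (3:𝕜) • ad d (ad d l4) + ad d (ad d (ad d l3)) + (a * l4 - l4 * a)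
        + a * ad d l3 - c7 • (l3 * ad d a) - c6 • (l2 * ad d (ad d a)) - c4 • ad d (ad d (ad d (ad d a)))
        + (B * l3 - l3 * B) - c5 • (l2 * ad d B) - c3 • ad d (ad d (ad d B)))) * (d^2 * D)
    + (ad δ l4 * (d * D) + ad δ l5 * D + ad δ rest
      - (ad d (ad d (ad d l4)) * (d * D) + (3:𝕜) • (ad d (ad d l5) * (d * D)) + ad d (ad d (ad d l5)) * D
        - (d^5 * D * a - (a * (d^5 * D) + c1 • (ad d a * (d^4 * D)) + c2 • (ad d (ad d a) * (d^3 * D))
            + c3 • (ad d (ad d (ad d a)) * (d^2 * D)) + c4 • (ad d (ad d (ad d (ad d a))) * (d * D)))) * d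
        - l2 * (d^3 * D * a - (a * (d^3 * D) + c5 • (ad d a * (d^2 * D)) + c6 • (ad d (ad d a) * (d * D)))) * d
        - l3 * (d^2 * D * a - (a * (d^2 * D) + c7 • (ad d a * (d * D)))) * d
        + a * ad d l4 * (d * D) - l4 * (d * D * a - a * (d * D)) * d
        + a * l5 * (d * D) + a * ad d l5 * D - l5 * (D * a) * d
        - (d^5 * D * B - (B * (d^5 * D) + c1 • (ad d B * (d^4 * D)) + c2 • (ad d (ad d B) * (d^3 * D))
            + c3 • (ad d (ad d (ad d B)) * (d^2 * D))))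
        - l2 * (d^3 * D * B - (B * (d^3 * D) + c5 • (ad d B * (d^2 * D))))
        - l3 * (d^2 * D * B - B * (d^2 * D))
        + B * l4 * (d * D) - l4 * (d * D * B) + B * l5 * D - l5 * (D * B))
      - ad (d^3 + a * d + B) rest) := by
  have hD' : ∀ x, D * (d * x) = d * (D * x) := fun x => by rw [← mul_assoc, hD, mul_assoc]
  have hδ' : ∀ x, δ * (d * x) = d * (δ * x) := fun x => by rw [← mul_assoc, hδ, mul_assoc]
  have hδD' : ∀ x, δ * (D * x) = D * (δ * x) := fun x => by rw [← mul_assoc, hδD, mul_assoc]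
  simp only [ad, mul_sub, sub_mul, mul_add, add_mul, pow_succ, pow_zero, one_mul, mul_assoc, hD, hD', hδ, hδ',
    hδD, hδD', smul_sub, smul_add, mul_smul_comm, smul_mul_assoc, neg_mul, neg_sub, neg_add]
  module

variable {G : Subalgebra 𝕜 O} {d : O} (hd : ∀ g ∈ G, ad d g ∈ G)

lemma ext_mem (free : ∀ (M : ℕ) (f : ℕ → O), (∀ k, f k ∈ G) →
    ∑ k ∈ Finset.range M, f k * d ^ k = 0 → ∀ k < M, f k = 0) {g : O} (hg : g ∈ G) {k : ℕ}
    (h : g * d ^ k ∈ Fil G d k) : g = 0 := by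
  classical
  obtain ⟨f, hf, hfe⟩ := h
  have h1 := free (k+1) (fun j => if j = k then -g else f j) (fun j => by
    by_cases hj : j = k
    · simp [hj, hg]
    · simp [hj, hf j]) (by
    rw [Finset.sum_range_succ]
    have : ∑ j ∈ Finset.range k, (if j = k then -g else f j) * d ^ j = ∑ j ∈ Finset.range k, f j * d ^ j := by
      apply Finset.sum_congr rfl
      intro j hj
      rw [if_neg (by have := Finset.mem_range.1 hj; omega)]
    rw [this, ← hfe]
    simp) k (by omega)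
  simpa using h1

include hd

lemma ad_N_Fil {a B x : O} (ha : a ∈ G) (hB : B ∈ G) {m : ℕ} (hx : x ∈ Fil G d m) :
    ad (d^3 + a * d + B) x ∈ Fil G d (m+2) := by
  have h : ad (d^3 + a * d + B) x = (d^3 * x - x * d^3) + (a * (d * x) - (x * a) * d)
      + (B * x - x * B) := by
    unfold ad; noncomm_ring
  rw [h]
  refine (Fil G d (m+2)).add_mem ((Fil G d (m+2)).add_mem (d3_Fil hd hx) ?_) ?_
  · exact Fil_mono (by omega) ((Fil G d (m+1)).sub_mem (G_Fil ha (d_Fil hd hx)) (Fil_d (Fil_G hd ha hx)))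
  · exact Fil_mono (by omega) ((Fil G d m).sub_mem (G_Fil hB hx) (Fil_G hd hB hx))

lemma exp4 (m : ℕ) {g : O} (hg : g ∈ G) :
    d^5 * d^m * g - (g * (d^5 * d^m) + (((m+5 : ℕ) : 𝕜)) • (ad d g * (d^4 * d^m))
      + (((m+5).choose 2 : ℕ) : 𝕜) • (ad d (ad d g) * (d^3 * d^m))
      + (((m+5).choose 3 : ℕ) : 𝕜) • (ad d (ad d (ad d g)) * (d^2 * d^m))
      + (((m+5).choose 4 : ℕ) : 𝕜) • (ad d (ad d (ad d (ad d g))) * (d * d^m))) ∈ Fil G d (m+1) := by
  have h := expand_top (𝕜 := 𝕜) hd 4 (m+1) hg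
  simp only [Finset.sum_range_succ, Finset.sum_range_zero, zero_add, Function.iterate_succ,
    Function.iterate_zero, Function.comp, id, Nat.choose_zero_right, Nat.cast_one, one_smul,
    Nat.choose_one_right] at h
  convert h using 1
  simp only [← pow_add, ← pow_succ']
  ring_nf

lemma exp3 (m : ℕ) {g : O} (hg : g ∈ G) :
    d^5 * d^m * g - (g * (d^5 * d^m) + (((m+5 : ℕ) : 𝕜)) • (ad d g * (d^4 * d^m))
      + (((m+5).choose 2 : ℕ) : 𝕜) • (ad d (ad d g) * (d^3 * d^m))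
      + (((m+5).choose 3 : ℕ) : 𝕜) • (ad d (ad d (ad d g)) * (d^2 * d^m))) ∈ Fil G d (m+2) := by
  have h := expand_top (𝕜 := 𝕜) hd 3 (m+2) hg
  simp only [Finset.sum_range_succ, Finset.sum_range_zero, zero_add, Function.iterate_succ,
    Function.iterate_zero, Function.comp, id, Nat.choose_zero_right, Nat.cast_one, one_smul,
    Nat.choose_one_right] at h
  convert h using 1
  simp only [← pow_add]
  ring_nf

lemma exp2 (m : ℕ) {g : O} (hg : g ∈ G) :
    d^3 * d^m * g - (g * (d^3 * d^m) + (((m+3 : ℕ) : 𝕜)) • (ad d g * (d^2 * d^m))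
      + (((m+3).choose 2 : ℕ) : 𝕜) • (ad d (ad d g) * (d * d^m))) ∈ Fil G d (m+1) := by
  have h := expand_top (𝕜 := 𝕜) hd 2 (m+1) hg
  simp only [Finset.sum_range_succ, Finset.sum_range_zero, zero_add, Function.iterate_succ,
    Function.iterate_zero, Function.comp, id, Nat.choose_zero_right, Nat.cast_one, one_smul,
    Nat.choose_one_right] at h
  convert h using 1
  simp only [← pow_add, ← pow_succ']
  ring_nf

lemma exp1 (m : ℕ) {g : O} (hg : g ∈ G) :
    d^3 * d^m * g - (g * (d^3 * d^m) + (((m+3 : ℕ) : 𝕜)) • (ad d g * (d^2 * d^m))) ∈ Fil G d (m+2) := by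
  have h := expand_top (𝕜 := 𝕜) hd 1 (m+2) hg
  simp only [Finset.sum_range_succ, Finset.sum_range_zero, zero_add, Function.iterate_succ,
    Function.iterate_zero, Function.comp, id, Nat.choose_zero_right, Nat.cast_one, one_smul,
    Nat.choose_one_right] at h
  convert h using 1
  simp only [← pow_add]
  ring_nf

lemma exp1' (m : ℕ) {g : O} (hg : g ∈ G) :
    d^2 * d^m * g - (g * (d^2 * d^m) + (((m+2 : ℕ) : 𝕜)) • (ad d g * (d * d^m))) ∈ Fil G d (m+1) := by
  have h := expand_top (𝕜 := 𝕜) hd 1 (m+1) hg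
  simp only [Finset.sum_range_succ, Finset.sum_range_zero, zero_add, Function.iterate_succ,
    Function.iterate_zero, Function.comp, id, Nat.choose_zero_right, Nat.cast_one, one_smul,
    Nat.choose_one_right] at h
  convert h using 1
  simp only [← pow_add, ← pow_succ']
  ring_nf

lemma exp0 (m : ℕ) {g : O} (hg : g ∈ G) : d^m * g - g * d^m ∈ Fil G d m := by
  have h := expand_top (𝕜 := 𝕜) hd 0 m hg
  simpa using h

end Master

end Pool.Agent.H99.TJ
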