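import Pool.Agent.H99.TJ.Coef2

namespace Pool.Agent.H99.TJ

set_option linter.unusedSectionVars false
set_option linter.unusedSimpArgs false

section Stage

variable {𝕜 : Type*} [Field 𝕜] [CharZero 𝕜] {O : Type*} [Ring O] [Algebra 𝕜 O]

/-- final algebra for the coefficient of weight five -/
lemma final_alg (d a B Θ l5 : O) (n c3 c4 : 𝕜) :
    let c : 𝕜 := n / 3
    let κ : 𝕜 := n * (n - 3) / 6
    let c2 : 𝕜 := n * (n - 1) / 2
    let l2 : O := c • a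
    let l3 : O := c • B + κ • ad d a
    let l4 : O := (c/3) • Θ - ad d l3 - (1/3 : 𝕜) • ad d (ad d l2) + (κ/3) • (a * a) + (c3/3) • ad d (ad d a)
      + (c2/3) • ad d B
    ((3:𝕜) • ad d l5 + (3:𝕜) • ad d (ad d l4) + ad d (ad d (ad d l3)) + (a * l4 - l4 * a)
        + a * ad d l3 - (n-3) • (l3 * ad d a) - ((n-2)*(n-3)/2) • (l2 * ad d (ad d a)) - c4 • ad d (ad d (ad d (ad d a)))
        + (B * l3 - l3 * B) - (n-2) • (l2 * ad d B) - c3 • ad d (ad d (ad d B))) - κ • ad d (ad d Θ)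
      - (c/3) • (a * Θ - Θ * a)
    = ad d ((3:𝕜) • l5 + (3:𝕜) • ad d l4 + ad d (ad d l3) - (c/3 - c3/3 + κ) • (a * ad d a - ad d a * a)
        - κ • (B * a + a * B) - ((n-3)*κ) • (a * ad d a)
        - c4 • ad d (ad d (ad d a)) - c3 • ad d (ad d B) - κ • ad d Θ) := by
  intro c κ c2 l2 l3 l4
  simp only [l4, l3, l2, c2, κ, c]
  simp only [ad, mul_sub, sub_mul, mul_add, add_mul, mul_assoc, smul_sub, smul_add, mul_smul_comm,
    smul_mul_assoc]
  module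

/-- algebra for the coefficient of weight four -/
lemma theta_alg (d a B l4 : O) (n c3 : 𝕜) :
    let c : 𝕜 := n / 3
    let κ : 𝕜 := n * (n - 3) / 6
    let c2 : 𝕜 := n * (n - 1) / 2
    let l2 : O := c • a
    let l3 : O := c • B + κ • ad d a
    (3:𝕜) • ad d l4 + (3:𝕜) • ad d (ad d l3) + ad d (ad d (ad d l2)) + (a * l3 - l3 * a) + a * ad d l2
        - (n-2) • (l2 * ad d a) - c3 • ad d (ad d (ad d a)) + (B * l2 - l2 * B) - c2 • ad d (ad d B)
    = ad d ((3:𝕜) • l4 + (3:𝕜) • ad d l3 + ad d (ad d l2) - κ • (a * a) - c3 • ad d (ad d a)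
        - c2 • ad d B) := by
  intro c κ c2 l2 l3
  simp only [l3, l2, c2, κ, c]
  simp only [ad, mul_sub, sub_mul, mul_add, add_mul, mul_assoc, smul_sub, smul_add, mul_smul_comm,
    smul_mul_assoc]
  module

variable {G : Subalgebra 𝕜 O} {d : O} (hd : ∀ g ∈ G, ad d g ∈ G)
  (free : ∀ (M : ℕ) (f : ℕ → O), (∀ k, f k ∈ G) →
    ∑ k ∈ Finset.range M, f k * d ^ k = 0 → ∀ k < M, f k = 0)

lemma ad_zero_left' (x : O) : ad (0:O) x = 0 := by simp [ad]

include hd free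

/-- the four leading coefficients of the commutator vanish -/
lemma stage3_coefs {m : ℕ} (hm : 1 ≤ m) {a B l2 l3 l4 l5 rest δ : O} (ha : a ∈ G) (hB : B ∈ G)
    (h2 : l2 ∈ G) (h3 : l3 ∈ G) (h4 : l4 ∈ G) (h5 : l5 ∈ G) (hr : rest ∈ Fil G d m)
    (hδ : ad δ d = 0) (hδG : ∀ g ∈ G, ad δ g ∈ G)
    (hc : ad (δ - (d^3 + a * d + B)) (d^5 * d^m + l2 * (d^3 * d^m) + l3 * (d^2 * d^m) + l4 * (d * d^m)
      + l5 * d^m + rest) ∈ Fil G d 3) :
    let c1 : 𝕜 := ((m+5 : ℕ) : 𝕜)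
    let c2 : 𝕜 := (((m+5).choose 2 : ℕ) : 𝕜)
    let c3 : 𝕜 := (((m+5).choose 3 : ℕ) : 𝕜)
    let c4 : 𝕜 := (((m+5).choose 4 : ℕ) : 𝕜)
    let c5 : 𝕜 := ((m+3 : ℕ) : 𝕜)
    let c6 : 𝕜 := (((m+3).choose 2 : ℕ) : 𝕜)
    let c7 : 𝕜 := ((m+2 : ℕ) : 𝕜)
    (-((3:𝕜) • ad d l2 - c1 • ad d a)) = 0 ∧
    (-((3:𝕜) • ad d l3 + (3:𝕜) • ad d (ad d l2) + (a * l2 - l2 * a) - c2 • ad d (ad d a) - c1 • ad d B)) = 0 ∧
    (ad δ l2 - ((3:𝕜) • ad d l4 + (3:𝕜) • ad d (ad d l3) + ad d (ad d (ad d l2)) + (a * l3 - l3 * a) + a * ad d l2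
        - c5 • (l2 * ad d a) - c3 • ad d (ad d (ad d a)) + (B * l2 - l2 * B) - c2 • ad d (ad d B))) = 0 ∧
    (ad δ l3 - ((3:𝕜) • ad d l5 + (3:𝕜) • ad d (ad d l4) + ad d (ad d (ad d l3)) + (a * l4 - l4 * a)
        + a * ad d l3 - c7 • (l3 * ad d a) - c6 • (l2 * ad d (ad d a)) - c4 • ad d (ad d (ad d (ad d a)))
        + (B * l3 - l3 * B) - c5 • (l2 * ad d B) - c3 • ad d (ad d (ad d B)))) = 0 := by
  intro c1 c2 c3 c4 c5 c6 c7
  have hδd : δ * d = d * δ := sub_eq_zero.1 hδ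
  have hδD : δ * d^m = d^m * δ := (Commute.pow_right hδd m)
  have hD : d^m * d = d * d^m := by rw [← pow_succ, pow_succ']
  have hM := master d (d^m) a B l2 l3 l4 l5 δ rest c1 c2 c3 c4 c5 c6 c7 hD hδd hδD
  rw [hM] at hc
  have hc' := Fil_mono (G := G) (d := d) (show 3 ≤ m+2 by omega) hc
  have hadm : ∀ {g : O}, g ∈ G → ad d g ∈ G := fun {g} hg => hd g hg
  set e5 : O := (-((3:𝕜) • ad d l2 - c1 • ad d a)) with he5
  set e4 : O := (-((3:𝕜) • ad d l3 + (3:𝕜) • ad d (ad d l2) + (a * l2 - l2 * a) - c2 • ad d (ad d a) - c1 • ad d B)) with he4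
  set e3 : O := (ad δ l2 - ((3:𝕜) • ad d l4 + (3:𝕜) • ad d (ad d l3) + ad d (ad d (ad d l2)) + (a * l3 - l3 * a) + a * ad d l2
        - c5 • (l2 * ad d a) - c3 • ad d (ad d (ad d a)) + (B * l2 - l2 * B) - c2 • ad d (ad d B))) with he3
  set e2 : O := (ad δ l3 - ((3:𝕜) • ad d l5 + (3:𝕜) • ad d (ad d l4) + ad d (ad d (ad d l3)) + (a * l4 - l4 * a)
        + a * ad d l3 - c7 • (l3 * ad d a) - c6 • (l2 * ad d (ad d a)) - c4 • ad d (ad d (ad d (ad d a)))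
        + (B * l3 - l3 * B) - c5 • (l2 * ad d B) - c3 • ad d (ad d (ad d B)))) with he2
  have hG5 : e5 ∈ G := by
    rw [he5]
    exact G.neg_mem (G.sub_mem (G.smul_mem (hadm h2) _) (G.smul_mem (hadm ha) _))
  have hG4 : e4 ∈ G := by
    rw [he4]
    exact G.neg_mem (G.sub_mem (G.sub_mem (G.add_mem (G.add_mem (G.smul_mem (hadm h3) _)
      (G.smul_mem (hadm (hadm h2)) _)) (G.sub_mem (G.mul_mem ha h2) (G.mul_mem h2 ha)))
      (G.smul_mem (hadm (hadm ha)) _)) (G.smul_mem (hadm hB) _))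
  have hG3 : e3 ∈ G := by
    rw [he3]
    exact G.sub_mem (hδG _ h2) (G.sub_mem (G.add_mem (G.sub_mem (G.sub_mem (G.add_mem (G.add_mem
      (G.add_mem (G.add_mem (G.smul_mem (hadm h4) _) (G.smul_mem (hadm (hadm h3)) _))
      (hadm (hadm (hadm h2)))) (G.sub_mem (G.mul_mem ha h3) (G.mul_mem h3 ha)))
      (G.mul_mem ha (hadm h2))) (G.smul_mem (G.mul_mem h2 (hadm ha)) _))
      (G.smul_mem (hadm (hadm (hadm ha))) _)) (G.sub_mem (G.mul_mem hB h2) (G.mul_mem h2 hB)))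
      (G.smul_mem (hadm (hadm hB)) _))
  have hG2 : e2 ∈ G := by
    rw [he2]
    exact G.sub_mem (hδG _ h3) (G.sub_mem (G.sub_mem (G.add_mem (G.sub_mem (G.sub_mem (G.sub_mem
      (G.add_mem (G.add_mem (G.add_mem (G.add_mem (G.smul_mem (hadm h5) _)
      (G.smul_mem (hadm (hadm h4)) _)) (hadm (hadm (hadm h3))))
      (G.sub_mem (G.mul_mem ha h4) (G.mul_mem h4 ha))) (G.mul_mem ha (hadm h3)))
      (G.smul_mem (G.mul_mem h3 (hadm ha)) _)) (G.smul_mem (G.mul_mem h2 (hadm (hadm ha))) _))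
      (G.smul_mem (hadm (hadm (hadm (hadm ha)))) _)) (G.sub_mem (G.mul_mem hB h3) (G.mul_mem h3 hB)))
      (G.smul_mem (G.mul_mem h2 (hadm hB)) _)) (G.smul_mem (hadm (hadm (hadm hB))) _))
  -- the remainder
  have hS1 : ∀ {x : O}, x ∈ Fil G d (m+1) → x ∈ Fil G d (m+2) := fun hx => Fil_mono (by omega) hx
  have hS0 : ∀ {x : O}, x ∈ Fil G d m → x ∈ Fil G d (m+2) := fun hx => Fil_mono (by omega) hx
  have hm1 : ∀ {g : O}, g ∈ G → g * (d * d^m) ∈ Fil G d (m+2) := by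
    intro g hg; rw [← pow_succ']; exact mem_Fil hg (by omega)
  have hm0 : ∀ {g : O}, g ∈ G → g * d^m ∈ Fil G d (m+2) := fun hg => mem_Fil hg (by omega)
  have hone : (1 : O) ∈ G := G.one_mem
  have hDm : d^m ∈ Fil G d (m+1) := by
    have := mem_Fil (d := d) hone (show m < m+1 by omega)
    rwa [one_mul] at this
  have hdDm : d * d^m ∈ Fil G d (m+2) := by
    have := mem_Fil (d := d) hone (show m + 1 < m+2 by omega)
    rwa [one_mul, pow_succ'] at this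
  have hR : (ad δ l4 * (d * d^m) + ad δ l5 * d^m + ad δ rest
      - (ad d (ad d (ad d l4)) * (d * d^m) + (3:𝕜) • (ad d (ad d l5) * (d * d^m)) + ad d (ad d (ad d l5)) * d^m
        - (d^5 * d^m * a - (a * (d^5 * d^m) + c1 • (ad d a * (d^4 * d^m)) + c2 • (ad d (ad d a) * (d^3 * d^m))
            + c3 • (ad d (ad d (ad d a)) * (d^2 * d^m)) + c4 • (ad d (ad d (ad d (ad d a))) * (d * d^m)))) * d
        - l2 * (d^3 * d^m * a - (a * (d^3 * d^m) + c5 • (ad d a * (d^2 * d^m)) + c6 • (ad d (ad d a) * (d * d^m)))) * d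
        - l3 * (d^2 * d^m * a - (a * (d^2 * d^m) + c7 • (ad d a * (d * d^m)))) * d
        + a * ad d l4 * (d * d^m) - l4 * (d * d^m * a - a * (d * d^m)) * d
        + a * l5 * (d * d^m) + a * ad d l5 * d^m - l5 * (d^m * a) * d
        - (d^5 * d^m * B - (B * (d^5 * d^m) + c1 • (ad d B * (d^4 * d^m)) + c2 • (ad d (ad d B) * (d^3 * d^m))
            + c3 • (ad d (ad d (ad d B)) * (d^2 * d^m))))
        - l2 * (d^3 * d^m * B - (B * (d^3 * d^m) + c5 • (ad d B * (d^2 * d^m))))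
        - l3 * (d^2 * d^m * B - B * (d^2 * d^m))
        + B * l4 * (d * d^m) - l4 * (d * d^m * B) + B * l5 * d^m - l5 * (d^m * B))
      - ad (d^3 + a * d + B) rest) ∈ Fil G d (m+2) := by
    have t1 := hm1 (hδG _ h4)
    have t2 := hm0 (hδG _ h5)
    have hρ0 : ad δ d ∈ G := by rw [hδ]; exact G.zero_mem
    have t3 := hS0 (Dt_Fil (𝕜 := 𝕜) hd hρ0 hδG hr)
    have t4 := hm1 (hadm (hadm (hadm h4)))
    have t5 := (Fil G d (m+2)).smul_mem (3:𝕜) (hm1 (hadm (hadm h5)))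
    have t6 := hm0 (hadm (hadm (hadm h5)))
    have t7 := Fil_d (exp4 (𝕜 := 𝕜) hd m ha)
    have t8 := Fil_d (G_Fil h2 (exp2 (𝕜 := 𝕜) hd m ha))
    have t9 := Fil_d (G_Fil h3 (exp1' (𝕜 := 𝕜) hd m ha))
    have t10 := hm1 (G.mul_mem ha (hadm h4))
    have t11 : l4 * (d * d^m * a - a * (d * d^m)) * d ∈ Fil G d (m+2) := by
      have := exp0 (𝕜 := 𝕜) hd (m+1) ha
      rw [pow_succ'] at this
      exact Fil_d (G_Fil h4 this)
    have t12 := hm1 (G.mul_mem ha h5)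
    have t13 := hm0 (G.mul_mem ha (hadm h5))
    have t14 := Fil_d (G_Fil h5 (Fil_G hd ha hDm))
    have t15 := exp3 (𝕜 := 𝕜) hd m hB
    have t16 := G_Fil h2 (exp1 (𝕜 := 𝕜) hd m hB)
    have t17 : l3 * (d^2 * d^m * B - B * (d^2 * d^m)) ∈ Fil G d (m+2) := by
      have := exp0 (𝕜 := 𝕜) hd (m+2) hB
      rw [show m + 2 = 2 + m by ring, pow_add] at this
      rw [show 2 + m = m + 2 by ring] at this
      exact G_Fil h3 this
    have t18 := hm1 (G.mul_mem hB h4)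
    have t19 := G_Fil h4 (Fil_G hd hB hdDm)
    have t20 := hm0 (G.mul_mem hB h5)
    have t21 := G_Fil h5 (hS1 (Fil_G hd hB hDm))
    have t22 := ad_N_Fil (𝕜 := 𝕜) hd ha hB hr
    refine (Fil G d (m+2)).sub_mem ((Fil G d (m+2)).sub_mem ((Fil G d (m+2)).add_mem
      ((Fil G d (m+2)).add_mem t1 t2) t3) ?_) t22
    refine (Fil G d (m+2)).sub_mem ((Fil G d (m+2)).add_mem ((Fil G d (m+2)).sub_mem
      ((Fil G d (m+2)).add_mem ((Fil G d (m+2)).sub_mem ((Fil G d (m+2)).sub_mem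
      ((Fil G d (m+2)).sub_mem ((Fil G d (m+2)).sub_mem ((Fil G d (m+2)).add_mem
      ((Fil G d (m+2)).add_mem ((Fil G d (m+2)).sub_mem ((Fil G d (m+2)).add_mem
      ((Fil G d (m+2)).sub_mem ((Fil G d (m+2)).sub_mem ((Fil G d (m+2)).sub_mem
      ((Fil G d (m+2)).add_mem ((Fil G d (m+2)).add_mem t4 t5) t6) t7) t8) t9) t10) t11) t12) t13)
      t14) t15) t16) t17) t18) t19) t20) t21
  set Rm := (ad δ l4 * (d * d^m) + ad δ l5 * d^m + ad δ rest
      - (ad d (ad d (ad d l4)) * (d * d^m) + (3:𝕜) • (ad d (ad d l5) * (d * d^m)) + ad d (ad d (ad d l5)) * d^m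
        - (d^5 * d^m * a - (a * (d^5 * d^m) + c1 • (ad d a * (d^4 * d^m)) + c2 • (ad d (ad d a) * (d^3 * d^m))
            + c3 • (ad d (ad d (ad d a)) * (d^2 * d^m)) + c4 • (ad d (ad d (ad d (ad d a))) * (d * d^m)))) * d
        - l2 * (d^3 * d^m * a - (a * (d^3 * d^m) + c5 • (ad d a * (d^2 * d^m)) + c6 • (ad d (ad d a) * (d * d^m)))) * d
        - l3 * (d^2 * d^m * a - (a * (d^2 * d^m) + c7 • (ad d a * (d * d^m)))) * d
        + a * ad d l4 * (d * d^m) - l4 * (d * d^m * a - a * (d * d^m)) * d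
        + a * l5 * (d * d^m) + a * ad d l5 * d^m - l5 * (d^m * a) * d
        - (d^5 * d^m * B - (B * (d^5 * d^m) + c1 • (ad d B * (d^4 * d^m)) + c2 • (ad d (ad d B) * (d^3 * d^m))
            + c3 • (ad d (ad d (ad d B)) * (d^2 * d^m))))
        - l2 * (d^3 * d^m * B - (B * (d^3 * d^m) + c5 • (ad d B * (d^2 * d^m))))
        - l3 * (d^2 * d^m * B - B * (d^2 * d^m))
        + B * l4 * (d * d^m) - l4 * (d * d^m * B) + B * l5 * d^m - l5 * (d^m * B))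
      - ad (d^3 + a * d + B) rest) with hRm
  rw [← pow_add, ← pow_add, ← pow_add, ← pow_add, show 5 + m = m + 5 by ring,
    show 4 + m = m + 4 by ring, show 3 + m = m + 3 by ring, show 2 + m = m + 2 by ring] at hc'
  have m4 : e4 * d^(m+4) ∈ Fil G d (m+5) := mem_Fil hG4 (by omega)
  have m3 : e3 * d^(m+3) ∈ Fil G d (m+4) := mem_Fil hG3 (by omega)
  have m2 : e2 * d^(m+2) ∈ Fil G d (m+3) := mem_Fil hG2 (by omega)
  have z5 : e5 = 0 := by
    apply ext_mem free hG5 (k := m+5)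
    have : e5 * d^(m+5) = (e5 * d^(m+5) + e4 * d^(m+4) + e3 * d^(m+3) + e2 * d^(m+2) + Rm)
      - e4 * d^(m+4) - e3 * d^(m+3) - e2 * d^(m+2) - Rm := by abel
    rw [this]
    exact (Fil G d (m+5)).sub_mem ((Fil G d (m+5)).sub_mem ((Fil G d (m+5)).sub_mem
      ((Fil G d (m+5)).sub_mem (Fil_mono (by omega) hc') m4) (Fil_mono (by omega) m3))
      (Fil_mono (by omega) m2)) (Fil_mono (by omega) hR)
  rw [z5, zero_mul, zero_add] at hc'
  have z4 : e4 = 0 := by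
    apply ext_mem free hG4 (k := m+4)
    have : e4 * d^(m+4) = (e4 * d^(m+4) + e3 * d^(m+3) + e2 * d^(m+2) + Rm)
      - e3 * d^(m+3) - e2 * d^(m+2) - Rm := by abel
    rw [this]
    exact (Fil G d (m+4)).sub_mem ((Fil G d (m+4)).sub_mem
      ((Fil G d (m+4)).sub_mem (Fil_mono (by omega) hc') m3)
      (Fil_mono (by omega) m2)) (Fil_mono (by omega) hR)
  rw [z4, zero_mul, zero_add] at hc'
  have z3 : e3 = 0 := by
    apply ext_mem free hG3 (k := m+3)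
    have : e3 * d^(m+3) = (e3 * d^(m+3) + e2 * d^(m+2) + Rm) - e2 * d^(m+2) - Rm := by abel
    rw [this]
    exact (Fil G d (m+3)).sub_mem
      ((Fil G d (m+3)).sub_mem (Fil_mono (by omega) hc') m2) (Fil_mono (by omega) hR)
  rw [z3, zero_mul, zero_add] at hc'
  have z2 : e2 = 0 := by
    apply ext_mem free hG2 (k := m+2)
    have : e2 * d^(m+2) = (e2 * d^(m+2) + Rm) - Rm := by abel
    rw [this]
    exact (Fil G d (m+2)).sub_mem hc' hR
  exact ⟨z5, z4, z3, z2⟩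

theorem stage3 {Z : Submodule 𝕜 O} (hZd : ∀ g ∈ G, ad d g ∈ Z)
    (hZc : ∀ g ∈ G, g ∈ Z → ad d g = 0 → g = 0)
    {m : ℕ} (hm : 1 ≤ m) {a B l2 l3 l4 l5 rest δ : O} (ha : a ∈ G) (hB : B ∈ G)
    (h2 : l2 ∈ G) (h3 : l3 ∈ G) (h4 : l4 ∈ G) (h5 : l5 ∈ G) (hr : rest ∈ Fil G d m)
    (haZ : a ∈ Z) (hBZ : B ∈ Z) (h2Z : l2 ∈ Z) (h3Z : l3 ∈ Z)
    (hδ : ad δ d = 0) (hδG : ∀ g ∈ G, ad δ g ∈ G)
    (hc : ad (δ - (d^3 + a * d + B)) (d^5 * d^m + l2 * (d^3 * d^m) + l3 * (d^2 * d^m) + l4 * (d * d^m)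
      + l5 * d^m + rest) ∈ Fil G d 3) :
    ∃ Θ ∈ G, ad δ a = ad d Θ ∧ ∃ Y ∈ G, ad δ B - (1/3 : 𝕜) • (a * Θ - Θ * a) = ad d Y := by
  obtain ⟨z5, z4, z3, z2⟩ := stage3_coefs hd free hm ha hB h2 h3 h4 h5 hr hδ hδG hc
  set n : 𝕜 := ((m+5 : ℕ) : 𝕜) with hn
  have hn0 : n ≠ 0 := by rw [hn]; exact_mod_cast (by omega : m + 5 ≠ 0)
  have e2 : (((m+5).choose 2 : ℕ) : 𝕜) = n * (n - 1) / 2 := by
    rw [Nat.cast_choose_two]
  have e5 : ((m+3 : ℕ) : 𝕜) = n - 2 := by rw [hn]; push_cast; ring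
  have e6 : (((m+3).choose 2 : ℕ) : 𝕜) = (n-2)*(n-3)/2 := by
    rw [Nat.cast_choose_two, hn]; push_cast; ring
  have e7 : ((m+2 : ℕ) : 𝕜) = n - 3 := by rw [hn]; push_cast; ring
  rw [e2] at z4 z3
  rw [e5] at z3 z2
  rw [e6, e7] at z2
  set c3 : 𝕜 := (((m+5).choose 3 : ℕ) : 𝕜)
  set c4 : 𝕜 := (((m+5).choose 4 : ℕ) : 𝕜)
  have hadm : ∀ {g : O}, g ∈ G → ad d g ∈ G := fun {g} hg => hd g hg
  -- l2
  have k2 : l2 = (n/3) • a := by
    have h : (3:𝕜) • l2 - n • a = 0 := by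
      apply hZc _ (G.sub_mem (G.smul_mem h2 _) (G.smul_mem ha _))
        (Z.sub_mem (Z.smul_mem _ h2Z) (Z.smul_mem _ haZ))
      rw [ad_sub, ad_smul, ad_smul]
      exact neg_eq_zero.1 z5
    have h' : (3:𝕜) • l2 = n • a := sub_eq_zero.1 h
    calc l2 = (1/3 : 𝕜) • ((3:𝕜) • l2) := by rw [smul_smul]; norm_num
      _ = (n/3) • a := by rw [h', smul_smul]; congr 1; ring
  subst k2
  have k3 : l3 = (n/3) • B + (n * (n-3)/6) • ad d a := by
    have h : (3:𝕜) • l3 - n • B - (n * (n-3)/2) • ad d a = 0 := by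
      apply hZc _ (G.sub_mem (G.sub_mem (G.smul_mem h3 _) (G.smul_mem hB _)) (G.smul_mem (hadm ha) _))
        (Z.sub_mem (Z.sub_mem (Z.smul_mem _ h3Z) (Z.smul_mem _ hBZ)) (Z.smul_mem _ (hZd _ ha)))
      rw [ad_sub, ad_sub, ad_smul, ad_smul, ad_smul]
      have z4' := neg_eq_zero.1 z4
      rw [ad_smul, ad_smul] at z4'
      have : a * (n / 3) • a - (n / 3) • a * a = 0 := by
        rw [mul_smul_comm, smul_mul_assoc, sub_self]
      rw [this] at z4'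
      rw [← z4']
      module
    have h' : (3:𝕜) • l3 = n • B + (n * (n-3)/2) • ad d a := by
      rw [← sub_eq_zero, ← h]; abel
    calc l3 = (1/3 : 𝕜) • ((3:𝕜) • l3) := by rw [smul_smul]; norm_num
      _ = (n/3) • B + (n * (n-3)/6) • ad d a := by rw [h']; module
  subst k3
  -- theta
  have hθ := theta_alg d a B l4 n c3
  simp only at hθ
  rw [hθ, ad_smul] at z3
  set θ0 : O := (3:𝕜) • l4 + (3:𝕜) • ad d ((n / 3) • B + (n * (n - 3) / 6) • ad d a)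
    + ad d (ad d ((n / 3) • a)) - (n * (n - 3) / 6) • (a * a) - c3 • ad d (ad d a)
    - (n * (n - 1) / 2) • ad d B with hθ0
  have hθG : θ0 ∈ G := by
    rw [hθ0]
    exact G.sub_mem (G.sub_mem (G.sub_mem (G.add_mem (G.add_mem (G.smul_mem h4 _)
      (G.smul_mem (hadm (G.add_mem (G.smul_mem hB _) (G.smul_mem (hadm ha) _))) _))
      (hadm (hadm (G.smul_mem ha _)))) (G.smul_mem (G.mul_mem ha ha) _))
      (G.smul_mem (hadm (hadm ha)) _)) (G.smul_mem (hadm hB) _)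
  have hΘ1 : ad δ a = ad d ((3/n) • θ0) := by
    rw [ad_smul, ← sub_eq_zero.1 z3, smul_smul]
    have : 3 / n * (n/3) = 1 := by field_simp
    rw [this, one_smul]
  refine ⟨(3/n) • θ0, G.smul_mem hθG _, hΘ1, ?_⟩
  set Θ : O := (3/n) • θ0 with hΘ
  have hΘG : Θ ∈ G := G.smul_mem hθG _
  have hθΘ : θ0 = (n/3) • Θ := by
    rw [hΘ, smul_smul]
    have : n/3 * (3 / n) = 1 := by field_simp
    rw [this, one_smul]
  have k4 : l4 = (n/3/3) • Θ - ad d ((n / 3) • B + (n * (n - 3) / 6) • ad d a)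
      - (1/3 : 𝕜) • ad d (ad d ((n/3) • a)) + (n * (n - 3) / 6/3) • (a * a)
      + (c3/3) • ad d (ad d a) + (n * (n - 1) / 2/3) • ad d B := by
    have h : (3:𝕜) • l4 = (n/3) • Θ - (3:𝕜) • ad d ((n / 3) • B + (n * (n - 3) / 6) • ad d a)
      - ad d (ad d ((n / 3) • a)) + (n * (n - 3) / 6) • (a * a) + c3 • ad d (ad d a)
      + (n * (n - 1) / 2) • ad d B := by
      rw [← hθΘ, hθ0]; abel
    calc l4 = (1/3 : 𝕜) • ((3:𝕜) • l4) := by rw [smul_smul]; norm_num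
      _ = _ := by rw [h]; module
  have hfin := final_alg d a B Θ l5 n c3 c4
  simp only at hfin
  rw [← k4] at hfin
  have hswap : ad δ (ad d a) = ad d (ad d Θ) := by
    rw [← hΘ1]
    have hδd : δ * d = d * δ := sub_eq_zero.1 hδ
    unfold ad
    rw [mul_sub, sub_mul, mul_sub, sub_mul, ← mul_assoc δ d, ← mul_assoc d δ, hδd,
      mul_assoc a δ d, hδd, mul_assoc d a δ, ← mul_assoc a d δ]
    noncomm_ring
  rw [ad_add, ad_smul, ad_smul, hswap, sub_eq_zero] at z2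
  set Y0 : O := (3:𝕜) • l5 + (3:𝕜) • ad d l4 + ad d (ad d ((n / 3) • B + (n * (n - 3) / 6) • ad d a))
    - (n / 3 / 3 - c3 / 3 + n * (n - 3) / 6) • (a * ad d a - ad d a * a)
    - (n * (n - 3) / 6) • (B * a + a * B) - ((n - 3) * (n * (n - 3) / 6)) • (a * ad d a)
    - c4 • ad d (ad d (ad d a)) - c3 • ad d (ad d B) - (n * (n - 3) / 6) • ad d Θ with hY0
  have hY0G : Y0 ∈ G := by
    rw [hY0]
    exact G.sub_mem (G.sub_mem (G.sub_mem (G.sub_mem (G.sub_mem (G.sub_mem (G.add_mem (G.add_mem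
      (G.smul_mem h5 _) (G.smul_mem (hadm h4) _))
      (hadm (hadm (G.add_mem (G.smul_mem hB _) (G.smul_mem (hadm ha) _)))))
      (G.smul_mem (G.sub_mem (G.mul_mem ha (hadm ha)) (G.mul_mem (hadm ha) ha)) _))
      (G.smul_mem (G.add_mem (G.mul_mem hB ha) (G.mul_mem ha hB)) _))
      (G.smul_mem (G.mul_mem ha (hadm ha)) _)) (G.smul_mem (hadm (hadm (hadm ha))) _))
      (G.smul_mem (hadm (hadm hB)) _)) (G.smul_mem (hadm hΘG) _)
  refine ⟨(3/n) • Y0, G.smul_mem hY0G _, ?_⟩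
  rw [ad_smul, ← hfin, ← z2]
  have h3n : 3 / n * (n/3) = 1 := by field_simp
  have h3n' : 3 / n * (n/3/3) = 1/3 := by field_simp
  have key : ∀ X W : O, (n / 3) • ad δ B + (n * (n - 3) / 6) • X - (n * (n - 3) / 6) • X
      - (n/3/3) • W = (n/3) • ad δ B - (n/3/3) • W := by
    intro X W; abel
  rw [key, smul_sub (3/n), smul_smul, smul_smul, h3n, h3n', one_smul]

/-- the subleading coefficient vanishes -/
theorem stage1 {Z : Submodule 𝕜 O} (hZc : ∀ g ∈ G, g ∈ Z → ad d g = 0 → g = 0)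
    {m : ℕ} {a b l1 X Dt : O} (ha : a ∈ G) (hb : b ∈ G)
    (h1 : l1 ∈ G) (hX : X ∈ Fil G d (m+4)) (h1Z : l1 ∈ Z)
    (hρ : ad Dt d ∈ G) (hDt : ∀ g ∈ G, ad Dt g ∈ G)
    (hc : ad (Dt - (d^3 + a * d + b)) (d^(m+5) + l1 * d^(m+4) + X) ∈ Fil G d 3) :
    l1 = 0 := by
  have hadm : ∀ {g : O}, g ∈ G → ad d g ∈ G := fun {g} hg => hd g hg
  have hone : (1 : O) ∈ G := G.one_mem
  have m5 : d^(m+5) ∈ Fil G d (m+6) := by
    have := mem_Fil (d := d) hone (show m+5 < m+6 by omega); rwa [one_mul] at this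
  have m4 : l1 * d^(m+4) ∈ Fil G d (m+5) := mem_Fil h1 (by omega)
  have hL : d^(m+5) + l1 * d^(m+4) + X ∈ Fil G d (m+6) :=
    (Fil G d (m+6)).add_mem ((Fil G d (m+6)).add_mem m5 (Fil_mono (by omega) m4))
      (Fil_mono (by omega) hX)
  have hY : l1 * d^(m+4) + X ∈ Fil G d (m+5) := (Fil G d (m+5)).add_mem m4 (Fil_mono (by omega) hX)
  have key : (3:𝕜) • (ad d l1 * d^(m+6)) = ad Dt (d^(m+5) + l1 * d^(m+4) + X)
      - ad (Dt - (d^3 + a * d + b)) (d^(m+5) + l1 * d^(m+4) + X)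
      - ((a * d^(m+5) - d^(m+5) * a) * d + (b * d^(m+5) - d^(m+5) * b))
      - (a * (d * (l1 * d^(m+4) + X)) - ((l1 * d^(m+4) + X) * a) * d + (b * (l1 * d^(m+4) + X)
        - (l1 * d^(m+4) + X) * b))
      - (d^3 * X - X * d^3)
      - ((3:𝕜) • (ad d (ad d l1) * d^(m+5)) + ad d (ad d (ad d l1)) * d^(m+4)) := by
    have hD : d^m * d = d * d^m := by rw [← pow_succ, pow_succ']
    have hD' : ∀ x, d^m * (d * x) = d * (d^m * x) := fun x => by rw [← mul_assoc, hD, mul_assoc]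
    rw [show m + 6 = 6 + m by ring, show m + 5 = 5 + m by ring, show m + 4 = 4 + m by ring,
      pow_add, pow_add, pow_add]
    simp only [ad, mul_sub, sub_mul, mul_add, add_mul, pow_succ, pow_zero, one_mul, mul_assoc, hD,
      hD', smul_sub, smul_add, mul_smul_comm, smul_mul_assoc]
    module
  have hmem : (3:𝕜) • (ad d l1 * d^(m+6)) ∈ Fil G d (m+6) := by
    rw [key]
    refine (Fil G d (m+6)).sub_mem ((Fil G d (m+6)).sub_mem ((Fil G d (m+6)).sub_mem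
      ((Fil G d (m+6)).sub_mem ((Fil G d (m+6)).sub_mem ?_ ?_) ?_) ?_) ?_) ?_
    · exact Dt_Fil (𝕜 := 𝕜) hd hρ hDt hL
    · exact Fil_mono (by omega) hc
    · refine (Fil G d (m+6)).add_mem (Fil_d ?_) (Fil_mono (show m+5 ≤ m+6 by omega) ?_)
      · rw [← neg_sub]; exact (Fil G d (m+5)).neg_mem (exp0 (𝕜 := 𝕜) hd (m+5) ha)
      · rw [← neg_sub]; exact (Fil G d (m+5)).neg_mem (exp0 (𝕜 := 𝕜) hd (m+5) hb)
    · refine (Fil G d (m+6)).add_mem ((Fil G d (m+6)).sub_mem (G_Fil ha (d_Fil hd hY))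
        (Fil_d (Fil_G hd ha hY))) (Fil_mono (show m+5 ≤ m+6 by omega) ?_)
      exact (Fil G d (m+5)).sub_mem (G_Fil hb hY) (Fil_G hd hb hY)
    · exact d3_Fil hd hX
    · exact (Fil G d (m+6)).add_mem ((Fil G d (m+6)).smul_mem _ (mem_Fil (hadm (hadm h1)) (by omega)))
        (mem_Fil (hadm (hadm (hadm h1))) (by omega))
  have h0 : ad d l1 * d^(m+6) ∈ Fil G d (m+6) := by
    have := (Fil G d (m+6)).smul_mem (1/3:𝕜) hmem
    rw [smul_smul] at this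
    norm_num at this
    exact this
  exact hZc _ h1 h1Z (ext_mem free (hadm h1) h0)

/-- the curvature term is a total derivative -/
theorem stage2 {Z : Submodule 𝕜 O} (hZc : ∀ g ∈ G, g ∈ Z → ad d g = 0 → g = 0)
    {m : ℕ} {a b l2 l3 l4 l5 rest Dt : O} (ha : a ∈ G) (hb : b ∈ G)
    (h2 : l2 ∈ G) (h3 : l3 ∈ G) (h4 : l4 ∈ G) (h5 : l5 ∈ G) (hr : rest ∈ Fil G d m)
    (haZ : a ∈ Z) (h2Z : l2 ∈ Z)
    (hρ : ad Dt d ∈ G) (hDt : ∀ g ∈ G, ad Dt g ∈ G)
    (hc : ad (Dt - (d^3 + a * d + b)) (d^5 * d^m + l2 * (d^3 * d^m) + l3 * (d^2 * d^m) + l4 * (d * d^m)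
      + l5 * d^m + rest) ∈ Fil G d 3) :
    ∃ Y ∈ G, ad Dt d = ad d Y := by
  have hadm : ∀ {g : O}, g ∈ G → ad d g ∈ G := fun {g} hg => hd g hg
  set n : 𝕜 := ((m+5 : ℕ) : 𝕜) with hn
  have hn0 : n ≠ 0 := by rw [hn]; exact_mod_cast (by omega : m + 5 ≠ 0)
  set c2 : 𝕜 := (((m+5).choose 2 : ℕ) : 𝕜) with hc2
  set X : O := l3 * (d^2 * d^m) + l4 * (d * d^m) + l5 * d^m + rest with hX
  have p1 : d * d^m = d^(m+1) := (pow_succ' d m).symm
  have p2 : d^2 * d^m = d^(m+2) := by rw [← pow_add, add_comm]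
  have p3 : d^3 * d^m = d^(m+3) := by rw [← pow_add, add_comm]
  have p4 : d^4 * d^m = d^(m+4) := by rw [← pow_add, add_comm]
  have p5 : d^5 * d^m = d^(m+5) := by rw [← pow_add, add_comm]
  have m3 : l2 * (d^3 * d^m) ∈ Fil G d (m+4) := by rw [p3]; exact mem_Fil h2 (by omega)
  have hX3 : l4 * (d * d^m) + l5 * d^m + rest ∈ Fil G d (m+2) := by
    rw [p1]
    exact (Fil G d (m+2)).add_mem ((Fil G d (m+2)).add_mem (mem_Fil h4 (by omega))
      (mem_Fil h5 (by omega))) (Fil_mono (by omega) hr)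
  have hXm : X ∈ Fil G d (m+3) := by
    rw [hX, p1, p2]
    exact (Fil G d (m+3)).add_mem ((Fil G d (m+3)).add_mem ((Fil G d (m+3)).add_mem
      (mem_Fil h3 (by omega)) (mem_Fil h4 (by omega))) (mem_Fil h5 (by omega)))
      (Fil_mono (by omega) hr)
  have hLX : d^5 * d^m + l2 * (d^3 * d^m) + l3 * (d^2 * d^m) + l4 * (d * d^m) + l5 * d^m + rest
      = d^5 * d^m + l2 * (d^3 * d^m) + X := by rw [hX]; abel
  rw [hLX] at hc
  -- the expansion
  have key : (-((3:𝕜) • ad d l2 - n • ad d a)) * (d^5 * d^m)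
      + (n • ad Dt d - ((3:𝕜) • ad d l3 + (3:𝕜) • ad d (ad d l2) + (a * l2 - l2 * a) - c2 • ad d (ad d a)
        - n • ad d b)) * (d^4 * d^m)
      = ad (Dt - (d^3 + a * d + b)) (d^5 * d^m + l2 * (d^3 * d^m) + X)
      - (ad Dt (d^5 * d^m) - n • (ad Dt d * (d^4 * d^m)))
      - ad Dt (l2 * (d^3 * d^m) + X)
      + (ad d (ad d (ad d l2)) * (d^3 * d^m) + (3:𝕜) • (ad d (ad d l3) * (d^3 * d^m))
        + ad d (ad d (ad d l3)) * (d^2 * d^m)
        + (d^3 * (l4 * (d * d^m) + l5 * d^m + rest) - (l4 * (d * d^m) + l5 * d^m + rest) * d^3))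
      + (a * ad d l2 * (d^3 * d^m)
        - (d^5 * d^m * a - (a * (d^5 * d^m) + n • (ad d a * (d^4 * d^m)) + c2 • (ad d (ad d a) * (d^3 * d^m)))) * d
        - c2 • (ad d (ad d a) * (d^4 * d^m)) + c2 • (ad d (ad d a) * (d^3 * d^m) * d)
        - l2 * (d^3 * d^m * a - a * (d^3 * d^m)) * d
        + (a * (d * X) - (X * a) * d))
      + (- (d^5 * d^m * b - (b * (d^5 * d^m) + n • (ad d b * (d^4 * d^m))))
        + (b * (l2 * (d^3 * d^m) + X) - (l2 * (d^3 * d^m) + X) * b)) := by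
    have hD : d^m * d = d * d^m := by rw [← pow_succ, pow_succ']
    have hD' : ∀ x, d^m * (d * x) = d * (d^m * x) := fun x => by rw [← mul_assoc, hD, mul_assoc]
    simp only [hX, ad, mul_sub, sub_mul, mul_add, add_mul, pow_succ, pow_zero, one_mul, mul_assoc, hD,
      hD', smul_sub, smul_add, mul_smul_comm, smul_mul_assoc, neg_mul, neg_sub, neg_add]
    module
  have q1 : ad Dt (d^5 * d^m) - n • (ad Dt d * (d^4 * d^m)) ∈ Fil G d (m+4) := by
    rw [p5, p4]; exact Dt_pow (𝕜 := 𝕜) hd hρ (m+4)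
  have q2 : ad Dt (l2 * (d^3 * d^m) + X) ∈ Fil G d (m+4) :=
    Dt_Fil (𝕜 := 𝕜) hd hρ hDt ((Fil G d (m+4)).add_mem m3 (Fil_mono (by omega) hXm))
  have q3 : ad d (ad d (ad d l2)) * (d^3 * d^m) + (3:𝕜) • (ad d (ad d l3) * (d^3 * d^m))
        + ad d (ad d (ad d l3)) * (d^2 * d^m)
        + (d^3 * (l4 * (d * d^m) + l5 * d^m + rest) - (l4 * (d * d^m) + l5 * d^m + rest) * d^3)
        ∈ Fil G d (m+4) := by
    refine (Fil G d (m+4)).add_mem ?_ (d3_Fil hd hX3)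
    rw [p2, p3]
    exact (Fil G d (m+4)).add_mem ((Fil G d (m+4)).add_mem (mem_Fil (hadm (hadm (hadm h2))) (by omega))
      ((Fil G d (m+4)).smul_mem _ (mem_Fil (hadm (hadm h3)) (by omega))))
      (mem_Fil (hadm (hadm (hadm h3))) (by omega))
  have ea : d^5 * d^m * a - (a * (d^5 * d^m) + n • (ad d a * (d^4 * d^m)) + c2 • (ad d (ad d a) * (d^3 * d^m)))
      ∈ Fil G d (m+3) := by
    have h := expand_top (𝕜 := 𝕜) hd 2 (m+3) ha
    simp only [Finset.sum_range_succ, Finset.sum_range_zero, zero_add, Function.iterate_succ,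
      Function.iterate_zero, Function.comp, id, Nat.choose_zero_right, Nat.cast_one, one_smul,
      Nat.choose_one_right] at h
    convert h using 1
    rw [p5, p4, p3]
  have eb : d^5 * d^m * b - (b * (d^5 * d^m) + n • (ad d b * (d^4 * d^m))) ∈ Fil G d (m+4) := by
    have h := expand_top (𝕜 := 𝕜) hd 1 (m+4) hb
    simp only [Finset.sum_range_succ, Finset.sum_range_zero, zero_add, Function.iterate_succ,
      Function.iterate_zero, Function.comp, id, Nat.choose_zero_right, Nat.cast_one, one_smul,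
      Nat.choose_one_right] at h
    convert h using 1
    rw [p5, p4]
  have e0 : l2 * (d^3 * d^m * a - a * (d^3 * d^m)) * d ∈ Fil G d (m+4) := by
    rw [p3]; exact Fil_d (G_Fil h2 (exp0 (𝕜 := 𝕜) hd (m+3) ha))
  have q4 : a * ad d l2 * (d^3 * d^m)
        - (d^5 * d^m * a - (a * (d^5 * d^m) + n • (ad d a * (d^4 * d^m)) + c2 • (ad d (ad d a) * (d^3 * d^m)))) * d
        - c2 • (ad d (ad d a) * (d^4 * d^m)) + c2 • (ad d (ad d a) * (d^3 * d^m) * d)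
        - l2 * (d^3 * d^m * a - a * (d^3 * d^m)) * d
        + (a * (d * X) - (X * a) * d) ∈ Fil G d (m+4) := by
    have hz : ∀ x y z w : O, x - y - c2 • (ad d (ad d a) * (d^4 * d^m))
        + c2 • (ad d (ad d a) * (d^3 * d^m) * d) - z + w = x - y - z + w := by
      intro x y z w
      have : ad d (ad d a) * (d^3 * d^m) * d = ad d (ad d a) * (d^4 * d^m) := by
        rw [p3, p4, mul_assoc, ← pow_succ]
      rw [this]; abel
    rw [hz]
    refine (Fil G d (m+4)).add_mem ((Fil G d (m+4)).sub_mem ((Fil G d (m+4)).sub_mem ?_ (Fil_d ea)) e0)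
      ((Fil G d (m+4)).sub_mem (G_Fil ha (d_Fil hd hXm)) (Fil_d (Fil_G hd ha hXm)))
    rw [p3]
    exact mem_Fil (G.mul_mem ha (hadm h2)) (by omega)
  have q5 : - (d^5 * d^m * b - (b * (d^5 * d^m) + n • (ad d b * (d^4 * d^m))))
        + (b * (l2 * (d^3 * d^m) + X) - (l2 * (d^3 * d^m) + X) * b) ∈ Fil G d (m+4) := by
    have h : l2 * (d^3 * d^m) + X ∈ Fil G d (m+4) :=
      (Fil G d (m+4)).add_mem m3 (Fil_mono (by omega) hXm)
    exact (Fil G d (m+4)).add_mem ((Fil G d (m+4)).neg_mem eb)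
      ((Fil G d (m+4)).sub_mem (G_Fil hb h) (Fil_G hd hb h))
  have hall := (Fil G d (m+4)).add_mem ((Fil G d (m+4)).add_mem ((Fil G d (m+4)).add_mem
    ((Fil G d (m+4)).sub_mem ((Fil G d (m+4)).sub_mem (Fil_mono (by omega) hc) q1) q2) q3) q4) q5
  rw [← key] at hall
  set e5 : O := -((3:𝕜) • ad d l2 - n • ad d a) with he5
  set e4 : O := n • ad Dt d - ((3:𝕜) • ad d l3 + (3:𝕜) • ad d (ad d l2) + (a * l2 - l2 * a)
    - c2 • ad d (ad d a) - n • ad d b) with he4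
  have hG5 : e5 ∈ G := by
    rw [he5]
    exact G.neg_mem (G.sub_mem (G.smul_mem (hadm h2) _) (G.smul_mem (hadm ha) _))
  have hG4 : e4 ∈ G := by
    rw [he4]
    exact G.sub_mem (G.smul_mem hρ _) (G.sub_mem (G.sub_mem (G.add_mem (G.add_mem (G.smul_mem (hadm h3) _)
      (G.smul_mem (hadm (hadm h2)) _)) (G.sub_mem (G.mul_mem ha h2) (G.mul_mem h2 ha)))
      (G.smul_mem (hadm (hadm ha)) _)) (G.smul_mem (hadm hb) _))
  rw [p5, p4] at hall
  have z5 : e5 = 0 := by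
    apply ext_mem free hG5 (k := m+5)
    have : e5 * d^(m+5) = (e5 * d^(m+5) + e4 * d^(m+4)) - e4 * d^(m+4) := by abel
    rw [this]
    exact (Fil G d (m+5)).sub_mem (Fil_mono (by omega) hall) (mem_Fil hG4 (by omega))
  rw [z5, zero_mul, zero_add] at hall
  have z4 : e4 = 0 := ext_mem free hG4 hall
  have k2 : l2 = (n/3) • a := by
    have h : (3:𝕜) • l2 - n • a = 0 := by
      apply hZc _ (G.sub_mem (G.smul_mem h2 _) (G.smul_mem ha _))
        (Z.sub_mem (Z.smul_mem _ h2Z) (Z.smul_mem _ haZ))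
      rw [ad_sub, ad_smul, ad_smul]
      exact neg_eq_zero.1 z5
    have h' : (3:𝕜) • l2 = n • a := sub_eq_zero.1 h
    calc l2 = (1/3 : 𝕜) • ((3:𝕜) • l2) := by rw [smul_smul]; norm_num
      _ = (n/3) • a := by rw [h', smul_smul]; congr 1; ring
  refine ⟨(1/n) • ((3:𝕜) • l3 + (3:𝕜) • ad d l2 - c2 • ad d a - n • b), ?_, ?_⟩
  · exact G.smul_mem (G.sub_mem (G.sub_mem (G.add_mem (G.smul_mem h3 _) (G.smul_mem (hadm h2) _))
      (G.smul_mem (hadm ha) _)) (G.smul_mem hb _)) _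
  · have hcomm : a * l2 - l2 * a = 0 := by
      rw [k2, mul_smul_comm, smul_mul_assoc, sub_self]
    rw [he4, hcomm, sub_eq_zero] at z4
    rw [ad_smul, ad_sub, ad_sub, ad_add, ad_smul, ad_smul, ad_smul, ad_smul]
    have : (3:𝕜) • ad d l3 + (3:𝕜) • ad d (ad d l2) - c2 • ad d (ad d a) - n • ad d b
      = n • ad Dt d := by rw [z4]; abel
    rw [this, smul_smul]
    have : 1 / n * n = 1 := by field_simp
    rw [this, one_smul]

end Stage

end Pool.Agent.H99.TJ
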