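import Pool.Agent.H99.TJ.Fields

open scoped ContDiff

namespace Pool.Agent.H99.TJ

open TopologicalSpace

/-- spaces on which endomorphisms of `E` act (as derivations of tensor spaces) -/
class Rp (𝕜 : Type*) [RCLike 𝕜] (E : Type*) [NormedAddCommGroup E] [NormedSpace 𝕜 E]
    (F : Type*) [NormedAddCommGroup F] [NormedSpace 𝕜 F] where
  /-- the action -/
  act : Hm 𝕜 E E →L[𝕜] F →L[𝕜] F

section Cov

variable {𝕜 : Type*} [RCLike 𝕜] {E : Type*} [NormedAddCommGroup E] [NormedSpace 𝕜 E]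
variable {Ω : Opens E}
variable {F : Type*} [NormedAddCommGroup F] [NormedSpace 𝕜 F]
variable {F₁ : Type*} [NormedAddCommGroup F₁] [NormedSpace 𝕜 F₁]

noncomputable instance instRpSelf : Rp 𝕜 E E := ⟨Hm.toL⟩

noncomputable instance instRpHom [Rp 𝕜 E F] : Rp 𝕜 E (Hm 𝕜 E F) :=
  ⟨(Hm.cmp (𝕜 := 𝕜) (E := E) (F₁ := F) (F₂ := F)).comp Rp.act - Hm.pcm⟩

lemma act_self (A : Hm 𝕜 E E) (x : E) : (Rp.act A : E →L[𝕜] E) x = A x := rfl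

lemma act_hom [Rp 𝕜 E F] (A : Hm 𝕜 E E) (f : Hm 𝕜 E F) (x : E) :
    (Rp.act A : (Hm 𝕜 E F) →L[𝕜] (Hm 𝕜 E F)) f x = (Rp.act A : F →L[𝕜] F) (f x) - f (A x) := rfl

/-- a connection -/
structure Conn (𝕜 : Type*) [RCLike 𝕜] {E : Type*} [NormedAddCommGroup E] [NormedSpace 𝕜 E]
    (Ω : Opens E) where
  /-- coefficients -/
  α : E → Hm 𝕜 E (Hm 𝕜 E E)
  sm : ContDiffOn 𝕜 ∞ α Ω

namespace Conn

variable (c : Conn 𝕜 Ω)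

/-- the connection coefficients as a differential function -/
noncomputable def αh : SF 𝕜 Ω (Hm 𝕜 E (Hm 𝕜 E E)) := base c.α c.sm

/-- covariant derivative along a vector field -/
noncomputable def cov [Rp 𝕜 E F] (X : ℕ → SF 𝕜 Ω E) : SF 𝕜 Ω F →ₗ[𝕜] SF 𝕜 Ω F where
  toFun f := dv X f + bil Rp.act (ap c.αh (X 0)) f
  map_add' f g := by
    apply SF.ext; intro v
    simp only [map_add, add_val, bil_val]
    abel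
  map_smul' r f := by
    apply SF.ext; intro v
    simp only [map_smul, add_val, bil_val, smul_val, smul_add, RingHom.id_apply]

lemma cov_def [Rp 𝕜 E F] (X : ℕ → SF 𝕜 Ω E) (f : SF 𝕜 Ω F) :
    c.cov X f = dv X f + bil Rp.act (ap c.αh (X 0)) f := rfl

lemma cov_vec (X : ℕ → SF 𝕜 Ω E) (f : SF 𝕜 Ω E) :
    c.cov X f = dv X f + ap (ap c.αh (X 0)) f := rfl

lemma cov_ap [Rp 𝕜 E F] (X : ℕ → SF 𝕜 Ω E) (f : SF 𝕜 Ω (Hm 𝕜 E F)) (φ : SF 𝕜 Ω E) :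
    c.cov X (ap f φ) = ap (c.cov X f) φ + ap f (c.cov X φ) := by
  apply SF.ext; intro v
  simp only [cov_def, dv_ap, add_val, bil_val, ap_val, act_hom, act_self, map_add, Hm.add_ap]
  abel

/-- flip of a differential function -/
noncomputable def fl (f : SF 𝕜 Ω (Hm 𝕜 E (Hm 𝕜 E F))) : SF 𝕜 Ω (Hm 𝕜 E (Hm 𝕜 E F)) :=
  mapL Hm.fl f

lemma fl_val (f : SF 𝕜 Ω (Hm 𝕜 E (Hm 𝕜 E F))) (v : Jets Ω) (x y : E) :
    (fl f).1 v x y = f.1 v y x := rfl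

lemma cov_fl [Rp 𝕜 E F] (X : ℕ → SF 𝕜 Ω E) (f : SF 𝕜 Ω (Hm 𝕜 E (Hm 𝕜 E F))) :
    c.cov X (fl f) = fl (c.cov X f) := by
  apply SF.ext; intro v
  ext x y
  simp only [fl, cov_def, dv_mapL, add_val, mapL_val, bil_val, Hm.add_ap, Hm.fl_apply, act_hom,
    Hm.sub_ap]
  abel

/-- covariant differential of a tensor field -/
noncomputable def nab [Rp 𝕜 E F] (C : E → F) (u : E) : Hm 𝕜 E F :=
  Hm.ofL (fderiv 𝕜 C u) + Hm.cmp ((Rp.act (𝕜 := 𝕜) (E := E) (F := F)).flip (C u)) (c.α u)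

lemma nab_apply [Rp 𝕜 E F] (C : E → F) (u x : E) :
    c.nab C u x = fderiv 𝕜 C u x + (Rp.act (c.α u x) : F →L[𝕜] F) (C u) := rfl

lemma nab_sm [Rp 𝕜 E F] {C : E → F} (hC : ContDiffOn 𝕜 ∞ C Ω) : ContDiffOn 𝕜 ∞ (c.nab C) Ω := by
  apply (contDiffOn_fderivH hC).add
  have h1 : ContDiffOn 𝕜 ∞ (fun u => (Rp.act (𝕜 := 𝕜) (E := E) (F := F)).flip (C u)) Ω :=
    ((Rp.act (𝕜 := 𝕜) (E := E) (F := F)).flip).contDiff.comp_contDiffOn hC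
  have h2 := (Hm.cmp (𝕜 := 𝕜) (E := E) (F₁ := Hm 𝕜 E E) (F₂ := F)).contDiff.comp_contDiffOn h1
  exact h2.clm_apply c.sm

lemma cov_base [Rp 𝕜 E F] (X : ℕ → SF 𝕜 Ω E) {C : E → F} (hC : ContDiffOn 𝕜 ∞ C Ω) :
    c.cov X (base C hC) = ap (base (c.nab C) (c.nab_sm hC)) (X 0) := by
  apply SF.ext; intro v
  simp only [cov_def, dv_base, add_val, ap_val, base_val, bil_val, nab_apply, αh, Hm.ofL_apply]

/-- torsion -/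
noncomputable def T (u : E) : Hm 𝕜 E (Hm 𝕜 E E) := c.α u - Hm.fl (c.α u)

lemma T_apply (u x y : E) : c.T u x y = c.α u x y - c.α u y x := rfl

lemma T_sm : ContDiffOn 𝕜 ∞ c.T Ω :=
  c.sm.sub ((Hm.fl (𝕜 := 𝕜) (E := E) (F := E)).contDiff.comp_contDiffOn c.sm)

/-- `a ↦ (B ↦ (y ↦ a ∘ B y))` -/
noncomputable def MM : Hm 𝕜 E E →L[𝕜] Hm 𝕜 E (Hm 𝕜 E E) →L[𝕜] Hm 𝕜 E (Hm 𝕜 E E) :=
  (Hm.cmp (𝕜 := 𝕜) (E := E) (F₁ := Hm 𝕜 E E) (F₂ := Hm 𝕜 E E)).comp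
    ((Hm.cmp (𝕜 := 𝕜) (E := E) (F₁ := E) (F₂ := E)).comp Hm.toL)

/-- `(X, Y) ↦ (A X) ∘ (B Y)` -/
noncomputable def BB (A B : Hm 𝕜 E (Hm 𝕜 E E)) : Hm 𝕜 E (Hm 𝕜 E (Hm 𝕜 E E)) :=
  Hm.cmp ((MM (𝕜 := 𝕜) (E := E)).flip B) A

lemma BB_apply (A B : Hm 𝕜 E (Hm 𝕜 E E)) (x y z : E) : BB A B x y z = A x (B y z) := rfl

/-- curvature `R(X,Y)Z` -/
noncomputable def R (u : E) : Hm 𝕜 E (Hm 𝕜 E (Hm 𝕜 E E)) :=
  (Hm.ofL (fderiv 𝕜 c.α u) + BB (c.α u) (c.α u)) -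
    Hm.fl (Hm.ofL (fderiv 𝕜 c.α u) + BB (c.α u) (c.α u))

lemma R_apply (u x y z : E) : c.R u x y z =
    fderiv 𝕜 c.α u x y z + c.α u x (c.α u y z) - (fderiv 𝕜 c.α u y x z + c.α u y (c.α u x z)) := rfl

lemma BB_sm : ContDiffOn 𝕜 ∞ (fun u => BB (c.α u) (c.α u)) Ω := by
  have h1 : ContDiffOn 𝕜 ∞ (fun u => (MM (𝕜 := 𝕜) (E := E)).flip (c.α u)) Ω :=
    ((MM (𝕜 := 𝕜) (E := E)).flip).contDiff.comp_contDiffOn c.sm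
  have h2 := (Hm.cmp (𝕜 := 𝕜) (E := E) (F₁ := Hm 𝕜 E E) (F₂ := Hm 𝕜 E (Hm 𝕜 E E))).contDiff.comp_contDiffOn h1
  exact h2.clm_apply c.sm

lemma R_sm : ContDiffOn 𝕜 ∞ c.R Ω := by
  have h := (contDiffOn_fderivH c.sm).add c.BB_sm
  exact h.sub ((Hm.fl (𝕜 := 𝕜) (E := E) (F := Hm 𝕜 E E)).contDiff.comp_contDiffOn h)

noncomputable def Th : SF 𝕜 Ω (Hm 𝕜 E (Hm 𝕜 E E)) := base c.T c.T_sm
noncomputable def Rh : SF 𝕜 Ω (Hm 𝕜 E (Hm 𝕜 E (Hm 𝕜 E E))) := base c.R c.R_sm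

lemma cov_torsion {X Y : ℕ → SF 𝕜 Ω E} (h : dv X (Y 0) = dv Y (X 0)) :
    c.cov X (Y 0) = c.cov Y (X 0) + ap (ap c.Th (X 0)) (Y 0) := by
  apply SF.ext; intro v
  simp only [cov_vec, h, add_val, ap_val, Th, base_val, T_apply, αh]
  abel

lemma cov_curv {X Y : ℕ → SF 𝕜 Ω E} (h : dv X (Y 0) = dv Y (X 0)) (φ : SF 𝕜 Ω E)
    (h2 : dv X (dv Y φ) = dv Y (dv X φ)) :
    c.cov X (c.cov Y φ) = c.cov Y (c.cov X φ) + ap (ap (ap c.Rh (X 0)) (Y 0)) φ := by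
  apply SF.ext; intro v
  have h' : ∀ v, (dv X (Y 0)).1 v = (dv Y (X 0)).1 v := fun v => by rw [h]
  have h2' : ∀ v, (dv X (dv Y φ)).1 v = (dv Y (dv X φ)).1 v := fun v => by rw [h2]
  simp only [cov_vec, map_add, dv_ap, add_val, ap_val, αh, dv_base, Rh, base_val, R_apply, h', h2',
    Hm.add_ap, Hm.ofL_apply]
  abel

end Conn

end Cov

end Pool.Agent.H99.TJ
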