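import Mathlib

open scoped ContDiff

/-! # Third-order evolution systems of geometric type: jets, symmetries

Definitions used in the statements about problem MP_7f6920_mp. The field `𝕜` is `ℝ` or `ℂ`. -/

namespace Pool.Agent.H99.TJ.Coord

/-- Infinite jets of an `N`-component function of one variable `x` at a point:
`v k i` stands for the value of `∂_x^k u^i`. -/
abbrev Jet (𝕜 : Type) (N : ℕ) : Type := ℕ → Fin N → 𝕜

section Defs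

variable {𝕜 : Type} [RCLike 𝕜] {N : ℕ}

/-- The jets whose base point `u = v 0` lies in `Ω`. -/
def jetsOver (Ω : Set (Fin N → 𝕜)) : Set (Jet 𝕜 N) := {v | v 0 ∈ Ω}

/-- `f` is a smooth function of `u, u_x, ..., u_{n-1}` (with `u` in `Ω`). -/
def IsSmoothOfJets (Ω : Set (Fin N → 𝕜)) (n : ℕ) (f : Jet 𝕜 N → 𝕜) : Prop :=
  ∃ g : (Fin n → Fin N → 𝕜) → 𝕜,
    ContDiffOn 𝕜 ∞ g {p | ∀ h : 0 < n, p ⟨0, h⟩ ∈ Ω} ∧
    ∀ v ∈ jetsOver Ω, f v = g (fun k => v k)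

/-- The total `x`-derivative `D_x f = ∑_{k,i} (∂f/∂u^i_k) u^i_{k+1}`: the derivative of `f`
at the jet `v` along the direction `(v_{k+1})_k`. -/
noncomputable def totalDeriv (f : Jet 𝕜 N → 𝕜) (v : Jet 𝕜 N) : 𝕜 :=
  lineDeriv 𝕜 f v (fun k => v (k + 1))

/-- The derivative of `f` along the evolutionary flow `u_τ = K`, that is
`∑_{k,i} (∂f/∂u^i_k) D_x^k K^i`. -/
noncomputable def evolDeriv (K : Fin N → Jet 𝕜 N → 𝕜) (f : Jet 𝕜 N → 𝕜) (v : Jet 𝕜 N) : 𝕜 :=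
  lineDeriv 𝕜 f v (fun k i => (totalDeriv^[k] (K i)) v)

/-- The partial derivative `∂f/∂u^j`. -/
noncomputable def pd (j : Fin N) (f : (Fin N → 𝕜) → 𝕜) (u : Fin N → 𝕜) : 𝕜 :=
  lineDeriv 𝕜 f u (Pi.single j 1)

/-- `ev2 t X Y` is the vector with components `t^i_{jk} X^j Y^k`. -/
def ev2 (t : Fin N → Fin N → Fin N → 𝕜) (X Y : Fin N → 𝕜) : Fin N → 𝕜 :=
  fun i => ∑ j, ∑ k, t i j k * X j * Y k

/-- `ev3 t X Y Z` is the vector with components `t^i_{jkl} X^j Y^k Z^l`. -/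
def ev3 (t : Fin N → Fin N → Fin N → Fin N → 𝕜) (X Y Z : Fin N → 𝕜) : Fin N → 𝕜 :=
  fun i => ∑ j, ∑ k, ∑ l, t i j k l * X j * Y k * Z l

end Defs

/-- The data `(α, β)` of a system `(∗)` on an open set `Ω` of `𝕜^N`: smooth coefficients
`α^i_{jk}` and `β^i_{jkm}`, the latter totally symmetric in the lower indices. -/
structure GeomSystem (𝕜 : Type) [RCLike 𝕜] (N : ℕ) where
  /-- the domain of the `u`-space -/
  Ω : Set (Fin N → 𝕜)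
  isOpen : IsOpen Ω
  /-- `α i j k` is `α^i_{jk}` -/
  α : Fin N → Fin N → Fin N → (Fin N → 𝕜) → 𝕜
  /-- `β i j k m` is `β^i_{jkm}` -/
  β : Fin N → Fin N → Fin N → Fin N → (Fin N → 𝕜) → 𝕜
  α_smooth : ∀ i j k, ContDiffOn 𝕜 ∞ (α i j k) Ω
  β_smooth : ∀ i j k m, ContDiffOn 𝕜 ∞ (β i j k m) Ω
  β_symm₁ : ∀ u ∈ Ω, ∀ i j k m, β i j k m u = β i k j m u
  β_symm₂ : ∀ u ∈ Ω, ∀ i j k m, β i j k m u = β i j m k u

namespace GeomSystem

variable {𝕜 : Type} [RCLike 𝕜] {N : ℕ}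

/-- The right-hand side of the system `(∗)`:
`u^i_xxx + 3 α^i_jk u^j_x u^k_xx
  + (∂α^i_km/∂u^j + 2 α^i_jr α^r_km - α^i_rj α^r_km + β^i_jkm) u^j_x u^k_x u^m_x`. -/
noncomputable def rhs (S : GeomSystem 𝕜 N) (i : Fin N) (v : Jet 𝕜 N) : 𝕜 :=
  v 3 i + 3 * ∑ j, ∑ k, S.α i j k (v 0) * v 1 j * v 2 k
    + ∑ j, ∑ k, ∑ m, (pd j (S.α i k m) (v 0) + 2 * ∑ r, S.α i j r (v 0) * S.α r k m (v 0)
        - ∑ r, S.α i r j (v 0) * S.α r k m (v 0) + S.β i j k m (v 0)) * v 1 j * v 1 k * v 1 m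

/-- `u_τ = L` is a symmetry of order `n` of the system: `L = u_n + G(u, u_x, ..., u_{n-1})` with
`G` smooth, and the two flows commute on all jets over `Ω`. -/
def IsSymmetry (S : GeomSystem 𝕜 N) (n : ℕ) (L : Fin N → Jet 𝕜 N → 𝕜) : Prop :=
  (∃ G : Fin N → Jet 𝕜 N → 𝕜, (∀ i, IsSmoothOfJets S.Ω n (G i)) ∧
    ∀ v ∈ jetsOver S.Ω, ∀ i, L i v = v n i + G i v) ∧
  ∀ v ∈ jetsOver S.Ω, ∀ i, evolDeriv S.rhs (L i) v = evolDeriv L (S.rhs i) v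

/-- The system has symmetries of arbitrarily high order. -/
def IsIntegrable (S : GeomSystem 𝕜 N) : Prop :=
  ∀ m : ℕ, ∃ n, m ≤ n ∧ ∃ L, S.IsSymmetry n L

/-- The torsion `T^i_{jk} = α^i_{jk} - α^i_{kj}`. -/
def torsion (S : GeomSystem 𝕜 N) (i j k : Fin N) (u : Fin N → 𝕜) : 𝕜 :=
  S.α i j k u - S.α i k j u

end GeomSystem

/-- A trilinear operation `s` is a triple Jordan system. -/
def IsTripleJordan {E : Type} [AddCommGroup E] (s : E → E → E → E) : Prop :=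
  (∀ X Y Z, s X Y Z = s Z Y X) ∧
  ∀ X Y Z V W, s X (s Y Z V) W - s W V (s X Y Z) + s Z Y (s X V W) - s X V (s Z Y W) = 0

end Pool.Agent.H99.TJ.Coord
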