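import Pool.Agent.H99.TJ.Stage

open scoped ContDiff

namespace Pool.Agent.H99.TJ

open TopologicalSpace

set_option linter.unusedSectionVars false

section El1

variable {𝕜 : Type*} [RCLike 𝕜] {E : Type*} [NormedAddCommGroup E] [NormedSpace 𝕜 E]
variable {Ω : Opens E}
variable {F : Type*} [NormedAddCommGroup F] [NormedSpace 𝕜 F]

/-- the jet with given base point and derivatives -/
def mkJ (u : E) (hu : u ∈ Ω) (w : ℕ → E) : Jets Ω :=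
  ⟨fun k => match k with
    | 0 => u
    | k + 1 => w k, hu⟩

lemma mkJ_zero (u : E) (hu : u ∈ Ω) (w : ℕ → E) : (mkJ u hu w).1 0 = u := rfl
lemma mkJ_succ (u : E) (hu : u ∈ Ω) (w : ℕ → E) (k : ℕ) : (mkJ u hu w).1 (k+1) = w k := rfl

/-! orders -/

lemma OrdLE.add {m : ℕ} {f g : SF 𝕜 Ω F} (hf : OrdLE m f) (hg : OrdLE m g) : OrdLE m (f + g) :=
  fun v v' h => by rw [add_val, add_val, hf v v' h, hg v v' h]

lemma OrdLE.sub {m : ℕ} {f g : SF 𝕜 Ω F} (hf : OrdLE m f) (hg : OrdLE m g) : OrdLE m (f - g) :=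
  fun v v' h => by rw [sub_val, sub_val, hf v v' h, hg v v' h]

lemma OrdLE.neg {m : ℕ} {f : SF 𝕜 Ω F} (hf : OrdLE m f) : OrdLE m (-f) :=
  fun v v' h => by rw [neg_val, neg_val, hf v v' h]

lemma OrdLE.smul {m : ℕ} (r : 𝕜) {f : SF 𝕜 Ω F} (hf : OrdLE m f) : OrdLE m (r • f) :=
  fun v v' h => by rw [smul_val, smul_val, hf v v' h]

lemma OrdLE.ap {m : ℕ} {f : SF 𝕜 Ω (Hm 𝕜 E F)} {g : SF 𝕜 Ω E} (hf : OrdLE m f)
    (hg : OrdLE m g) : OrdLE m (ap f g) :=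
  fun v v' h => by rw [ap_val, ap_val, hf v v' h, hg v v' h]

lemma OrdLE.mulE {m : ℕ} {f g : SF 𝕜 Ω (Hm 𝕜 E E)} (hf : OrdLE m f)
    (hg : OrdLE m g) : OrdLE m (mulE f g) :=
  fun v v' h => by
    ext x
    rw [mulE_val, mulE_val, hf v v' h, hg v v' h]

lemma OrdLE.bil {F₁ F₂ : Type*} [NormedAddCommGroup F₁] [NormedSpace 𝕜 F₁]
    [NormedAddCommGroup F₂] [NormedSpace 𝕜 F₂] {m : ℕ} {B : F₁ →L[𝕜] F₂ →L[𝕜] F}
    {f : SF 𝕜 Ω F₁} {g : SF 𝕜 Ω F₂} (hf : OrdLE m f)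
    (hg : OrdLE m g) : OrdLE m (bil B f g) :=
  fun v v' h => by rw [bil_val, bil_val, hf v v' h, hg v v' h]

lemma OrdLE.base {m : ℕ} (C : E → F) (hC : ContDiffOn 𝕜 ∞ C Ω) : OrdLE m (base C hC) :=
  fun v v' h => by rw [base_val, base_val, h 0 (Nat.zero_le _)]

lemma Conn.P_pow (c : Conn 𝕜 Ω) (k : ℕ) : c.P k = (c.op sh ^ k) (coord 1) := by
  induction k with
  | zero => rfl
  | succ k ih => rw [pow_succ']; change c.D (c.P k) = c.D _; rw [ih]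

lemma Conn.P_ord (c : Conn 𝕜 Ω) (k : ℕ) : OrdLE (k+1) (c.P k) := by
  rw [c.P_pow]
  have := (c.pow_coord 0 k).1
  rwa [show 0 + k + 1 = k + 1 by ring] at this

lemma Conn.P_bump (c : Conn 𝕜 Ω) (k : ℕ) (v : Jets Ω) (e : E) :
    (c.P k).1 (bump v k e) = (c.P k).1 v + e := by
  rw [c.P_pow]
  have := (c.pow_coord 0 k).2 v e
  rwa [show 0 + k = k by ring] at this

lemma ord_bump {m k : ℕ} (hk : m ≤ k) {f : SF 𝕜 Ω F} (h : OrdLE m f) (v : Jets Ω) (e : E) :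
    f.1 (bump v k e) = f.1 v := h _ _ fun _ hj => bump_ne _ _ _ (by omega)

lemma Conn.P_bump_lt (c : Conn 𝕜 Ω) {j k : ℕ} (hj : j < k) (v : Jets Ω) (e : E) :
    (c.P j).1 (bump v k e) = (c.P j).1 v := ord_bump (by omega) (c.P_ord j) v e

lemma base_bump (C : E → F) (hC : ContDiffOn 𝕜 ∞ C Ω) (k : ℕ) (v : Jets Ω) (e : E) :
    (base C hC).1 (bump v k e) = (base C hC).1 v := ord_bump (Nat.zero_le _) (OrdLE.base C hC) v e

lemma Conn.diff_one (c : Conn 𝕜 Ω) [Rp 𝕜 E F] {Y : SF 𝕜 Ω F} (h : OrdLE 1 Y)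
    (v : Jets Ω) (e : E) : ld 𝕜 Y.1 v (Pi.single 1 e) = (c.D Y).1 (bump v 1 e) - (c.D Y).1 v := by
  have := c.diff_D (m := 0) h v e
  rw [zero_add] at this
  rw [this]; abel

/-- second differences of a total derivative in the highest variable vanish -/
lemma Conn.second_diff (c : Conn 𝕜 Ω) [Rp 𝕜 E F] {Y : SF 𝕜 Ω F} (h : OrdLE 1 Y)
    (v : Jets Ω) (e : E) :
    (c.D Y).1 (bump v 1 ((2:𝕜) • e)) - (2:𝕜) • (c.D Y).1 (bump v 1 e) + (c.D Y).1 v = 0 := by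
  have h1 := c.diff_one h v e
  have h2 := c.diff_one h v ((2:𝕜) • e)
  have h3 : (Pi.single 1 ((2:𝕜) • e) : ℕ → E) = (2:𝕜) • Pi.single 1 e := by
    rw [← Pi.single_smul]
  rw [h3, Y.sm.ld_smul_dir, h1] at h2
  have h4 : (c.D Y).1 (bump v 1 ((2:𝕜) • e)) = (2:𝕜) • ((c.D Y).1 (bump v 1 e) - (c.D Y).1 v)
      + (c.D Y).1 v := by rw [h2]; abel
  rw [h4]
  module

/-- constancy along rays -/
lemma ray {Y : SF 𝕜 Ω F} (h : OrdLE 1 Y)
    (h0 : ∀ (v : Jets Ω) (e : E) (t : 𝕜), v.1 1 = t • e → ld 𝕜 Y.1 v (Pi.single 1 e) = 0) :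
    OrdLE 0 Y := by
  have key : ∀ v : Jets Ω, Y.1 v = Y.1 (bump v 0 (-v.1 1)) := by
    intro v
    set w := bump v 0 (-v.1 1) with hw
    have hw1 : w.1 1 = 0 := by
      rw [hw, show (1:ℕ) = 0 + 1 from rfl, bump_self]; simp
    have hd : ∀ t : 𝕜, HasDerivAt (fun t : 𝕜 => Y.1 (bump w 0 (t • v.1 1))) 0 t := by
      intro t
      have := hasDerivAt_bump Y w 0 (v.1 1) t
      rwa [h0 _ _ t (by rw [show (1:ℕ) = 0 + 1 from rfl, bump_self, zero_add, hw1, zero_add])] at this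
    have h3 := is_const_of_deriv_eq_zero (𝕜 := 𝕜) (f := fun t : 𝕜 => Y.1 (bump w 0 (t • v.1 1)))
      (fun t => (hd t).differentiableAt) (fun t => (hd t).deriv) 1 0
    simp only [one_smul, zero_smul] at h3
    have h6 : bump w 0 (0 : E) = w := by
      ext i; rw [bump_val]; simp
    have h7 : bump w 0 (v.1 1) = v := by
      ext i
      rw [bump_val, hw, bump_val]
      by_cases hi : i = 1
      · subst hi; simp
      · simp [Pi.single_eq_of_ne hi]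
    rw [h6, h7] at h3
    exact h3
  intro v v' hv
  rw [key v, key v']
  apply h
  intro k hk
  rcases Nat.eq_zero_or_pos k with h1 | h1
  · subst h1
    rw [bump_ne _ _ _ (by omega), bump_ne _ _ _ (by omega)]
    exact hv 0 le_rfl
  · obtain rfl : k = 0 + 1 := by omega
    rw [bump_self, bump_self]
    simp

lemma ld_ord_zero {Y : SF 𝕜 Ω F} (h : OrdLE 0 Y) (v : Jets Ω) (e : E) :
    ld 𝕜 Y.1 v (Pi.single 1 e) = 0 := by
  rw [← ld_zero_dir Y v]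
  apply ld_congr h (fun _ _ => rfl)
  intro k hk
  rw [Pi.single_eq_of_ne (by omega)]
  rfl

/-- total derivatives of functions of order zero are linear in the velocity -/
lemma Conn.lin_of_ord (c : Conn 𝕜 Ω) [Rp 𝕜 E F] {Y : SF 𝕜 Ω F} (h : OrdLE 0 Y) (u : E)
    (hu : u ∈ Ω) (w : ℕ → E) (t : 𝕜) :
    (c.D Y).1 (mkJ u hu (t • w)) = t • (c.D Y).1 (mkJ u hu w) := by
  rw [c.D_val, c.D_val]
  have h1 : ld 𝕜 Y.1 (mkJ u hu (t • w)) (fun k => (mkJ u hu (t • w)).1 (k+1))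
      = ld 𝕜 Y.1 (mkJ u hu w) (t • fun k => (mkJ u hu w).1 (k+1)) := by
    apply ld_congr h
    · intro k hk
      obtain rfl : k = 0 := by omega
      rfl
    · intro k hk
      rfl
  rw [h1, Y.sm.ld_smul_dir, h (mkJ u hu (t • w)) (mkJ u hu w) (fun k hk => by
    obtain rfl : k = 0 := by omega
    rfl)]
  have h2 : (mkJ u hu (t • w)).1 1 = t • (mkJ u hu w).1 1 := rfl
  rw [h2, mkJ_zero, mkJ_zero, map_smul, map_smul, smul_add]
  rfl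

lemma bump_zero (v : Jets Ω) (k : ℕ) (e : E) : (bump v k e).1 0 = v.1 0 := bump_ne v k e (by omega)

/-! equivariant maps -/

/-- equivariance under the action of endomorphisms -/
def Eqv {F₁ F₂ : Type*} [NormedAddCommGroup F₁] [NormedSpace 𝕜 F₁]
    [NormedAddCommGroup F₂] [NormedSpace 𝕜 F₂] [Rp 𝕜 E F₁] [Rp 𝕜 E F₂] (L : F₁ →L[𝕜] F₂) : Prop :=
  ∀ (A : Hm 𝕜 E E) (f : F₁), (Rp.act A : F₂ →L[𝕜] F₂) (L f) = L ((Rp.act A : F₁ →L[𝕜] F₁) f)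

section Eqv

variable {F₁ F₂ F₃ : Type*} [NormedAddCommGroup F₁] [NormedSpace 𝕜 F₁]
    [NormedAddCommGroup F₂] [NormedSpace 𝕜 F₂] [NormedAddCommGroup F₃] [NormedSpace 𝕜 F₃]
    [Rp 𝕜 E F₁] [Rp 𝕜 E F₂] [Rp 𝕜 E F₃]

lemma eqv_id : Eqv (E := E) (ContinuousLinearMap.id 𝕜 F₁) := fun _ _ => rfl

lemma eqv_fl : Eqv (E := E) (Hm.fl (𝕜 := 𝕜) (E := E) (F := F₁)) := by
  intro A f
  ext x y
  simp only [Hm.fl_apply, act_hom, Hm.sub_ap]
  abel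

lemma eqv_cmp {L : F₁ →L[𝕜] F₂} (h : Eqv (E := E) L) : Eqv (E := E) (Hm.cmp (𝕜 := 𝕜) (E := E) L) := by
  intro A f
  ext x
  simp only [Hm.cmp_apply, act_hom, map_sub]
  rw [h]

lemma eqv_comp {L : F₁ →L[𝕜] F₂} {M : F₂ →L[𝕜] F₃} (hL : Eqv (E := E) L) (hM : Eqv (E := E) M) :
    Eqv (E := E) (M.comp L) := by
  intro A f
  change (Rp.act A : F₃ →L[𝕜] F₃) (M (L f)) = M (L _)
  rw [hM, hL]

lemma eqv_add {L M : F₁ →L[𝕜] F₂} (hL : Eqv (E := E) L) (hM : Eqv (E := E) M) :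
    Eqv (E := E) (L + M) := by
  intro A f
  change (Rp.act A : F₂ →L[𝕜] F₂) (L f + M f) = L _ + M _
  rw [map_add, hL, hM]

lemma eqv_smul (s : 𝕜) {L : F₁ →L[𝕜] F₂} (hL : Eqv (E := E) L) :
    Eqv (E := E) (s • L) := by
  intro A f
  change (Rp.act A : F₂ →L[𝕜] F₂) (s • L f) = s • L _
  rw [map_smul, hL]

lemma eqv_neg {L : F₁ →L[𝕜] F₂} (hL : Eqv (E := E) L) :
    Eqv (E := E) (-L) := by
  intro A f
  change (Rp.act A : F₂ →L[𝕜] F₂) (- L f) = - L _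
  rw [map_neg, hL]

lemma eqv_rot : Eqv (E := E) (rot (𝕜 := 𝕜) (E := E) (F := F₁)) :=
  eqv_comp (eqv_cmp eqv_fl) eqv_fl

lemma Conn.nab_map (c : Conn 𝕜 Ω) {L : F₁ →L[𝕜] F₂} (hL : Eqv (E := E) L) {C₁ : E → F₁} {C₂ : E → F₂}
    (h1 : ContDiffOn 𝕜 ∞ C₁ Ω) (h : ∀ u ∈ Ω, C₂ u = L (C₁ u)) {u : E} (hu : u ∈ Ω) (x : E) :
    c.nab C₂ u x = L (c.nab C₁ u x) := by
  have hd : DifferentiableAt 𝕜 C₁ u :=
    (h1.contDiffAt (Ω.isOpen.mem_nhds hu)).differentiableAt (by simp)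
  have h2 : fderiv 𝕜 C₂ u = L.comp (fderiv 𝕜 C₁ u) := by
    have h3 : C₂ =ᶠ[nhds u] (L ∘ C₁) := by
      filter_upwards [Ω.isOpen.mem_nhds hu] with w hw
      exact h w hw
    rw [h3.fderiv_eq]
    exact (L.hasFDerivAt.comp u hd.hasFDerivAt).fderiv
  rw [c.nab_apply, c.nab_apply, h2, h u hu, hL, map_add]
  rfl

end Eqv

namespace Sys

variable (c : Sys 𝕜 Ω)

lemma Th_val (v : Jets Ω) : c.Th.1 v = c.T (v.1 0) := rfl
lemma Rh_val (v : Jets Ω) : c.Rh.1 v = c.R (v.1 0) := rfl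
lemma βh_val (v : Jets Ω) : c.βh.1 v = c.β (v.1 0) := rfl
lemma sh'_val (v : Jets Ω) : c.sh'.1 v = c.sg (v.1 0) := rfl
lemma nTh_val (v : Jets Ω) : c.nTh.1 v = c.nab c.T (v.1 0) := rfl
lemma nRh_val (v : Jets Ω) : c.nRh.1 v = c.nab c.R (v.1 0) := rfl
lemma nβh_val (v : Jets Ω) : c.nβh.1 v = c.nab c.β (v.1 0) := rfl
lemma nsh_val (v : Jets Ω) : c.nsh.1 v = c.nab c.sg (v.1 0) := rfl
lemma P0_val (v : Jets Ω) : (c.P 0).1 v = v.1 1 := rfl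

lemma nabR_skew {u : E} (hu : u ∈ Ω) (p x y : E) : c.nab c.R u p x y = - c.nab c.R u p y x := by
  have h := c.nab_map (L := - Hm.fl (𝕜 := 𝕜) (E := E) (F := Hm 𝕜 E E)) (eqv_neg eqv_fl) c.R_sm
    (C₂ := c.R) (fun u _ => by
      ext x y z
      exact c.R_skew u x y z) hu p
  have h2 := congrArg (fun f => f x y) h
  exact h2

/-- the correction term -/
noncomputable def r : SF 𝕜 Ω (Hm 𝕜 E E) := ap (ap c.Rh (c.P 1)) (c.P 0)

noncomputable def B3 : SF 𝕜 Ω E := ap (ap (ap c.βh (c.P 0)) (c.P 0)) (c.P 0)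

lemma Z0_r : Z0 c.r := Z0_ap (c.Z0_P 0)

theorem C1 (h : ∃ Y : SF 𝕜 Ω (Hm 𝕜 E E), ap (ap c.Rh c.K) (c.P 0) = c.D Y) :
    (∀ u ∈ Ω, ∀ p e : E, c.nab c.R u p e p = c.R u (c.T u p e) p) ∧
    c.D c.r = ap (ap c.Rh c.K) (c.P 0) := by
  obtain ⟨Y, hY⟩ := h
  set G1 : SF 𝕜 Ω (Hm 𝕜 E E) := ap (ap c.Rh (ap (ap c.Th (c.P 0)) (c.P 1))) (c.P 0)
    + ap (ap c.Rh c.B3) (c.P 0) - ap (ap (ap c.nRh (c.P 0)) (c.P 1)) (c.P 0) with hG1
  have hr : c.D c.r = ap (ap (ap c.nRh (c.P 0)) (c.P 1)) (c.P 0) + ap (ap c.Rh (c.P 2)) (c.P 0) := by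
    have h0 : ap (ap c.Rh (c.P 1)) (c.P 1) = 0 := by
      have h1 := c.Rh_skew (c.P 1) (c.P 1)
      have h2 : (2:𝕜) • ap (ap c.Rh (c.P 1)) (c.P 1) = 0 := by
        rw [two_smul]
        nth_rewrite 2 [h1]
        abel
      exact (smul_eq_zero.1 h2).resolve_left two_ne_zero
    have h3 : c.D c.Rh = ap c.nRh (c.P 0) := c.cov_Rh sh
    rw [r, D_apx, D_apx, h3]
    have h4 : c.D (c.P 0) = c.P 1 := rfl
    have h5 : c.D (c.P 1) = c.P 2 := rfl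
    rw [h4, h5, h0, add_zero]
    rfl
  have hK : ap (ap c.Rh c.K) (c.P 0) = ap (ap c.Rh (c.P 2)) (c.P 0)
      + ap (ap c.Rh (ap (ap c.Th (c.P 0)) (c.P 1))) (c.P 0) + ap (ap c.Rh c.B3) (c.P 0) := by
    apply SF.ext; intro v
    simp only [K, B3, ap_val, add_val, map_add, Hm.add_ap]
  have hD : c.D (Y - c.r) = G1 := by
    rw [map_sub, ← hY, hr, hK, hG1]
    abel
  have o0 : OrdLE 2 (c.P 0) := (c.P_ord 0).mono (by omega)
  have o1 : OrdLE 2 (c.P 1) := c.P_ord 1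
  have oR : OrdLE 2 c.Rh := OrdLE.base _ _
  have oT : OrdLE 2 c.Th := OrdLE.base _ _
  have oβ : OrdLE 2 c.βh := OrdLE.base _ _
  have onR : OrdLE 2 c.nRh := OrdLE.base _ _
  have hG1o : OrdLE 2 G1 :=
    ((OrdLE.ap (OrdLE.ap oR (OrdLE.ap (OrdLE.ap oT o0) o1)) o0).add
      (OrdLE.ap (OrdLE.ap oR (OrdLE.ap (OrdLE.ap (OrdLE.ap oβ o0) o0) o0)) o0)).sub
      (OrdLE.ap (OrdLE.ap (OrdLE.ap onR o0) o1) o0)
  have hYo : OrdLE 1 (Y - c.r) := c.ord_of_D (m := 1) (by rw [hD]; exact hG1o)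
  have hld : ∀ (v : Jets Ω) (e : E), ld 𝕜 (Y - c.r).1 v (Pi.single 1 e)
      = c.R (v.1 0) (c.T (v.1 0) (v.1 1) e) (v.1 1) - c.nab c.R (v.1 0) (v.1 1) e (v.1 1) := by
    intro v e
    rw [c.diff_one hYo, hD, hG1]
    simp only [sub_val, add_val, ap_val, B3, c.Th_val, c.Rh_val, c.nRh_val, c.βh_val, bump_zero,
      c.P_bump_lt (show 0 < 1 by omega), c.P_bump 1, map_add, Hm.add_ap, c.P0_val]
    abel
  have hY0 : OrdLE 0 (Y - c.r) := by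
    apply ray hYo
    intro v e t ht
    rw [hld, ht]
    have h1 : c.T (v.1 0) e e = 0 := by
      rw [Conn.T_apply]; abel
    have h2 : c.nab c.R (v.1 0) e e e = 0 := by
      have h3 := c.nabR_skew v.2 e e e
      have h4 : (2:𝕜) • c.nab c.R (v.1 0) e e e = 0 := by
        rw [two_smul]
        nth_rewrite 2 [h3]
        abel
      exact (smul_eq_zero.1 h4).resolve_left two_ne_zero
    simp only [map_smul, Hm.smul_ap, h1, h2, map_zero, Hm.zero_ap, smul_zero, sub_zero]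
  have hA : ∀ (v : Jets Ω) (e : E), c.nab c.R (v.1 0) (v.1 1) e (v.1 1)
      = c.R (v.1 0) (c.T (v.1 0) (v.1 1) e) (v.1 1) := by
    intro v e
    have h1 := hld v e
    rw [ld_ord_zero hY0] at h1
    exact (sub_eq_zero.1 h1.symm).symm
  have hA' : ∀ u ∈ Ω, ∀ p e : E, c.nab c.R u p e p = c.R u (c.T u p e) p := by
    intro u hu p e
    exact hA (mkJ u hu (fun _ => p)) e
  refine ⟨hA', ?_⟩
  have hG1v : ∀ v : Jets Ω, G1.1 v = c.R (v.1 0) (c.β (v.1 0) (v.1 1) (v.1 1) (v.1 1)) (v.1 1) := by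
    intro v
    rw [hG1]
    simp only [sub_val, add_val, ap_val, B3, c.Th_val, c.Rh_val, c.nRh_val, c.βh_val, c.P0_val]
    rw [hA]
    abel
  have hG0 : G1 = 0 := by
    apply SF.ext; intro v
    have hv : v = mkJ (v.1 0) v.2 (fun k => v.1 (k+1)) := by
      ext k
      cases k <;> rfl
    have h1 := c.lin_of_ord hY0 (v.1 0) v.2 (fun k => v.1 (k+1)) 2
    rw [hD, ← hv, hG1v, hG1v, mkJ_zero] at h1
    have h2 : (mkJ (v.1 0) v.2 ((2:𝕜) • fun k => v.1 (k+1))).1 1 = (2:𝕜) • v.1 1 := rfl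
    rw [h2] at h1
    simp only [map_smul, Hm.smul_ap, smul_smul] at h1
    rw [hG1v, zero_val]
    have h3 : (14:𝕜) • (c.R (v.1 0) (c.β (v.1 0) (v.1 1) (v.1 1) (v.1 1)) (v.1 1)) = 0 := by
      rw [← sub_eq_zero, ← sub_smul] at h1
      rw [← h1]
      congr 1
      norm_num
    exact (smul_eq_zero.1 h3).resolve_left (by norm_num)
  rw [hG0, map_sub, sub_eq_zero, ← hY] at hD
  exact hD.symm

end Sys

end El1

end Pool.Agent.H99.TJ
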