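import Pool.Agent.H99.TJ.El1

open scoped ContDiff

namespace Pool.Agent.H99.TJ

open TopologicalSpace

set_option linter.unusedSectionVars false

section El2

variable {𝕜 : Type*} [RCLike 𝕜] {E : Type*} [NormedAddCommGroup E] [NormedSpace 𝕜 E]
variable {Ω : Opens E}
variable {F : Type*} [NormedAddCommGroup F] [NormedSpace 𝕜 F]

lemma SF.ext_ap {f g : SF 𝕜 Ω (Hm 𝕜 E F)} (h : ∀ x : E, ap f (cst x) = ap g (cst x)) : f = g := by
  apply SF.ext; intro v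
  ext x
  exact congrArg (fun k => k.1 v) (h x)

namespace Sys

variable (c : Sys 𝕜 Ω)

noncomputable def sPP : SF 𝕜 Ω (Hm 𝕜 E E) := ap (ap c.sh' (c.P 0)) (c.P 0)

lemma D_P (k : ℕ) : c.D (c.P k) = c.P (k+1) := rfl

lemma D_Th : c.D c.Th = ap c.nTh (c.P 0) := c.cov_Th sh
lemma D_Rh : c.D c.Rh = ap c.nRh (c.P 0) := c.cov_Rh sh
lemma D_βh : c.D c.βh = ap c.nβh (c.P 0) := c.cov_βh sh
lemma D_sh' : c.D c.sh' = ap c.nsh (c.P 0) := c.cov_sh' sh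

lemma nabT_dl (u x y z : E) : c.nab c.T u x y z = c.T u x (c.T u y z) + c.R u y z x - c.dl u x y z := by
  rw [dl_apply]; abel

lemma dl_self {u : E} (hu : u ∈ Ω) (x y : E) : c.dl u x y y = 0 := by
  have h := c.dl_skew hu x y y
  have h2 : (2:𝕜) • c.dl u x y y = 0 := by
    rw [two_smul]
    nth_rewrite 2 [h]
    abel
  exact (smul_eq_zero.1 h2).resolve_left two_ne_zero

lemma T_self (u x : E) : c.T u x x = 0 := by rw [Conn.T_apply, sub_self]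

lemma sg_pp {u : E} (hu : u ∈ Ω) (x y : E) : (3:𝕜) • c.sg u x x y = (3:𝕜) • c.β u x x y - c.dl u x x y := by
  rw [sg_apply, c.dl_self hu y x]
  module

lemma ca_eq : c.ca = (3:𝕜) • (c.sPP - c.D c.T0) := by
  apply SF.ext; intro v
  ext w
  simp only [ca, T0, X0, T1, bPP, sPP, D_apx, D_P, D_Th, add_val, sub_val, smul_val, ap_val, mulE_val,
    s1_val, Hm.add_ap, Hm.sub_ap, Hm.smul_ap, c.Th_val, c.Rh_val, c.nTh_val, c.βh_val, c.sh'_val, c.P0_val]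
  rw [c.nabT_dl, c.R_skew _ w]
  have h := c.sg_pp v.2 (v.1 1) w
  have h' : (3:𝕜) • c.β (v.1 0) (v.1 1) (v.1 1) w
      = (3:𝕜) • c.sg (v.1 0) (v.1 1) (v.1 1) w + c.dl (v.1 0) (v.1 1) (v.1 1) w := by
    rw [h]; abel
  rw [h']
  module

section Comm

variable (hr : c.D c.r = ap (ap c.Rh c.K) (c.P 0))

include hr

lemma dtD_vec (φ : SF 𝕜 Ω E) : c.dt c.r (c.D φ) = c.D (c.dt c.r φ) := by
  rw [dt_vec, dt_vec, map_add, D_apx, hr]
  change c.cov (prol c.K) (c.cov sh φ) + _ = _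
  rw [c.cov_prol_D]
  abel

omit hr in
lemma dtD_hom [Rp 𝕜 E F] (h : ∀ φ : SF 𝕜 Ω F, c.dt c.r (c.D φ) = c.D (c.dt c.r φ))
    (hv : ∀ φ : SF 𝕜 Ω E, c.dt c.r (c.D φ) = c.D (c.dt c.r φ))
    (f : SF 𝕜 Ω (Hm 𝕜 E F)) : c.dt c.r (c.D f) = c.D (c.dt c.r f) := by
  apply SF.ext_ap
  intro x
  have e1 := c.dt_ap c.r (c.D f) (cst x)
  have e2 := c.D_apx f (cst x)
  have e3 := c.D_apx (c.dt c.r f) (cst x)
  have e4 := c.dt_ap c.r f (cst x)
  have e5 := c.dt_ap c.r f (c.D (cst x))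
  have e6 := c.D_apx f (c.dt c.r (cst x))
  have e7 := h (ap f (cst x))
  rw [e2, map_add, e1, e5, e4, map_add, e3, e6, hv] at e7
  have e8 : ap (c.dt c.r (c.D f)) (cst x) = (ap (c.dt c.r (c.D f)) (cst x) + ap (c.D f) (c.dt c.r (cst x))
    + (ap (c.dt c.r f) (c.D (cst x)) + ap f (c.D (c.dt c.r (cst x))))) - ap (c.D f) (c.dt c.r (cst x))
    - (ap (c.dt c.r f) (c.D (cst x)) + ap f (c.D (c.dt c.r (cst x)))) := by abel
  rw [e8, e7]
  abel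

lemma dtD_end (f : SF 𝕜 Ω (Hm 𝕜 E E)) : c.dt c.r (c.D f) = c.D (c.dt c.r f) :=
  c.dtD_hom (c.dtD_vec hr) (c.dtD_vec hr) f

end Comm

/-- the remainder in `∂_t P_0 = P_3 + F_1` -/
noncomputable def F1 : SF 𝕜 Ω E :=
  (3:𝕜) • ap (ap (ap c.sh' (c.P 0)) (c.P 0)) (c.P 1) + ap (ap (ap (ap c.nβh (c.P 0)) (c.P 0)) (c.P 0)) (c.P 0)
    + ap (ap c.Th c.B3) (c.P 0)

lemma dt_P0 : c.dt c.r (c.P 0) = c.P 3 + c.F1 := by
  rw [dt_vec, c.cov_prol_P0]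
  apply SF.ext; intro v
  simp only [K, map_add, D_apx, D_P, D_Th, D_βh, add_val, ap_val, Hm.add_ap, c.Th_val,
    c.Rh_val, c.nTh_val, c.βh_val, c.sh'_val, c.P0_val, F1, B3, r, smul_val, c.nβh_val]
  rw [c.nabT_dl, c.sg_pp v.2, c.T_self, c.T_skew _ ((c.P 2).1 v), c.T_skew _ (c.T (v.1 0) (v.1 1) ((c.P 1).1 v)),
    c.R_skew _ ((c.P 1).1 v)]
  have b1 : ∀ x y z, c.β (v.1 0) x y z = c.β (v.1 0) y x z := fun x y z => c.βs1 _ v.2 _ _ _
  have b2 : ∀ x y z, c.β (v.1 0) x y z = c.β (v.1 0) x z y := fun x y z => c.βs2 _ v.2 _ _ _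
  rw [b1 ((c.P 1).1 v), b2 _ ((c.P 1).1 v)]
  module

/-- the ansatz -/
noncomputable def W2 : SF 𝕜 Ω (Hm 𝕜 E E) :=
  ap (ap c.sh' (c.P 2)) (c.P 0) + ap (ap c.sh' (c.P 0)) (c.P 2) - ap (ap c.sh' (c.P 1)) (c.P 1)
    + (ap (ap (ap c.nsh (c.P 1)) (c.P 0)) (c.P 0) - ap (ap (ap c.nsh (c.P 0)) (c.P 1)) (c.P 0)
    - ap (ap (ap c.nsh (c.P 0)) (c.P 0)) (c.P 1))

noncomputable def G2 : SF 𝕜 Ω (Hm 𝕜 E E) :=
  ap (ap (ap c.nsh (ap (ap c.Th (c.P 0)) (c.P 1) + c.B3)) (c.P 0)) (c.P 0)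
    + ap (ap (bil Rp.act c.r c.sh') (c.P 0)) (c.P 0)
    + ap (ap c.sh' c.F1) (c.P 0) + ap (ap c.sh' (c.P 0)) c.F1
    + (3:𝕜) • ap (ap (ap c.nsh (c.P 0)) (c.P 1)) (c.P 1)
    - (ap (ap (ap (c.D c.nsh) (c.P 1)) (c.P 0)) (c.P 0)
      - ap (ap (ap (c.D c.nsh) (c.P 0)) (c.P 1)) (c.P 0)
      - ap (ap (ap (c.D c.nsh) (c.P 0)) (c.P 0)) (c.P 1))

lemma dt_sh' : c.dt c.r c.sh' = ap c.nsh c.K + bil Rp.act c.r c.sh' := by
  rw [dt_def, c.cov_sh']; rfl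

lemma G2_eq {Y2 : SF 𝕜 Ω (Hm 𝕜 E E)} (h : c.dt c.r c.sPP = c.D Y2) : c.D (Y2 - c.W2) = c.G2 := by
  rw [map_sub, ← h, sPP, dt_ap, dt_ap, c.dt_P0, c.dt_sh']
  simp only [W2, map_add, map_sub, D_apx, D_P, D_sh']
  apply SF.ext; intro v
  simp only [G2, K, B3, add_val, sub_val, smul_val, ap_val, Hm.add_ap, map_add]
  module

lemma ord_B3 : OrdLE 1 c.B3 := by
  have o0 : OrdLE 1 (c.P 0) := c.P_ord 0
  exact OrdLE.ap (OrdLE.ap (OrdLE.ap (OrdLE.base _ _) o0) o0) o0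

lemma ord_F1 : OrdLE 2 c.F1 := by
  have o0 : OrdLE 2 (c.P 0) := (c.P_ord 0).mono (by omega)
  have o1 : OrdLE 2 (c.P 1) := c.P_ord 1
  exact ((((OrdLE.base _ _).ap o0).ap o0).ap o1).smul _ |>.add
    (((((OrdLE.base _ _).ap o0).ap o0).ap o0).ap o0) |>.add
    (((OrdLE.base _ _).ap (c.ord_B3.mono (by omega))).ap o0)

lemma ord_G2 : OrdLE 2 c.G2 := by
  have o0 : OrdLE 2 (c.P 0) := (c.P_ord 0).mono (by omega)
  have o1 : OrdLE 2 (c.P 1) := c.P_ord 1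
  have oB : OrdLE 2 c.B3 := c.ord_B3.mono (by omega)
  have oF := c.ord_F1
  have ons : OrdLE 2 c.nsh := OrdLE.base _ _
  have os : OrdLE 2 c.sh' := OrdLE.base _ _
  have oT : OrdLE 2 c.Th := OrdLE.base _ _
  have oR : OrdLE 2 c.Rh := OrdLE.base _ _
  have or' : OrdLE 2 c.r := (oR.ap o1).ap o0
  have oD : OrdLE 2 (c.D c.nsh) :=
    (c.ord_D (m := 0) (OrdLE.base _ _)).mono (by omega)
  unfold G2
  exact ((((((ons.ap (((oT.ap o0).ap o1).add oB)).ap o0).ap o0).add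
    (((OrdLE.bil or' os).ap o0).ap o0)).add ((os.ap oF).ap o0)).add ((os.ap o0).ap oF)).add
    ((((ons.ap o0).ap o1).ap o1).smul _) |>.sub
    (((((oD.ap o1).ap o0).ap o0).sub (((oD.ap o0).ap o1).ap o0)).sub (((oD.ap o0).ap o0).ap o1))

lemma nsh_diag {Y2 : SF 𝕜 Ω (Hm 𝕜 E E)} (h : c.dt c.r c.sPP = c.D Y2) {u : E} (hu : u ∈ Ω) (p e w : E) :
    c.nab c.sg u p e e w = 0 := by
  have hD := c.G2_eq h
  have ho : OrdLE 1 (Y2 - c.W2) := c.ord_of_D (m := 1) (by rw [hD]; exact c.ord_G2)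
  set v := mkJ u hu (fun _ => p) with hv
  have h2 := c.second_diff ho v e
  rw [hD] at h2
  have oD : ∀ e : E, (c.D c.nsh).1 (bump v 1 e) = (c.D c.nsh).1 v := fun e =>
    ord_bump le_rfl (c.ord_D (m := 0) (OrdLE.base _ _)) v e
  have h3 := congrArg (fun f => f w) h2
  simp only [G2, r, B3, F1, add_val, sub_val, smul_val, ap_val, bil_val, act_hom, act_self, Hm.add_ap,
    Hm.sub_ap, Hm.smul_ap, map_add, map_smul, c.Th_val, c.Rh_val, c.nsh_val, c.nβh_val,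
    c.βh_val, c.sh'_val, bump_zero, c.P_bump_lt (show 0 < 1 by omega), c.P_bump 1, oD,
    _root_.add_apply, _root_.smul_apply] at h3
  have h4 : (6:𝕜) • c.nab c.sg (v.1 0) ((c.P 0).1 v) e e w = 0 := by
    rw [← Hm.zero_ap (𝕜 := 𝕜) (F := E) w, ← h3]
    module
  exact (smul_eq_zero.1 h4).resolve_left (by norm_num)

/-- reversal of three arguments -/
noncomputable def rev3 : Hm 𝕜 E (Hm 𝕜 E (Hm 𝕜 E F)) →L[𝕜] Hm 𝕜 E (Hm 𝕜 E (Hm 𝕜 E F)) :=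
  rot.comp (Hm.fl (𝕜 := 𝕜) (E := E) (F := Hm 𝕜 E F))

lemma rev3_apply (f : Hm 𝕜 E (Hm 𝕜 E (Hm 𝕜 E F))) (x y z : E) : rev3 f x y z = f z y x := rfl

lemma nsg_symm {u : E} (hu : u ∈ Ω) (p x y z : E) : c.nab c.sg u p x y z = c.nab c.sg u p z y x := by
  have h := c.nab_map (L := rev3 (𝕜 := 𝕜) (E := E) (F := E)) (eqv_comp eqv_fl eqv_rot) c.sg_sm
    (C₂ := c.sg) (fun u hu => by
      ext x y z
      exact c.sg_symm hu x y z) hu p
  exact congrArg (fun f => f x y z) h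

lemma nsg_zero (hdiag : ∀ u ∈ Ω, ∀ p e w : E, c.nab c.sg u p e e w = 0) {u : E} (hu : u ∈ Ω) :
    c.nab c.sg u = 0 := by
  ext p x y z
  set s : E → E → E → E := fun x y z => c.nab c.sg u p x y z with hs
  have h1 : ∀ x y z, s x y z = - s y x z := by
    intro x y z
    have h := hdiag u hu p (x + y) z
    simp only [map_add, Hm.add_ap, hdiag u hu p x z, hdiag u hu p y z] at h
    simp only [hs]
    rw [eq_neg_iff_add_eq_zero, ← h]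
    abel
  have h2 : ∀ x y z, s x y z = s z y x := fun x y z => c.nsg_symm hu p x y z
  have h3 : s x y z = - s x y z := by
    calc s x y z = - s y x z := h1 x y z
      _ = - s z x y := by rw [h2 y x z]
      _ = s x z y := by rw [h1 z x y]; abel
      _ = s y z x := h2 x z y
      _ = - s z y x := h1 y z x
      _ = - s x y z := by rw [h2 z y x]
  have h4 : (2:𝕜) • s x y z = 0 := by
    rw [two_smul]
    nth_rewrite 2 [h3]
    abel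
  exact (smul_eq_zero.1 h4).resolve_left two_ne_zero

/-- symmetrisation -/
noncomputable def sym3 : Hm 𝕜 E (Hm 𝕜 E (Hm 𝕜 E F)) →L[𝕜] Hm 𝕜 E (Hm 𝕜 E (Hm 𝕜 E F)) :=
  (1/3:𝕜) • (ContinuousLinearMap.id 𝕜 _ + rot + rot.comp rot)

lemma eqv_sym3 [Rp 𝕜 E F] : Eqv (E := E) (sym3 (𝕜 := 𝕜) (E := E) (F := F)) :=
  eqv_smul _ (eqv_add (eqv_add eqv_id eqv_rot) (eqv_comp eqv_rot eqv_rot))

lemma β_sym3 {u : E} (hu : u ∈ Ω) : c.β u = sym3 (c.sg u) := by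
  ext x y z
  have h := c.β_eq hu x y z
  have h2 : c.β u x y z = (1/3:𝕜) • ((3:𝕜) • c.β u x y z) := by rw [smul_smul]; norm_num
  rw [h2, h]
  rfl

lemma nβ_zero (hs : ∀ u ∈ Ω, c.nab c.sg u = 0) {u : E} (hu : u ∈ Ω) : c.nab c.β u = 0 := by
  ext p x y z
  have h := c.nab_map eqv_sym3 c.sg_sm (C₂ := c.β) (fun u hu => c.β_sym3 hu) hu p
  rw [h, hs u hu, Hm.zero_ap, map_zero]

section Par

variable (hs : ∀ u ∈ Ω, c.nab c.sg u = 0)

include hs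

lemma nsh_zero : c.nsh = 0 := SF.ext fun v => hs _ v.2
lemma nβh_zero : c.nβh = 0 := SF.ext fun v => c.nβ_zero hs v.2

omit hs in
lemma ap_zero_left (φ : SF 𝕜 Ω E) : ap (0 : SF 𝕜 Ω (Hm 𝕜 E F)) φ = 0 := rfl

lemma covX_sh' (X : ℕ → SF 𝕜 Ω E) : c.cov X c.sh' = 0 := by
  rw [c.cov_sh', c.nsh_zero hs]; rfl

lemma covX_βh (X : ℕ → SF 𝕜 Ω E) : c.cov X c.βh = 0 := by
  rw [c.cov_βh, c.nβh_zero hs]; rfl

/-- the curvature acts by derivations of `σ` -/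
lemma ricci {u : E} (hu : u ∈ Ω) (x y a b d : E) :
    c.R u x y (c.sg u a b d) = c.sg u (c.R u x y a) b d + c.sg u a (c.R u x y b) d
      + c.sg u a b (c.R u x y d) := by
  have hc : dv (prol (cst x : SF 𝕜 Ω E)) (cst y) = dv (prol (cst y)) (cst x) := by
    rw [dv_cst, dv_cst]
  have key : ∀ (X : ℕ → SF 𝕜 Ω E) (A B C : SF 𝕜 Ω E), c.cov X (ap (ap (ap c.sh' A) B) C)
      = ap (ap (ap c.sh' (c.cov X A)) B) C + ap (ap (ap c.sh' A) (c.cov X B)) C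
        + ap (ap (ap c.sh' A) B) (c.cov X C) := by
    intro X A B C
    rw [c.cov_ap, c.cov_ap, c.cov_ap, c.covX_sh' hs]
    apply SF.ext; intro v
    simp only [add_val, ap_val, zero_val, Hm.add_ap, Hm.zero_ap, zero_add]
  set A : SF 𝕜 Ω E := cst a
  set B : SF 𝕜 Ω E := cst b
  set C : SF 𝕜 Ω E := cst d
  have h := c.cov_prol_prol hc (ap (ap (ap c.sh' A) B) C)
  rw [key, key] at h
  simp only [map_add, key] at h
  rw [c.cov_prol_prol hc A, c.cov_prol_prol hc B, c.cov_prol_prol hc C] at h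
  have h2 := congrArg (fun k => k.1 (mkJ u hu 0)) h
  have e0 : (mkJ u hu (0 : ℕ → E)).1 0 = u := rfl
  simp only [add_val, ap_val, map_add, Hm.add_ap, c.sh'_val, Rh_val, cst_val, e0] at h2
  have h3 : c.R u x y (c.sg u a b d) = c.sg u (c.R u x y a) b d + c.sg u a (c.R u x y b) d
      + c.sg u a b (c.R u x y d) := by
    have ha : A.1 (mkJ u hu 0) = a := rfl
    have hb : B.1 (mkJ u hu 0) = b := rfl
    have hd : C.1 (mkJ u hu 0) = d := rfl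
    rw [ha, hb, hd] at h2
    rw [← sub_eq_zero] at h2 ⊢
    rw [← neg_eq_zero, ← h2]
    abel
  exact h3

lemma act_ricci : bil Rp.act c.r c.sh' = 0 := by
  apply SF.ext; intro v
  ext a b d
  simp only [bil_val, r, ap_val, act_hom, act_self, zero_val, Hm.zero_ap, Hm.sub_ap, Rh_val, sh'_val]
  rw [c.ricci hs v.2]
  abel

lemma dt_sh'_zero : c.dt c.r c.sh' = 0 := by
  rw [c.dt_sh', c.act_ricci hs, c.nsh_zero hs, ap_zero_left, add_zero]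

lemma dt_βh_zero : c.dt c.r c.βh = 0 := by
  rw [dt_def, c.covX_βh hs, zero_add]
  apply SF.ext; intro v
  have h : c.βh.1 v = sym3 (c.sh'.1 v) := c.β_sym3 v.2
  rw [bil_val, h, eqv_sym3]
  have h3 := congrArg (fun k => k.1 v) (c.act_ricci hs)
  simp only [bil_val, zero_val] at h3
  rw [h3, map_zero]
  rfl

end Par

end Sys

end El2

end Pool.Agent.H99.TJ
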