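import Pool.Agent.H99.TJ.El2

open scoped ContDiff

namespace Pool.Agent.H99.TJ

open TopologicalSpace

set_option linter.unusedSectionVars false

section El3

variable {𝕜 : Type*} [RCLike 𝕜] {E : Type*} [NormedAddCommGroup E] [NormedSpace 𝕜 E]
variable {Ω : Opens E}
variable {F : Type*} [NormedAddCommGroup F] [NormedSpace 𝕜 F]

/-- the constant vertical field in the velocity direction -/
noncomputable def cdir (e : E) : ℕ → SF 𝕜 Ω E := fun k => cst ((Pi.single 1 e : ℕ → E) k)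

lemma dv_cdir_comm (e e' : E) (f : SF 𝕜 Ω F) :
    dv (cdir e) (dv (cdir e') f) = dv (cdir e') (dv (cdir e) f) := by
  apply dv_comm
  intro k
  unfold cdir
  rw [dv_cst, dv_cst]

lemma dv_cdir_base (e : E) (C : E → F) (hC : ContDiffOn 𝕜 ∞ C Ω) : dv (cdir e) (base C hC) = 0 := by
  rw [dv_base]
  apply SF.ext; intro v
  rw [ap_val]
  have : (cdir (𝕜 := 𝕜) (Ω := Ω) e 0).1 v = 0 := by
    change (Pi.single 1 e : ℕ → E) 0 = 0
    simp
  rw [this, map_zero]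
  rfl

lemma mulE_ap (f g : SF 𝕜 Ω (Hm 𝕜 E E)) (φ : SF 𝕜 Ω E) : ap (mulE f g) φ = ap f (ap g φ) := rfl

lemma Conn.cov_mulE (c : Conn 𝕜 Ω) (X : ℕ → SF 𝕜 Ω E) (f g : SF 𝕜 Ω (Hm 𝕜 E E)) :
    c.cov X (mulE f g) = mulE (c.cov X f) g + mulE f (c.cov X g) := by
  apply SF.ext_ap; intro x
  have e1 := c.cov_ap X (mulE f g) (cst x)
  rw [mulE_ap, mulE_ap, c.cov_ap, c.cov_ap] at e1
  have e2 : ap (c.cov X (mulE f g)) (cst x) = (ap (c.cov X (mulE f g)) (cst x)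
    + ap f (ap g (c.cov X (cst x)))) - ap f (ap g (c.cov X (cst x))) := by abel
  rw [e2, ← e1]
  apply SF.ext; intro v
  simp only [add_val, sub_val, ap_val, mulE_val, Hm.add_ap, map_add]
  abel

namespace Sys

variable (c : Sys 𝕜 Ω)

lemma D_mulE (f g : SF 𝕜 Ω (Hm 𝕜 E E)) :
    c.D (mulE f g) = mulE (c.D f) g + mulE f (c.D g) := c.cov_mulE sh f g

lemma dt_mulE (r f g : SF 𝕜 Ω (Hm 𝕜 E E)) :
    c.dt r (mulE f g) = mulE (c.dt r f) g + mulE f (c.dt r g) := by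
  rw [dt_def, dt_def, dt_def, c.cov_mulE]
  apply SF.ext; intro v
  ext x
  simp only [add_val, bil_val, act_hom, act_self, mulE_val, Hm.add_ap, map_add, map_sub]
  abel

section Par

variable (hs : ∀ u ∈ Ω, c.nab c.sg u = 0)

include hs

lemma F1_eq : c.F1 = (3:𝕜) • ap (ap (ap c.sh' (c.P 0)) (c.P 0)) (c.P 1)
    + ap (ap c.Th c.B3) (c.P 0) := by
  rw [F1, c.nβh_zero hs]
  apply SF.ext; intro v
  simp only [add_val, ap_val, smul_val, zero_val, Hm.zero_ap, add_zero]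

lemma D_sh'_zero : c.D c.sh' = 0 := c.covX_sh' hs sh

lemma D_βh_zero : c.D c.βh = 0 := c.covX_βh hs sh

/-- the leading part of the ansatz -/
noncomputable def Q2 : SF 𝕜 Ω (Hm 𝕜 E E) :=
  ap (ap c.sh' (c.P 2)) (c.P 0) + ap (ap c.sh' (c.P 0)) (c.P 2) - ap (ap c.sh' (c.P 1)) (c.P 1)

lemma Y3_eq {Y2 : SF 𝕜 Ω (Hm 𝕜 E E)} (h : c.dt c.r c.sPP = c.D Y2) :
    c.D (Y2 - c.Q2) = ap (ap c.sh' c.F1) (c.P 0) + ap (ap c.sh' (c.P 0)) c.F1 := by
  rw [map_sub, ← h, sPP, dt_ap, dt_ap, c.dt_P0, c.dt_sh'_zero hs]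
  simp only [Q2, map_add, map_sub, D_apx, D_P, c.D_sh'_zero hs]
  apply SF.ext; intro v
  simp only [add_val, sub_val, ap_val, Hm.add_ap, map_add, zero_val, Hm.zero_ap]
  abel

lemma ord_Y3 {Y2 : SF 𝕜 Ω (Hm 𝕜 E E)} (h : c.dt c.r c.sPP = c.D Y2) : OrdLE 1 (Y2 - c.Q2) := by
  apply c.ord_of_D (m := 1)
  rw [c.Y3_eq hs h]
  have o0 : OrdLE 2 (c.P 0) := (c.P_ord 0).mono (by omega)
  have os : OrdLE 2 c.sh' := OrdLE.base _ _
  exact ((os.ap c.ord_F1).ap o0).add ((os.ap o0).ap c.ord_F1)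

/-- the velocity derivative of `Y3` -/
noncomputable def fe (e : E) : SF 𝕜 Ω (Hm 𝕜 E E) :=
  (3:𝕜) • ap (ap c.sh' (ap (ap (ap c.sh' (c.P 0)) (c.P 0)) (cst e))) (c.P 0)
    + (3:𝕜) • ap (ap c.sh' (c.P 0)) (ap (ap (ap c.sh' (c.P 0)) (c.P 0)) (cst e))

lemma dv_Y3 {Y2 : SF 𝕜 Ω (Hm 𝕜 E E)} (h : c.dt c.r c.sPP = c.D Y2) (e : E) :
    dv (cdir e) (Y2 - c.Q2) = c.fe e := by
  apply SF.ext; intro v
  have h1 : (dv (cdir e) (Y2 - c.Q2)).1 v = ld 𝕜 (Y2 - c.Q2).1 v (Pi.single 1 e) := rfl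
  rw [h1, c.diff_one (c.ord_Y3 hs h), c.Y3_eq hs h, c.F1_eq hs]
  simp only [fe, B3, add_val, smul_val, ap_val, Hm.add_ap, map_add, map_smul, c.Th_val,
    c.βh_val, c.sh'_val, bump_zero, c.P_bump_lt (show 0 < 1 by omega), c.P_bump 1, cst_val]
  ext w
  simp only [Hm.add_ap, Hm.sub_ap, Hm.smul_ap, smul_add]
  abel

/-- the first quartic relation -/
theorem J1 {Y2 : SF 𝕜 Ω (Hm 𝕜 E E)} (h : c.dt c.r c.sPP = c.D Y2) {u : E} (hu : u ∈ Ω)
    (p e e' w : E) :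
    c.sg u (c.sg u e' p e + c.sg u p e' e) p w + c.sg u (c.sg u p p e) e' w
      + c.sg u e' (c.sg u p p e) w + c.sg u p (c.sg u e' p e + c.sg u p e' e) w
    = c.sg u (c.sg u e p e' + c.sg u p e e') p w + c.sg u (c.sg u p p e') e w
      + c.sg u e (c.sg u p p e') w + c.sg u p (c.sg u e p e' + c.sg u p e e') w := by
  have h1 := dv_cdir_comm e e' (Y2 - c.Q2)
  rw [c.dv_Y3 hs h, c.dv_Y3 hs h] at h1
  have dP : ∀ e : E, dv (cdir e) (c.P 0) = cst e := by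
    intro e
    change dv (cdir e) (coord 1) = _
    rw [dv_coord]
    change cst ((Pi.single 1 e : ℕ → E) 1) = cst e
    rw [Pi.single_eq_same]
  have ds : ∀ e : E, dv (cdir e) c.sh' = 0 := fun e => dv_cdir_base e _ _
  simp only [fe, map_add, map_smul, dv_ap, dP, ds, dv_cst] at h1
  have h2 := congrArg (fun k => k.1 (mkJ u hu (fun _ => p)) w) h1
  have hp : (c.P 0).1 (mkJ u hu (fun _ => p)) = p := rfl
  have hσ : c.sh'.1 (mkJ u hu (fun _ => p)) = c.sg u := rfl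
  simp only [add_val, smul_val, ap_val, zero_val, Hm.add_ap, Hm.zero_ap, Hm.smul_ap, map_add,
    map_zero, hp, hσ, cst_val, zero_add, add_zero] at h2
  simp only [map_add, Hm.add_ap]
  have h3 : ∀ a b : E, (3:𝕜) • a = (3:𝕜) • b → a = b := by
    intro a b hab
    rw [← sub_eq_zero, ← smul_sub] at hab
    exact sub_eq_zero.1 ((smul_eq_zero.1 hab).resolve_left (by norm_num))
  apply h3
  rw [← sub_eq_zero] at h2 ⊢
  rw [← neg_eq_zero, ← h2]
  module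

end Par

end Sys

end El3

end Pool.Agent.H99.TJ
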