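import Pool.Agent.H99.TJ.El3

open scoped ContDiff

namespace Pool.Agent.H99.TJ

open TopologicalSpace

set_option linter.unusedSectionVars false

section El4

variable {𝕜 : Type*} [RCLike 𝕜] {E : Type*} [NormedAddCommGroup E] [NormedSpace 𝕜 E]
variable {Ω : Opens E}
variable {F : Type*} [NormedAddCommGroup F] [NormedSpace 𝕜 F]

namespace Sys

variable (c : Sys 𝕜 Ω)

noncomputable def s13 : SF 𝕜 Ω (Hm 𝕜 E E) := ap (Conn.fl (ap c.sh' (c.P 0))) (c.P 0)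
noncomputable def cT : SF 𝕜 Ω (Hm 𝕜 E E) := ap c.Th c.B3 - (3:𝕜) • mulE c.T0 c.bPP
noncomputable def Gp : SF 𝕜 Ω (Hm 𝕜 E E) :=
  - c.D c.T0 + c.T1 + (2:𝕜) • c.X0 - (1/2:𝕜) • mulE c.T0 c.T0 - (2:𝕜) • c.sPP + (1/2:𝕜) • c.s13

/-- commutator -/
noncomputable def br (f g : SF 𝕜 Ω (Hm 𝕜 E E)) : SF 𝕜 Ω (Hm 𝕜 E E) := mulE f g - mulE g f

lemma DT0_val (v : Jets Ω) (x : E) : (c.D c.T0).1 v x =
    c.T (v.1 0) (v.1 1) (c.T (v.1 0) (v.1 1) x) - c.R (v.1 0) x (v.1 1) (v.1 1)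
      - (3:𝕜) • c.β (v.1 0) (v.1 1) (v.1 1) x + (3:𝕜) • c.sg (v.1 0) (v.1 1) (v.1 1) x
      + c.T (v.1 0) ((c.P 1).1 v) x := by
  simp only [T0, D_apx, D_P, D_Th, add_val, ap_val, Hm.add_ap, c.Th_val, c.nTh_val, c.P0_val]
  rw [c.nabT_dl, c.R_skew _ x, c.sg_pp v.2]
  abel

section Par

variable (hs : ∀ u ∈ Ω, c.nab c.sg u = 0)
  (hA : ∀ u ∈ Ω, ∀ p e : E, c.nab c.R u p e p = c.R u (c.T u p e) p)

include hs hA

lemma G_eq : c.cb + c.r + (3:𝕜) • br c.sPP c.T0 - (3/2:𝕜) • br (c.D c.T0) c.T0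
    = c.D c.Gp + (3:𝕜) • ap (ap c.sh' (c.P 1)) (c.P 0) + c.cT := by
  have hDT1 : c.D c.T1 = ap (ap c.nTh (c.P 0)) (c.P 1) + ap c.Th (c.P 2) := by
    rw [T1, D_apx, D_Th]; rfl
  have hDX : c.D c.X0 = s1 (ap c.nRh (c.P 0)) (c.P 0) (c.P 0) + s1 c.Rh (c.P 1) (c.P 0)
      + s1 c.Rh (c.P 0) (c.P 1) := by
    rw [X0, c.cov_s1 sh, c.cov_Rh]; rfl
  have hDs : c.D c.sPP = ap (ap c.sh' (c.P 1)) (c.P 0) + ap (ap c.sh' (c.P 0)) (c.P 1) := by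
    rw [sPP, D_apx, D_apx, c.D_sh'_zero hs]
    apply SF.ext; intro v
    simp only [add_val, ap_val, zero_val, Hm.zero_ap, zero_add, D_P]
  have hDs13 : c.D c.s13 = ap (Conn.fl (ap c.sh' (c.P 1))) (c.P 0)
      + ap (Conn.fl (ap c.sh' (c.P 0))) (c.P 1) := by
    rw [s13, D_apx]
    have : c.D (Conn.fl (ap c.sh' (c.P 0))) = Conn.fl (ap c.sh' (c.P 1)) := by
      rw [Conn.D, c.cov_fl]
      congr 1
      change c.D (ap c.sh' (c.P 0)) = _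
      rw [D_apx, c.D_sh'_zero hs]
      apply SF.ext; intro v
      simp only [add_val, ap_val, zero_val, Hm.zero_ap, zero_add, D_P]
    rw [this, D_P]
  have hDG : c.D c.Gp = - c.D (c.D c.T0) + c.D c.T1 + (2:𝕜) • c.D c.X0
      - (1/2:𝕜) • (mulE (c.D c.T0) c.T0 + mulE c.T0 (c.D c.T0)) - (2:𝕜) • c.D c.sPP
      + (1/2:𝕜) • c.D c.s13 := by
    rw [Gp, map_add, map_sub, map_sub, map_add, map_add, map_neg, map_smul, map_smul, map_smul,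
      map_smul, D_mulE]
  rw [hDG, cb]
  set DD := c.D (c.D c.T0) with hDD
  rw [hDT1, hDX, hDs, hDs13]
  apply SF.ext; intro v
  ext w
  have t0 : ∀ x, c.T0.1 v x = c.T (v.1 0) (v.1 1) x := fun x => rfl
  have x0 : ∀ x, c.X0.1 v x = c.R (v.1 0) x (v.1 1) (v.1 1) := fun x => rfl
  have hnβ : ∀ x, c.nab c.β (v.1 0) x = 0 := fun x => by rw [c.nβ_zero hs v.2]; rfl
  simp only [br, cT, B3, r, K, T1, bPP, sPP, add_val, sub_val, neg_val, smul_val, ap_val, mulE_val,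
    s1_val, s0_val, Hm.add_ap, Hm.sub_ap, Hm.neg_ap, Hm.smul_ap, map_add, c.DT0_val, t0, x0,
    c.Th_val, c.Rh_val, c.nTh_val, c.nRh_val, c.βh_val, c.nβh_val, c.sh'_val, c.P0_val, Conn.fl_val,
    map_sub, map_smul, hnβ, Hm.zero_ap, c.nabT_dl]
  rw [hA _ v.2]
  have d1 := c.dl_eq v.2 w (v.1 1) ((c.P 1).1 v)
  have d2 := c.dl_eq v.2 (v.1 1) ((c.P 1).1 v) w
  have s1' := c.sg_symm v.2 w ((c.P 1).1 v) (v.1 1)
  have s2' := c.sg_symm v.2 w (v.1 1) ((c.P 1).1 v)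
  have s3' := c.sg_symm v.2 ((c.P 1).1 v) w (v.1 1)
  rw [d1, d2, s1', s2', s3', c.T_skew _ (c.T (v.1 0) (v.1 1) ((c.P 1).1 v)) w,
    c.R_skew _ ((c.P 1).1 v) (v.1 1) w, c.R_skew _ ((c.P 1).1 v) w]
  module

/-- the reduced equation -/
theorem lax2 (hr : c.D c.r = ap (ap c.Rh c.K) (c.P 0)) {Θ Y Y2 : SF 𝕜 Ω (Hm 𝕜 E E)}
    (hY2 : c.dt c.r c.sPP = c.D Y2) (hΘ : Θ = (3:𝕜) • (Y2 - c.dt c.r c.T0))
    (hY : c.dt c.r (c.cb + c.r) - (1/3:𝕜) • (mulE c.ca Θ - mulE Θ c.ca) = c.D Y) :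
    ∃ Y' : SF 𝕜 Ω (Hm 𝕜 E E),
      c.dt c.r ((3:𝕜) • ap (ap c.sh' (c.P 1)) (c.P 0) + c.cT) - (3:𝕜) • br c.sPP Y2 = c.D Y' := by
  refine ⟨Y - c.dt c.r c.Gp - (3:𝕜) • br c.T0 Y2 + (3/2:𝕜) • br c.T0 (c.dt c.r c.T0), ?_⟩
  have hG := c.G_eq hs hA
  have h1 : (3:𝕜) • ap (ap c.sh' (c.P 1)) (c.P 0) + c.cT
      = (c.cb + c.r) + (3:𝕜) • br c.sPP c.T0 - (3/2:𝕜) • br (c.D c.T0) c.T0 - c.D c.Gp := by
    rw [hG]; abel
  have h2 : c.dt c.r (c.cb + c.r) = c.D Y + (1/3:𝕜) • (mulE c.ca Θ - mulE Θ c.ca) := by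
    rw [← hY]; abel
  rw [h1]
  simp only [br, map_add, map_sub, map_smul, dt_mulE, D_mulE, c.dtD_end hr, hY2]
  rw [← map_add (c.dt c.r), h2, c.ca_eq, hΘ]
  generalize c.D c.T0 = DT
  generalize c.dt c.r c.T0 = dT
  apply SF.ext; intro v
  ext w
  simp only [add_val, sub_val, smul_val, mulE_val, Hm.add_ap, Hm.sub_ap, Hm.smul_ap, map_sub,
    map_smul]
  module

end Par

/-- the polarised obstruction -/
noncomputable def Cf (t : SF 𝕜 Ω (Hm 𝕜 E (Hm 𝕜 E E))) (x y z : SF 𝕜 Ω E) : SF 𝕜 Ω (Hm 𝕜 E E) :=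
  ap t (ap (ap (ap c.βh x) y) z) - mulE (ap t x) (ap (ap c.βh y) z) - mulE (ap t y) (ap (ap c.βh x) z)
    - mulE (ap t z) (ap (ap c.βh x) y)

lemma Cf_val (t : SF 𝕜 Ω (Hm 𝕜 E (Hm 𝕜 E E))) (x y z : SF 𝕜 Ω E) (v : Jets Ω) (w : E) :
    (c.Cf t x y z).1 v w = t.1 v (c.β (v.1 0) (x.1 v) (y.1 v) (z.1 v)) w
      - t.1 v (x.1 v) (c.β (v.1 0) (y.1 v) (z.1 v) w) - t.1 v (y.1 v) (c.β (v.1 0) (x.1 v) (z.1 v) w)
      - t.1 v (z.1 v) (c.β (v.1 0) (x.1 v) (y.1 v) w) := rfl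

lemma Cf_cT : c.cT = c.Cf c.Th (c.P 0) (c.P 0) (c.P 0) := by
  apply SF.ext; intro v
  ext w
  rw [c.Cf_val]
  simp only [cT, B3, T0, bPP, sub_val, smul_val, ap_val, mulE_val, Hm.sub_ap, Hm.smul_ap, c.βh_val]
  module

section Par2

variable (hs : ∀ u ∈ Ω, c.nab c.sg u = 0)

include hs

lemma D_Cf (t : SF 𝕜 Ω (Hm 𝕜 E (Hm 𝕜 E E))) (x y z : SF 𝕜 Ω E) :
    c.D (c.Cf t x y z) = c.Cf (c.D t) x y z + c.Cf t (c.D x) y z + c.Cf t x (c.D y) z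
      + c.Cf t x y (c.D z) := by
  simp only [Cf, map_sub, D_mulE, D_apx, c.D_βh_zero hs]
  apply SF.ext; intro v
  ext w
  simp only [add_val, sub_val, ap_val, mulE_val, zero_val, Hm.add_ap, Hm.sub_ap, Hm.zero_ap, map_add,
    zero_add]
  abel

lemma dt_Cf (t : SF 𝕜 Ω (Hm 𝕜 E (Hm 𝕜 E E))) (x y z : SF 𝕜 Ω E) :
    c.dt c.r (c.Cf t x y z) = c.Cf (c.dt c.r t) x y z + c.Cf t (c.dt c.r x) y z
      + c.Cf t x (c.dt c.r y) z + c.Cf t x y (c.dt c.r z) := by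
  simp only [Cf, map_sub, dt_mulE, dt_ap, c.dt_βh_zero hs]
  apply SF.ext; intro v
  ext w
  simp only [add_val, sub_val, ap_val, mulE_val, zero_val, Hm.add_ap, Hm.sub_ap, Hm.zero_ap, map_add,
    zero_add]
  abel

/-- the reduced equation after removing exact terms -/
theorem lax3 (hr : c.D c.r = ap (ap c.Rh c.K) (c.P 0)) {Y' Y2 : SF 𝕜 Ω (Hm 𝕜 E E)}
    (hY' : c.dt c.r ((3:𝕜) • ap (ap c.sh' (c.P 1)) (c.P 0) + c.cT) - (3:𝕜) • br c.sPP Y2 = c.D Y') :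
    ∃ Y : SF 𝕜 Ω (Hm 𝕜 E E), c.D Y = (3:𝕜) • ap (ap c.sh' (c.P 1)) c.F1
      - (3:𝕜) • ap (ap c.sh' c.F1) (c.P 1) + c.dt c.r c.cT - (3:𝕜) • br c.sPP Y2 := by
  refine ⟨Y' - (3:𝕜) • (ap (ap c.sh' (c.P 3)) (c.P 0) - ap (ap c.sh' (c.P 2)) (c.P 1)
    + ap (ap c.sh' (c.P 1)) (c.P 2)) - (3:𝕜) • ap (ap c.sh' c.F1) (c.P 0), ?_⟩
  have h1 : c.dt c.r (c.P 1) = c.P 4 + c.D c.F1 := by
    have : c.dt c.r (c.D (c.P 0)) = c.D (c.dt c.r (c.P 0)) := c.dtD_vec hr _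
    rw [c.dt_P0, map_add] at this
    exact this
  rw [map_sub, map_sub, ← hY']
  simp only [map_add, map_sub, map_smul, dt_ap, D_apx, c.dt_sh'_zero hs, c.D_sh'_zero hs, h1,
    c.dt_P0, D_P]
  apply SF.ext; intro v
  ext w
  simp only [add_val, sub_val, smul_val, ap_val, zero_val, Hm.add_ap, Hm.sub_ap, Hm.smul_ap,
    Hm.zero_ap, map_add, zero_add]
  module

end Par2

end Sys

end El4

end Pool.Agent.H99.TJ
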