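import Pool.Agent.H99.TJ.El4

open scoped ContDiff

namespace Pool.Agent.H99.TJ

open TopologicalSpace

set_option linter.unusedSectionVars false

section El5

variable {𝕜 : Type*} [RCLike 𝕜] {E : Type*} [NormedAddCommGroup E] [NormedSpace 𝕜 E]
variable {Ω : Opens E}
variable {F : Type*} [NormedAddCommGroup F] [NormedSpace 𝕜 F]

namespace Sys

variable (c : Sys 𝕜 Ω)

lemma Cf_swap (t : SF 𝕜 Ω (Hm 𝕜 E (Hm 𝕜 E E))) (x y z : SF 𝕜 Ω E) : c.Cf t x y z = c.Cf t y x z := by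
  apply SF.ext; intro v
  ext w
  rw [c.Cf_val, c.Cf_val, c.βs1 (v.1 0) v.2 (x.1 v) (y.1 v) (z.1 v), c.βs1 (v.1 0) v.2 (x.1 v) (y.1 v) w]
  abel

lemma Cf_swap' (t : SF 𝕜 Ω (Hm 𝕜 E (Hm 𝕜 E E))) (x y z : SF 𝕜 Ω E) : c.Cf t x y z = c.Cf t x z y := by
  apply SF.ext; intro v
  ext w
  rw [c.Cf_val, c.Cf_val, c.βs2 (v.1 0) v.2 (x.1 v) (y.1 v), c.βs1 (v.1 0) v.2 (y.1 v) (z.1 v)]
  abel

lemma Cf_add (t : SF 𝕜 Ω (Hm 𝕜 E (Hm 𝕜 E E))) (x x' y z : SF 𝕜 Ω E) :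
    c.Cf t (x + x') y z = c.Cf t x y z + c.Cf t x' y z := by
  apply SF.ext; intro v
  ext w
  simp only [add_val, c.Cf_val, Hm.add_ap, map_add]
  abel

lemma Cf_addt (t t' : SF 𝕜 Ω (Hm 𝕜 E (Hm 𝕜 E E))) (x y z : SF 𝕜 Ω E) :
    c.Cf (t + t') x y z = c.Cf t x y z + c.Cf t' x y z := by
  apply SF.ext; intro v
  ext w
  simp only [add_val, c.Cf_val, Hm.add_ap]
  abel

lemma ord_Cf {m : ℕ} {t : SF 𝕜 Ω (Hm 𝕜 E (Hm 𝕜 E E))} {x y z : SF 𝕜 Ω E} (ht : OrdLE m t)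
    (hx : OrdLE m x) (hy : OrdLE m y) (hz : OrdLE m z) : OrdLE m (c.Cf t x y z) := by
  have hb : OrdLE m c.βh := OrdLE.base _ _
  unfold Cf
  exact ((((ht.ap (((hb.ap hx).ap hy).ap hz)).sub ((ht.ap hx).mulE ((hb.ap hy).ap hz))).sub
    ((ht.ap hy).mulE ((hb.ap hx).ap hz))).sub ((ht.ap hz).mulE ((hb.ap hx).ap hy)))

lemma br_self (f : SF 𝕜 Ω (Hm 𝕜 E E)) : br f f = 0 := sub_self _

lemma br_add (f g h : SF 𝕜 Ω (Hm 𝕜 E E)) : br f (g + h) = br f g + br f h := by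
  apply SF.ext; intro v
  ext w
  simp only [br, add_val, sub_val, Hm.add_ap, Hm.sub_ap, mulE_val, map_add]
  abel

lemma br_sub (f g h : SF 𝕜 Ω (Hm 𝕜 E E)) : br f (g - h) = br f g - br f h := by
  apply SF.ext; intro v
  ext w
  simp only [br, sub_val, Hm.sub_ap, mulE_val, map_sub]
  abel

lemma br_smul (s : 𝕜) (f g : SF 𝕜 Ω (Hm 𝕜 E E)) : br f (s • g) = s • br f g := by
  apply SF.ext; intro v
  ext w
  simp only [br, sub_val, smul_val, Hm.sub_ap, Hm.smul_ap, mulE_val, map_smul, smul_sub]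

lemma D_br (f g : SF 𝕜 Ω (Hm 𝕜 E E)) : c.D (br f g) = br (c.D f) g + br f (c.D g) := by
  simp only [br, map_sub, D_mulE]
  abel

lemma ord_br {m : ℕ} {f g : SF 𝕜 Ω (Hm 𝕜 E E)} (hf : OrdLE m f) (hg : OrdLE m g) :
    OrdLE m (br f g) := (hf.mulE hg).sub (hg.mulE hf)

/-- the symmetrised first derivative of `σ(P,P,·)` -/
noncomputable def s1s : SF 𝕜 Ω (Hm 𝕜 E E) :=
  ap (ap c.sh' (c.P 1)) (c.P 0) + ap (ap c.sh' (c.P 0)) (c.P 1)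

noncomputable def s11 : SF 𝕜 Ω (Hm 𝕜 E E) := ap (ap c.sh' (c.P 1)) (c.P 1)

noncomputable def aT : SF 𝕜 Ω (Hm 𝕜 E (Hm 𝕜 E E)) := bil Rp.act c.r c.Th

lemma dt_Th : c.dt c.r c.Th = ap c.nTh c.K + c.aT := by
  rw [dt_def, c.cov_Th]; rfl

section Par

variable (hs : ∀ u ∈ Ω, c.nab c.sg u = 0)

include hs

lemma D_sPP : c.D c.sPP = c.s1s := by
  rw [sPP, D_apx, D_apx, c.D_sh'_zero hs]
  apply SF.ext; intro v
  simp only [s1s, add_val, ap_val, zero_val, Hm.zero_ap, zero_add, D_P]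

lemma D_s1s : c.D c.s1s = (ap (ap c.sh' (c.P 2)) (c.P 0) + ap (ap c.sh' (c.P 0)) (c.P 2))
    + (2:𝕜) • c.s11 := by
  simp only [s1s, map_add, D_apx, c.D_sh'_zero hs, D_P]
  apply SF.ext; intro v
  simp only [s11, add_val, smul_val, ap_val, zero_val, Hm.zero_ap, zero_add]
  module

/-- the remainder in the `c`-step -/
noncomputable def G3 (Y3 : SF 𝕜 Ω (Hm 𝕜 E E)) : SF 𝕜 Ω (Hm 𝕜 E E) :=
  (3:𝕜) • ap (ap c.sh' (c.P 1)) c.F1 - (3:𝕜) • ap (ap c.sh' c.F1) (c.P 1)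
    + c.Cf (ap c.nTh (ap (ap c.Th (c.P 0)) (c.P 1)) + ap c.nTh c.B3 + c.aT) (c.P 0) (c.P 0) (c.P 0)
    + (3:𝕜) • c.Cf c.Th c.F1 (c.P 0) (c.P 0)
    - (3:𝕜) • br c.sPP Y3 + (9:𝕜) • br c.sPP c.s11
    + (9:𝕜) • c.Cf (ap c.nTh (c.P 0)) (c.P 0) (c.P 1) (c.P 1)
    + (3:𝕜) • c.Cf c.Th (c.P 1) (c.P 1) (c.P 1)
    - c.Cf (ap (c.D c.nTh) (c.P 1)) (c.P 0) (c.P 0) (c.P 0)
    + (3:𝕜) • c.Cf (ap (c.D c.nTh) (c.P 0)) (c.P 0) (c.P 0) (c.P 1)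

lemma G3_eq {Y Y2 : SF 𝕜 Ω (Hm 𝕜 E E)}
    (hY : c.D Y = (3:𝕜) • ap (ap c.sh' (c.P 1)) c.F1
      - (3:𝕜) • ap (ap c.sh' c.F1) (c.P 1) + c.dt c.r c.cT - (3:𝕜) • br c.sPP Y2) :
    c.D (Y - (3:𝕜) • c.Cf c.Th (c.P 0) (c.P 0) (c.P 2) + (3:𝕜) • c.Cf c.Th (c.P 0) (c.P 1) (c.P 1)
      - c.Cf (ap c.nTh (c.P 1)) (c.P 0) (c.P 0) (c.P 0)
      + (3:𝕜) • c.Cf (ap c.nTh (c.P 0)) (c.P 0) (c.P 0) (c.P 1) + (3:𝕜) • br c.sPP c.s1s)
    = c.G3 (Y2 - c.Q2) := by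
  have hK : ap c.nTh c.K = ap c.nTh (c.P 2) + (ap c.nTh (ap (ap c.Th (c.P 0)) (c.P 1)) + ap c.nTh c.B3) := by
    apply SF.ext; intro v
    simp only [K, B3, add_val, ap_val, map_add]
    abel
  have hc : c.dt c.r c.cT = c.Cf (ap c.nTh (c.P 2)) (c.P 0) (c.P 0) (c.P 0)
      + c.Cf (ap c.nTh (ap (ap c.Th (c.P 0)) (c.P 1)) + ap c.nTh c.B3 + c.aT) (c.P 0) (c.P 0) (c.P 0)
      + (3:𝕜) • (c.Cf c.Th (c.P 3) (c.P 0) (c.P 0) + c.Cf c.Th c.F1 (c.P 0) (c.P 0)) := by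
    rw [c.Cf_cT, c.dt_Cf hs, c.dt_P0, c.dt_Th, hK,
      c.Cf_swap' c.Th (c.P 0) (c.P 0) (c.P 3 + c.F1), c.Cf_swap c.Th (c.P 0) (c.P 3 + c.F1), c.Cf_add,
      add_assoc (ap c.nTh (c.P 2)), c.Cf_addt (ap c.nTh (c.P 2))]
    module
  have hQ : br c.sPP Y2 = br c.sPP (Y2 - c.Q2)
      + br c.sPP (ap (ap c.sh' (c.P 2)) (c.P 0) + ap (ap c.sh' (c.P 0)) (c.P 2)) - br c.sPP c.s11 := by
    rw [← br_add, ← br_sub]
    congr 1
    rw [Q2, s11]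
    abel
  have e1 : c.D (c.Cf c.Th (c.P 0) (c.P 0) (c.P 2)) = c.Cf (ap c.nTh (c.P 0)) (c.P 0) (c.P 0) (c.P 2)
      + (2:𝕜) • c.Cf c.Th (c.P 0) (c.P 1) (c.P 2) + c.Cf c.Th (c.P 3) (c.P 0) (c.P 0) := by
    rw [c.D_Cf hs, D_P, D_P, D_Th, c.Cf_swap c.Th (c.P 1) (c.P 0), c.Cf_swap' c.Th (c.P 0) (c.P 0) (c.P 3),
      c.Cf_swap c.Th (c.P 0) (c.P 3)]
    module
  have e2 : c.D (c.Cf c.Th (c.P 0) (c.P 1) (c.P 1)) = c.Cf (ap c.nTh (c.P 0)) (c.P 0) (c.P 1) (c.P 1)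
      + c.Cf c.Th (c.P 1) (c.P 1) (c.P 1) + (2:𝕜) • c.Cf c.Th (c.P 0) (c.P 1) (c.P 2) := by
    rw [c.D_Cf hs, D_P, D_P, D_Th, c.Cf_swap' c.Th (c.P 0) (c.P 2) (c.P 1)]
    module
  have e3 : c.D (c.Cf (ap c.nTh (c.P 1)) (c.P 0) (c.P 0) (c.P 0))
      = c.Cf (ap (c.D c.nTh) (c.P 1)) (c.P 0) (c.P 0) (c.P 0)
        + c.Cf (ap c.nTh (c.P 2)) (c.P 0) (c.P 0) (c.P 0)
        + (3:𝕜) • c.Cf (ap c.nTh (c.P 1)) (c.P 0) (c.P 0) (c.P 1) := by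
    rw [c.D_Cf hs, D_apx, D_P, D_P, c.Cf_addt, c.Cf_swap (ap c.nTh (c.P 1)) (c.P 1) (c.P 0) (c.P 0),
      c.Cf_swap' (ap c.nTh (c.P 1)) (c.P 0) (c.P 1) (c.P 0)]
    module
  have e4 : c.D (c.Cf (ap c.nTh (c.P 0)) (c.P 0) (c.P 0) (c.P 1))
      = c.Cf (ap (c.D c.nTh) (c.P 0)) (c.P 0) (c.P 0) (c.P 1)
        + c.Cf (ap c.nTh (c.P 1)) (c.P 0) (c.P 0) (c.P 1)
        + (2:𝕜) • c.Cf (ap c.nTh (c.P 0)) (c.P 0) (c.P 1) (c.P 1)
        + c.Cf (ap c.nTh (c.P 0)) (c.P 0) (c.P 0) (c.P 2) := by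
    rw [c.D_Cf hs, D_apx, D_P, D_P, c.Cf_addt, c.Cf_swap (ap c.nTh (c.P 0)) (c.P 1) (c.P 0) (c.P 1)]
    module
  have e5 : c.D (br c.sPP c.s1s)
      = br c.sPP (ap (ap c.sh' (c.P 2)) (c.P 0) + ap (ap c.sh' (c.P 0)) (c.P 2))
        + (2:𝕜) • br c.sPP c.s11 := by
    rw [D_br, c.D_sPP hs, br_self, zero_add, c.D_s1s hs, br_add, br_smul]
  simp only [map_add, map_sub, map_smul, e1, e2, e3, e4, e5, hY, hc, hQ, G3]
  module

omit hs in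
lemma P1_val (v : Jets Ω) : (c.P 1).1 v = v.1 2 + c.α (v.1 0) (v.1 1) (v.1 1) := by
  change (c.cov sh (coord 1)).1 v = _
  rw [c.cov_vec, dv_coord]
  rfl

omit hs in
lemma ord_G3 {Y3 : SF 𝕜 Ω (Hm 𝕜 E E)} (h : OrdLE 1 Y3) : OrdLE 2 (c.G3 Y3) := by
  have o0 : OrdLE 2 (c.P 0) := (c.P_ord 0).mono (by omega)
  have o1 : OrdLE 2 (c.P 1) := c.P_ord 1
  have oB : OrdLE 2 c.B3 := c.ord_B3.mono (by omega)
  have oF := c.ord_F1
  have os : OrdLE 2 c.sh' := OrdLE.base _ _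
  have oT : OrdLE 2 c.Th := OrdLE.base _ _
  have oR : OrdLE 2 c.Rh := OrdLE.base _ _
  have onT : OrdLE 2 c.nTh := OrdLE.base _ _
  have or' : OrdLE 2 c.r := (oR.ap o1).ap o0
  have oa : OrdLE 2 c.aT := OrdLE.bil or' oT
  have oD : OrdLE 2 (c.D c.nTh) := (c.ord_D (m := 0) (OrdLE.base _ _)).mono (by omega)
  have osp : OrdLE 2 c.sPP := (os.ap o0).ap o0
  have os11 : OrdLE 2 c.s11 := (os.ap o1).ap o1
  unfold G3
  exact (((((((((((os.ap o1).ap oF).smul _).sub (((os.ap oF).ap o1).smul _)).add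
    (c.ord_Cf (((onT.ap ((oT.ap o0).ap o1)).add (onT.ap oB)).add oa) o0 o0 o0)).add
    ((c.ord_Cf oT oF o0 o0).smul _)).sub ((ord_br osp (h.mono (by omega))).smul _)).add
    ((ord_br osp os11).smul _)).add ((c.ord_Cf (onT.ap o0) o0 o1 o1).smul _)).add
    ((c.ord_Cf oT o1 o1 o1).smul _)).sub (c.ord_Cf (oD.ap o1) o0 o0 o0)).add
    ((c.ord_Cf (oD.ap o0) o0 o0 o1).smul _)

omit hs in
/-- total derivatives of first order functions are linear at rest points -/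
lemma lin_rest [Rp 𝕜 E F] {Y : SF 𝕜 Ω F} (h : OrdLE 1 Y) {u : E} (hu : u ∈ Ω) (q : E) (t : 𝕜) :
    (c.D Y).1 (mkJ u hu (fun k => if k = 1 then t • q else 0))
      = t • (c.D Y).1 (mkJ u hu (fun k => if k = 1 then q else 0)) := by
  rw [c.D_val, c.D_val]
  have e1 : ∀ q : E, (mkJ u hu (fun k => if k = 1 then q else 0)).1 1 = 0 := fun q => rfl
  rw [e1, e1, map_zero, map_zero]
  have h1 : ld 𝕜 Y.1 (mkJ u hu (fun k => if k = 1 then t • q else 0))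
      (fun k => (mkJ u hu (fun k => if k = 1 then t • q else 0)).1 (k+1))
      = ld 𝕜 Y.1 (mkJ u hu (fun k => if k = 1 then q else 0))
        (t • fun k => (mkJ u hu (fun k => if k = 1 then q else 0)).1 (k+1)) := by
    apply ld_congr h
    · intro k hk
      interval_cases k <;> rfl
    · intro k hk
      interval_cases k
      · change (0:E) = t • 0
        rw [smul_zero]
      · rfl
  rw [h1, Y.sm.ld_smul_dir]
  simp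

theorem c_zero {Y Y2 : SF 𝕜 Ω (Hm 𝕜 E E)} (hY2 : c.dt c.r c.sPP = c.D Y2)
    (hY : c.D Y = (3:𝕜) • ap (ap c.sh' (c.P 1)) c.F1
      - (3:𝕜) • ap (ap c.sh' c.F1) (c.P 1) + c.dt c.r c.cT - (3:𝕜) • br c.sPP Y2)
    {u : E} (hu : u ∈ Ω) (q w : E) :
    c.T u (c.β u q q q) w = (3:𝕜) • c.T u q (c.β u q q w) := by
  have hG := c.G3_eq hs hY
  set Yc := (Y - (3:𝕜) • c.Cf c.Th (c.P 0) (c.P 0) (c.P 2) + (3:𝕜) • c.Cf c.Th (c.P 0) (c.P 1) (c.P 1)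
      - c.Cf (ap c.nTh (c.P 1)) (c.P 0) (c.P 0) (c.P 0)
      + (3:𝕜) • c.Cf (ap c.nTh (c.P 0)) (c.P 0) (c.P 0) (c.P 1) + (3:𝕜) • br c.sPP c.s1s) with hYc
  have ho : OrdLE 1 Yc := c.ord_of_D (m := 1) (by rw [hG]; exact c.ord_G3 (c.ord_Y3 hs hY2))
  have hval : ∀ q : E, (c.G3 (Y2 - c.Q2)).1 (mkJ u hu (fun k => if k = 1 then q else 0)) w
      = (3:𝕜) • (c.T u (c.β u q q q) w - (3:𝕜) • c.T u q (c.β u q q w)) := by
    intro q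
    set v := mkJ u hu (fun k => if k = 1 then q else 0) with hv
    have hp0 : (c.P 0).1 v = 0 := rfl
    have hp1 : (c.P 1).1 v = q := by
      rw [c.P1_val]
      have e1 : v.1 2 = q := rfl
      have e2 : v.1 1 = 0 := rfl
      rw [e1, e2, map_zero, add_zero]
    have hF : c.F1.1 v = 0 := by
      simp only [F1, add_val, smul_val, ap_val, hp0, map_zero, Hm.zero_ap, smul_zero, add_zero]
    have hu0 : v.1 0 = u := rfl
    simp only [G3, add_val, sub_val, smul_val, Hm.add_ap, Hm.sub_ap, Hm.smul_ap, c.Cf_val, br,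
      mulE_val, sPP, s11, ap_val, hp0, hp1, hF, map_zero, Hm.zero_ap, smul_zero, sub_zero, add_zero,
      zero_add, c.Th_val, c.sh'_val, hu0]
    module
  have h1 := c.lin_rest ho hu q 2
  rw [hG] at h1
  have h2 := congrArg (fun f => f w) h1
  simp only [Hm.smul_ap] at h2
  rw [hval, hval] at h2
  simp only [map_smul, Hm.smul_ap] at h2
  rw [← sub_eq_zero]
  have h3 : (18:𝕜) • (c.T u (c.β u q q q) w - (3:𝕜) • c.T u q (c.β u q q w)) = 0 := by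
    rw [← sub_eq_zero] at h2
    rw [← h2]
    module
  exact (smul_eq_zero.1 h3).resolve_left (by norm_num)

omit hs in
lemma cT_zero (h : ∀ u ∈ Ω, ∀ q w : E, c.T u (c.β u q q q) w = (3:𝕜) • c.T u q (c.β u q q w)) :
    c.cT = 0 := by
  apply SF.ext; intro v
  ext w
  simp only [cT, B3, T0, bPP, sub_val, smul_val, ap_val, mulE_val, Hm.sub_ap, Hm.smul_ap, c.Th_val,
    c.βh_val, zero_val, Hm.zero_ap]
  rw [h _ v.2, sub_self]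

/-- the second quartic relation -/
theorem J2 {Y Y2 : SF 𝕜 Ω (Hm 𝕜 E E)} (hY2 : c.dt c.r c.sPP = c.D Y2)
    (hY : c.D Y = (3:𝕜) • ap (ap c.sh' (c.P 1)) c.F1
      - (3:𝕜) • ap (ap c.sh' c.F1) (c.P 1) + c.dt c.r c.cT - (3:𝕜) • br c.sPP Y2)
    {u : E} (hu : u ∈ Ω) (p e w : E) :
    c.sg u e (c.sg u p p e) w - c.sg u (c.sg u p p e) e w + c.sg u p p (c.sg u e e w)
      - c.sg u e e (c.sg u p p w) = 0 := by
  have hc := c.cT_zero (fun u hu q w => c.c_zero hs hY2 hY hu q w)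
  rw [hc, map_zero, add_zero] at hY
  have hQ : br c.sPP Y2 = br c.sPP (Y2 - c.Q2)
      + br c.sPP (ap (ap c.sh' (c.P 2)) (c.P 0) + ap (ap c.sh' (c.P 0)) (c.P 2)) - br c.sPP c.s11 := by
    rw [← br_add, ← br_sub]
    congr 1
    rw [Q2, s11]
    abel
  have e5 : c.D (br c.sPP c.s1s)
      = br c.sPP (ap (ap c.sh' (c.P 2)) (c.P 0) + ap (ap c.sh' (c.P 0)) (c.P 2))
        + (2:𝕜) • br c.sPP c.s11 := by
    rw [D_br, c.D_sPP hs, br_self, zero_add, c.D_s1s hs, br_add, br_smul]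
  have oY3 := c.ord_Y3 hs hY2
  set Y3 := Y2 - c.Q2 with hY3
  have hG : c.D (Y + (3:𝕜) • br c.sPP c.s1s) = (3:𝕜) • ap (ap c.sh' (c.P 1)) c.F1
      - (3:𝕜) • ap (ap c.sh' c.F1) (c.P 1) - (3:𝕜) • br c.sPP Y3 + (9:𝕜) • br c.sPP c.s11 := by
    rw [map_add, map_smul, e5, hY, hQ]
    module
  have o0 : OrdLE 2 (c.P 0) := (c.P_ord 0).mono (by omega)
  have o1 : OrdLE 2 (c.P 1) := c.P_ord 1
  have oF := c.ord_F1
  have os : OrdLE 2 c.sh' := OrdLE.base _ _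
  have osp : OrdLE 2 c.sPP := (os.ap o0).ap o0
  have os11 : OrdLE 2 c.s11 := (os.ap o1).ap o1
  have ho : OrdLE 1 (Y + (3:𝕜) • br c.sPP c.s1s) := by
    apply c.ord_of_D (m := 1)
    rw [hG]
    exact (((((os.ap o1).ap oF).smul _).sub (((os.ap oF).ap o1).smul _)).sub
      ((ord_br osp (oY3.mono (by omega))).smul _)).add ((ord_br osp os11).smul _)
  set v := mkJ u hu (fun _ => p) with hv
  have h2 := c.second_diff ho v e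
  rw [hG] at h2
  have oY : ∀ e : E, Y3.1 (bump v 1 e) = Y3.1 v := fun e => ord_bump le_rfl oY3 v e
  have h3 := congrArg (fun f => f w) h2
  have hp : (c.P 0).1 v = p := rfl
  have hu0 : v.1 0 = u := rfl
  simp only [F1, br, sPP, s11, B3, add_val, sub_val, smul_val, ap_val, mulE_val, Hm.add_ap,
    Hm.sub_ap, Hm.smul_ap, Hm.zero_ap, map_add, map_smul, c.Th_val, c.nβh_val,
    c.βh_val, c.sh'_val, bump_zero, c.P_bump_lt (show 0 < 1 by omega), c.P_bump 1, oY, hp, hu0] at h3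
  have h4 : (18:𝕜) • (c.sg u e (c.sg u p p e) w - c.sg u (c.sg u p p e) e w + c.sg u p p (c.sg u e e w)
      - c.sg u e e (c.sg u p p w)) = 0 := by
    rw [← h3]
    module
  exact (smul_eq_zero.1 h4).resolve_left (by norm_num)

end Par

end Sys

end El5

end Pool.Agent.H99.TJ
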