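import Pool.Agent.H99.TJ.Bridge

open scoped ContDiff

namespace Pool.Agent.H99.TJ.Coord

open TopologicalSpace Pool.Agent.H99.TJ

set_option linter.unusedSectionVars false

section Ex

variable {𝕜 : Type} [RCLike 𝕜]

/-- the half space `y ≠ 0` -/
def Om : Set (Fin 2 → 𝕜) := {u | u 1 ≠ 0}

lemma isOpen_Om : IsOpen (Om (𝕜 := 𝕜)) := isOpen_ne.preimage (continuous_apply 1)

abbrev OmO (𝕜 : Type) [RCLike 𝕜] : Opens (Fin 2 → 𝕜) := ⟨Om, isOpen_Om⟩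

lemma inv_smooth : ContDiffOn 𝕜 ∞ (fun u : Fin 2 → 𝕜 => (u 1)⁻¹) Om := by
  apply ContDiffOn.inv
  · exact (contDiff_apply 𝕜 𝕜 (1 : Fin 2)).contDiffOn
  · intro u hu; exact hu

/-- scalar product of scalar functions -/
noncomputable def mu (f g : SF 𝕜 (OmO 𝕜) 𝕜) : SF 𝕜 (OmO 𝕜) 𝕜 := bil (ContinuousLinearMap.mul 𝕜 𝕜) f g

lemma mu_val (f g : SF 𝕜 (OmO 𝕜) 𝕜) (v : Jets (OmO 𝕜)) : (mu f g).1 v = f.1 v * g.1 v := rfl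

lemma dv_mu (X : ℕ → SF 𝕜 (OmO 𝕜) (Fin 2 → 𝕜)) (f g : SF 𝕜 (OmO 𝕜) 𝕜) :
    dv X (mu f g) = mu (dv X f) g + mu f (dv X g) := dv_bil X _ f g

/-- components of the coordinates -/
noncomputable def xk (k : ℕ) : SF 𝕜 (OmO 𝕜) 𝕜 := mapL (prj 0) (coord k)
noncomputable def yk (k : ℕ) : SF 𝕜 (OmO 𝕜) 𝕜 := mapL (prj 1) (coord k)
noncomputable def Iy : SF 𝕜 (OmO 𝕜) 𝕜 := base (fun u => (u 1)⁻¹) inv_smooth

lemma xk_val (k : ℕ) (v : Jets (OmO 𝕜)) : (xk k).1 v = v.1 k 0 := rfl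
lemma yk_val (k : ℕ) (v : Jets (OmO 𝕜)) : (yk k).1 v = v.1 k 1 := rfl
lemma Iy_val (v : Jets (OmO 𝕜)) : Iy.1 v = (v.1 0 1)⁻¹ := rfl

lemma dv_xk (X : ℕ → SF 𝕜 (OmO 𝕜) (Fin 2 → 𝕜)) (k : ℕ) : dv X (xk k) = mapL (prj 0) (X k) := by
  rw [xk, dv_mapL, dv_coord]

lemma dv_yk (X : ℕ → SF 𝕜 (OmO 𝕜) (Fin 2 → 𝕜)) (k : ℕ) : dv X (yk k) = mapL (prj 1) (X k) := by
  rw [yk, dv_mapL, dv_coord]

lemma dv_Iy (X : ℕ → SF 𝕜 (OmO 𝕜) (Fin 2 → 𝕜)) :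
    dv X Iy = - mu (mu Iy Iy) (mapL (prj 1) (X 0)) := by
  rw [Iy, dv_base]
  apply SF.ext; intro v
  have hv : v.1 0 1 ≠ 0 := v.2
  have h1 : HasFDerivAt (fun u : Fin 2 → 𝕜 => (u 1)⁻¹)
      ((-((v.1 0 1) ^ 2)⁻¹ : 𝕜) • (prj (𝕜 := 𝕜) (N := 2) 1)) (v.1 0) := by
    have h2 : HasFDerivAt (fun u : Fin 2 → 𝕜 => u 1) (prj (𝕜 := 𝕜) (N := 2) 1) (v.1 0) :=
      (prj (𝕜 := 𝕜) (N := 2) 1).hasFDerivAt
    exact (hasDerivAt_inv hv).comp_hasFDerivAt (v.1 0) h2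
  rw [ap_val, base_val, Hm.ofL_apply, h1.fderiv]
  change (-((v.1 0 1) ^ 2)⁻¹ : 𝕜) • (X 0).1 v 1 = - ((v.1 0 1)⁻¹ * (v.1 0 1)⁻¹ * (X 0).1 v 1)
  rw [smul_eq_mul, pow_two, mul_inv]
  ring

lemma y_Iy (v : Jets (OmO 𝕜)) : v.1 0 1 * (v.1 0 1)⁻¹ = 1 := mul_inv_cancel₀ v.2

/-- total derivative -/
noncomputable abbrev DD : SF 𝕜 (OmO 𝕜) 𝕜 →ₗ[𝕜] SF 𝕜 (OmO 𝕜) 𝕜 := dv sh

lemma DD_xk (k : ℕ) : DD (xk k : SF 𝕜 (OmO 𝕜) 𝕜) = xk (k+1) := by rw [dv_xk]; rfl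
lemma DD_yk (k : ℕ) : DD (yk k : SF 𝕜 (OmO 𝕜) 𝕜) = yk (k+1) := by rw [dv_yk]; rfl
lemma DD_Iy : DD (Iy : SF 𝕜 (OmO 𝕜) 𝕜) = - mu (mu Iy Iy) (yk 1) := by rw [dv_Iy]; rfl

/-- the functions `P_k` -/
noncomputable def Pk : ℕ → SF 𝕜 (OmO 𝕜) 𝕜
  | 0 => mu Iy (xk 1)
  | k + 1 => DD (Pk k)

lemma DD_Pk (k : ℕ) : DD (Pk k : SF 𝕜 (OmO 𝕜) 𝕜) = Pk (k+1) := rfl

lemma y_P0 : mu (yk 0) (Pk 0) = (xk 1 : SF 𝕜 (OmO 𝕜) 𝕜) := by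
  apply SF.ext; intro v
  change v.1 0 1 * ((v.1 0 1)⁻¹ * v.1 1 0) = v.1 1 0
  rw [← mul_assoc, y_Iy, one_mul]

/-- the `x`-component of the flow of order `n` -/
noncomputable def Lx (n : ℕ) : SF 𝕜 (OmO 𝕜) 𝕜 :=
  ∑ j ∈ Finset.range n, (-1 : 𝕜) ^ j • mu (yk j) (Pk (n - 1 - j))

lemma DD_Lx (n : ℕ) : DD (Lx n : SF 𝕜 (OmO 𝕜) 𝕜)
    = mu (yk 0) (Pk n) - (-1 : 𝕜) ^ n • mu (yk n) (Pk 0) := by
  rcases Nat.eq_zero_or_pos n with h | hn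
  · subst h
    simp [Lx]
  have h1 : ∀ j ∈ Finset.range n, DD ((-1 : 𝕜) ^ j • (mu (yk j) (Pk (n - 1 - j)) : SF 𝕜 (OmO 𝕜) 𝕜))
      = (-1 : 𝕜) ^ j • mu (yk j) (Pk (n - j)) - (-1 : 𝕜) ^ (j+1) • mu (yk (j+1)) (Pk (n - (j+1))) := by
    intro j hj
    have hj' := Finset.mem_range.1 hj
    rw [map_smul, dv_mu, DD_yk, DD_Pk, pow_succ, mul_neg_one,
      show n - 1 - j + 1 = n - j by omega, show n - (j+1) = n - 1 - j by omega]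
    apply SF.ext; intro v
    simp only [add_val, sub_val, smul_val, mu_val, smul_eq_mul]
    ring
  rw [Lx, map_sum, Finset.sum_congr rfl h1,
    Finset.sum_range_sub' (fun j => (-1 : 𝕜) ^ j • mu (yk j) (Pk (n - j)))]
  simp

/-- the flow of order `n` -/
noncomputable def Ln (n : ℕ) : SF 𝕜 (OmO 𝕜) (Fin 2 → 𝕜) :=
  ⟨fun v i => if i = 0 then (Lx n).1 v else (yk n).1 v, by
    have h1 := IsSm.clm (ContinuousLinearMap.toSpanSingleton 𝕜 (Pi.single 0 1 : Fin 2 → 𝕜)) (Lx (𝕜 := 𝕜) n).sm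
    have h2 := IsSm.clm (ContinuousLinearMap.toSpanSingleton 𝕜 (Pi.single 1 1 : Fin 2 → 𝕜)) (yk (𝕜 := 𝕜) n).sm
    have h3 := h1.add h2
    have h4 : (fun (v : Jets (OmO 𝕜)) (i : Fin 2) => if i = 0 then (Lx n).1 v else (yk n).1 v)
        = fun v => (ContinuousLinearMap.toSpanSingleton 𝕜 (Pi.single 0 1 : Fin 2 → 𝕜)) ((Lx n).1 v)
          + (ContinuousLinearMap.toSpanSingleton 𝕜 (Pi.single 1 1 : Fin 2 → 𝕜)) ((yk n).1 v) := by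
      funext v i
      fin_cases i <;> simp [ContinuousLinearMap.toSpanSingleton_apply]
    rw [h4]
    exact h3⟩

lemma Ln_zero (n : ℕ) : mapL (prj 0) (Ln n) = (Lx n : SF 𝕜 (OmO 𝕜) 𝕜) := by
  apply SF.ext; intro v
  rfl

lemma Ln_one (n : ℕ) : mapL (prj 1) (Ln n) = (yk n : SF 𝕜 (OmO 𝕜) 𝕜) := by
  apply SF.ext; intro v
  rfl

lemma mapL_prol (i : Fin 2) (φ : SF 𝕜 (OmO 𝕜) (Fin 2 → 𝕜)) (k : ℕ) :
    mapL (prj i) (prol φ k) = (DD^[k] (mapL (prj i) φ) : SF 𝕜 (OmO 𝕜) 𝕜) := by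
  induction k with
  | zero => rfl
  | succ k ih => rw [prol_succ, ← dv_mapL, ih, Function.iterate_succ_apply']

lemma iter_yk (n k : ℕ) : (DD^[k] (yk n) : SF 𝕜 (OmO 𝕜) 𝕜) = yk (n + k) := by
  induction k with
  | zero => rfl
  | succ k ih => rw [Function.iterate_succ_apply', ih, DD_yk]; rfl

/-- evolution of `y_k` -/
lemma ev_yk (n k : ℕ) : dv (prol (Ln n)) (yk k) = (yk (n + k) : SF 𝕜 (OmO 𝕜) 𝕜) := by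
  rw [dv_yk, mapL_prol, Ln_one, iter_yk]

/-- evolution of `P` -/
lemma ev_P0 {n : ℕ} (hn : Odd n) : dv (prol (Ln n)) (Pk 0) = (Pk n : SF 𝕜 (OmO 𝕜) 𝕜) := by
  have h1 : (Pk 0 : SF 𝕜 (OmO 𝕜) 𝕜) = mu Iy (xk 1) := rfl
  have h2 : mapL (prj 1) (prol (Ln n) 0) = (yk n : SF 𝕜 (OmO 𝕜) 𝕜) := Ln_one n
  have h3 : mapL (prj 0) (prol (Ln n) 1) = (mu (yk 0) (Pk n) + mu (yk n) (Pk 0) : SF 𝕜 (OmO 𝕜) 𝕜) := by
    rw [mapL_prol, Function.iterate_one, Ln_zero, DD_Lx, hn.neg_one_pow]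
    apply SF.ext; intro v
    simp only [add_val, sub_val, smul_val, mu_val, smul_eq_mul]
    ring
  rw [h1, dv_mu, dv_Iy, dv_xk, h2, h3]
  apply SF.ext; intro v
  have e : (Pk 0 : SF 𝕜 (OmO 𝕜) 𝕜).1 v = (v.1 0 1)⁻¹ * v.1 1 0 := rfl
  simp only [add_val, neg_val, mu_val, Iy_val, xk_val, yk_val, e]
  have h := y_Iy v
  linear_combination (Pk n : SF 𝕜 (OmO 𝕜) 𝕜).1 v * h

lemma ev_Pk {n : ℕ} (hn : Odd n) (k : ℕ) : dv (prol (Ln n)) (Pk k) = (Pk (n + k) : SF 𝕜 (OmO 𝕜) 𝕜) := by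
  induction k with
  | zero => exact ev_P0 hn
  | succ k ih => rw [← DD_Pk, dv_prol_sh, ih, DD_Pk]; rfl

lemma const_zero' {Y : SF 𝕜 (OmO 𝕜) 𝕜} (h : DD Y = 0) (h0 : Z0 Y) : Y = 0 := by
  let _ : Rp 𝕜 (Fin 2 → 𝕜) 𝕜 := ⟨0⟩
  let c : Conn 𝕜 (OmO 𝕜) := ⟨fun _ => 0, contDiffOn_const⟩
  apply c.const_zero _ h0
  rw [Conn.D, c.cov_def, h]
  apply SF.ext; intro v
  change (0:𝕜) + (0 : Hm 𝕜 (Fin 2 → 𝕜) (Fin 2 → 𝕜) →L[𝕜] 𝕜 →L[𝕜] 𝕜) _ _ = 0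
  simp

lemma Z0_DD (f : SF 𝕜 (OmO 𝕜) 𝕜) : Z0 (DD f) := by
  intro v hv
  rw [dv_apply]
  have : (fun k => ((sh : ℕ → SF 𝕜 (OmO 𝕜) (Fin 2 → 𝕜)) k).1 v) = 0 := by
    funext k; exact hv k
  rw [this]
  exact ld_zero_dir f v

lemma Z0_yk (k : ℕ) : Z0 (yk (k+1) : SF 𝕜 (OmO 𝕜) 𝕜) := by
  intro v hv
  rw [yk_val, hv k]; rfl

lemma Z0_Pk (k : ℕ) : Z0 (Pk k : SF 𝕜 (OmO 𝕜) 𝕜) := by
  cases k with
  | zero =>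
    intro v hv
    change (v.1 0 1)⁻¹ * v.1 1 0 = 0
    rw [show v.1 1 = 0 from hv 0]; simp
  | succ k => exact Z0_DD _

lemma Z0_Lx (n : ℕ) : Z0 (Lx n : SF 𝕜 (OmO 𝕜) 𝕜) := by
  intro v hv
  rw [Lx, AddSubmonoidClass.coe_finsetSum, Finset.sum_apply]
  apply Finset.sum_eq_zero
  intro j _
  rw [smul_val, mu_val, Z0_Pk _ v hv]; simp

lemma Z0_prol {n : ℕ} (hn : 1 ≤ n) (k : ℕ) (i : Fin 2) :
    Z0 (mapL (prj i) (prol (Ln n) k) : SF 𝕜 (OmO 𝕜) 𝕜) := by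
  rw [mapL_prol]
  cases k with
  | zero =>
    obtain ⟨m, rfl⟩ : ∃ m, n = m + 1 := ⟨n - 1, by omega⟩
    fin_cases i
    · exact Z0_Lx _
    · exact Z0_yk m
  | succ k => rw [Function.iterate_succ_apply']; exact Z0_DD _

lemma Z0_ev {n : ℕ} (hn : 1 ≤ n) (f : SF 𝕜 (OmO 𝕜) 𝕜) : Z0 (dv (prol (Ln n)) f) := by
  intro v hv
  rw [dv_apply]
  have : (fun k => (prol (Ln n) k).1 v) = 0 := by
    funext k i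
    exact Z0_prol hn k i v hv
  rw [this]
  exact ld_zero_dir f v

/-- the flows of odd order commute -/
theorem flows_comm {n m : ℕ} (hn : Odd n) (hm : Odd m) :
    dv (prol (Ln n)) (Ln m) = (dv (prol (Ln m)) (Ln n) : SF 𝕜 (OmO 𝕜) (Fin 2 → 𝕜)) := by
  have hn1 : 1 ≤ n := hn.pos
  have hm1 : 1 ≤ m := hm.pos
  have hx : dv (prol (Ln n)) (Lx m) = (dv (prol (Ln m)) (Lx n) : SF 𝕜 (OmO 𝕜) 𝕜) := by
    rw [← sub_eq_zero]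
    apply const_zero'
    · rw [map_sub, DD, ← dv_prol_sh, ← dv_prol_sh, DD_Lx, DD_Lx, hn.neg_one_pow, hm.neg_one_pow]
      simp only [map_sub, map_smul, dv_mu, ev_yk, ev_Pk hn, ev_Pk hm]
      apply SF.ext; intro v
      simp only [sub_val, add_val, smul_val, mu_val, zero_val, add_zero, add_comm m n, smul_eq_mul]
      ring
    · exact Sys.Z0_sub (Z0_ev hn1 _) (Z0_ev hm1 _)
  apply SF.ext; intro v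
  funext i
  fin_cases i
  · have h1 : ((dv (prol (Ln n)) (Ln m)) : SF 𝕜 (OmO 𝕜) (Fin 2 → 𝕜)).1 v 0
        = (dv (prol (Ln n)) (Lx m) : SF 𝕜 (OmO 𝕜) 𝕜).1 v := by
      rw [← Ln_zero, dv_mapL]; rfl
    have h2 : ((dv (prol (Ln m)) (Ln n)) : SF 𝕜 (OmO 𝕜) (Fin 2 → 𝕜)).1 v 0
        = (dv (prol (Ln m)) (Lx n) : SF 𝕜 (OmO 𝕜) 𝕜).1 v := by
      rw [← Ln_zero n, dv_mapL]; rfl
    exact (h1.trans (by rw [hx])).trans h2.symm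
  · have h1 : ((dv (prol (Ln n)) (Ln m)) : SF 𝕜 (OmO 𝕜) (Fin 2 → 𝕜)).1 v 1
        = (dv (prol (Ln n)) (yk m) : SF 𝕜 (OmO 𝕜) 𝕜).1 v := by
      rw [← Ln_one, dv_mapL]; rfl
    have h2 : ((dv (prol (Ln m)) (Ln n)) : SF 𝕜 (OmO 𝕜) (Fin 2 → 𝕜)).1 v 1
        = (dv (prol (Ln m)) (yk n) : SF 𝕜 (OmO 𝕜) 𝕜).1 v := by
      rw [← Ln_one n, dv_mapL]; rfl
    exact (h1.trans (by rw [ev_yk, ev_yk, add_comm])).trans h2.symm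

end Ex

end Pool.Agent.H99.TJ.Coord
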