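import Pool.Agent.H99.TJ.Ex1

open scoped ContDiff

namespace Pool.Agent.H99.TJ.Coord

open TopologicalSpace Pool.Agent.H99.TJ

set_option linter.unusedSectionVars false

section Ex2

variable {𝕜 : Type} [RCLike 𝕜]

lemma ord_DD {m : ℕ} {f : SF 𝕜 (OmO 𝕜) 𝕜} (h : OrdLE m f) : OrdLE (m+1) (DD f) := by
  intro v v' hv
  rw [dv_apply, dv_apply]
  exact ld_congr h (fun k hk => hv k (by omega)) (fun k hk => hv (k+1) (by omega))

lemma ord_mu {m : ℕ} {f g : SF 𝕜 (OmO 𝕜) 𝕜} (hf : OrdLE m f) (hg : OrdLE m g) : OrdLE m (mu f g) :=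
  OrdLE.bil hf hg

lemma ord_xk {k m : ℕ} (h : k ≤ m) : OrdLE m (xk k : SF 𝕜 (OmO 𝕜) 𝕜) := by
  intro v v' hv; rw [xk_val, xk_val, hv k h]

lemma ord_yk {k m : ℕ} (h : k ≤ m) : OrdLE m (yk k : SF 𝕜 (OmO 𝕜) 𝕜) := by
  intro v v' hv; rw [yk_val, yk_val, hv k h]

lemma ord_Iy {m : ℕ} : OrdLE m (Iy : SF 𝕜 (OmO 𝕜) 𝕜) := OrdLE.base _ _

lemma Pk_form (k : ℕ) : ∃ h : SF 𝕜 (OmO 𝕜) 𝕜, OrdLE k h ∧ Pk k = mu Iy (xk (k+1)) + h := by
  induction k with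
  | zero =>
    refine ⟨0, fun _ _ _ => rfl, ?_⟩
    rw [add_zero]; rfl
  | succ k ih =>
    obtain ⟨h, ho, he⟩ := ih
    refine ⟨mu (DD Iy) (xk (k+1)) + DD h, ?_, ?_⟩
    · apply OrdLE.add _ (ord_DD ho)
      apply ord_mu _ (ord_xk le_rfl)
      exact (ord_DD (m := 0) ord_Iy).mono (by omega)
    · rw [← DD_Pk, he, map_add, dv_mu, DD_xk]
      abel

lemma ord_Pk (k : ℕ) : OrdLE (k+1) (Pk k : SF 𝕜 (OmO 𝕜) 𝕜) := by
  obtain ⟨h, ho, he⟩ := Pk_form (𝕜 := 𝕜) k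
  rw [he]
  exact (ord_mu ord_Iy (ord_xk le_rfl)).add (ho.mono (by omega))

lemma Lx_form (n : ℕ) : ∃ h : SF 𝕜 (OmO 𝕜) 𝕜, OrdLE n h ∧ Lx (n+1) = xk (n+1) + h := by
  obtain ⟨g, go, ge⟩ := Pk_form (𝕜 := 𝕜) n
  refine ⟨(∑ j ∈ Finset.range n, (-1 : 𝕜) ^ (j+1) • mu (yk (j+1)) (Pk (n - (j+1)))) + mu (yk 0) g, ?_, ?_⟩
  · apply OrdLE.add
    · have : ∀ s : Finset ℕ, (∀ j ∈ s, j < n) → OrdLE n (∑ j ∈ s, (-1 : 𝕜) ^ (j+1) •
          (mu (yk (j+1)) (Pk (n - (j+1))) : SF 𝕜 (OmO 𝕜) 𝕜)) := by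
        intro s
        induction s using Finset.induction_on with
        | empty => intro _ v v' _; rfl
        | insert a s ha ih =>
          intro hs
          rw [Finset.sum_insert ha]
          apply OrdLE.add _ (ih fun j hj => hs j (Finset.mem_insert_of_mem hj))
          have ha' := hs a (Finset.mem_insert_self _ _)
          apply OrdLE.smul
          exact ord_mu (ord_yk (by omega)) ((ord_Pk _).mono (by omega))
      exact this _ fun j hj => Finset.mem_range.1 hj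
    · exact ord_mu (ord_yk (by omega)) go
  · rw [Lx, Finset.sum_range_succ']
    have h0 : (-1:𝕜)^0 • mu (yk 0) (Pk (n + 1 - 1 - 0)) = (xk (n+1) + mu (yk 0) g : SF 𝕜 (OmO 𝕜) 𝕜) := by
      rw [show n + 1 - 1 - 0 = n by omega, ge]
      apply SF.ext; intro v
      simp only [add_val, smul_val, mu_val, smul_eq_mul, yk_val, xk_val, Iy_val]
      have h := y_Iy v
      linear_combination v.1 (n+1) 0 * h
    rw [h0]
    have h1 : ∀ j ∈ Finset.range n, (-1 : 𝕜) ^ (j+1) • mu (yk (j+1)) (Pk (n + 1 - 1 - (j+1)))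
        = ((-1 : 𝕜) ^ (j+1) • mu (yk (j+1)) (Pk (n - (j+1))) : SF 𝕜 (OmO 𝕜) 𝕜) := by
      intro j _
      rw [show n + 1 - 1 = n by omega]
    rw [Finset.sum_congr rfl h1]
    abel

/-- padding by zeros -/
def pad (m : ℕ) (p : Fin (m+1) → Fin 2 → 𝕜) : Jet 𝕜 2 :=
  fun k => if h : k < m + 1 then p ⟨k, h⟩ else 0

lemma smooth_of_SF {F : SF 𝕜 (OmO 𝕜) 𝕜} {m : ℕ} (h : OrdLE m F) {f : Jet 𝕜 2 → 𝕜}
    (hf : ∀ (v : Jet 𝕜 2) (hv : v 0 ∈ OmO 𝕜), f v = F.1 ⟨v, hv⟩) :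
    IsSmoothOfJets (Om (𝕜 := 𝕜)) (m+1) f := by
  obtain ⟨n, g, hg⟩ := F.sm
  refine ⟨fun p => g (fun k => pad m p k), ?_, ?_⟩
  · have h1 : ContDiffOn 𝕜 ∞ g (dom (OmO 𝕜) n) := hg.1
    apply h1.comp
    · apply ContDiff.contDiffOn
      apply contDiff_pi.2
      intro k
      unfold pad
      by_cases hk : (k : ℕ) < m + 1
      · simp only [hk, dif_pos]
        exact contDiff_apply 𝕜 (Fin 2 → 𝕜) _
      · simp only [hk, dif_neg, not_false_eq_true]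
        exact contDiff_const
    · intro p hp
      change pad m p 0 ∈ OmO 𝕜
      have : pad m p 0 = p ⟨0, by omega⟩ := by
        unfold pad; rw [dif_pos (by omega)]
      rw [this]
      exact hp (by omega)
  · intro v hv
    rw [hf v hv]
    have hp : pad m (fun k : Fin (m+1) => v k) 0 ∈ OmO 𝕜 := by
      have : pad m (fun k : Fin (m+1) => v k) 0 = v 0 := by
        unfold pad; rw [dif_pos (by omega)]
      rw [this]; exact hv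
    rw [h ⟨v, hv⟩ ⟨pad m (fun k : Fin (m+1) => v k), hp⟩ (by
      intro k hk
      change v k = pad m (fun k : Fin (m+1) => v k) k
      unfold pad
      rw [dif_pos (by omega)]), hg.2]
    rfl

/-- the example: `x_t = x_3 - 3 (y_1/y) x_2 + 3 (y_1/y)^2 x_1`, `y_t = y_3` -/
noncomputable def exSys (𝕜 : Type) [RCLike 𝕜] : GeomSystem 𝕜 2 where
  Ω := Om
  isOpen := isOpen_Om
  α := fun i j k u => if i = 0 ∧ j = 1 ∧ k = 0 then -(u 1)⁻¹ else 0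
  β := fun _ _ _ _ _ => 0
  α_smooth := by
    intro i j k
    by_cases h : i = 0 ∧ j = 1 ∧ k = 0
    · simp only [h, and_self, if_true]
      exact inv_smooth.neg
    · simp only [h, if_false]
      exact contDiffOn_const
  β_smooth := fun _ _ _ _ => contDiffOn_const
  β_symm₁ := fun _ _ _ _ _ _ => rfl
  β_symm₂ := fun _ _ _ _ _ _ => rfl

lemma pd_const (j : Fin 2) (u : Fin 2 → 𝕜) : pd j (fun _ => (0:𝕜)) u = 0 := by
  unfold pd lineDeriv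
  simp

lemma pd_inv {u : Fin 2 → 𝕜} (hu : u ∈ Om) (j : Fin 2) :
    pd j (fun u => -(u 1)⁻¹) u = if j = 1 then ((u 1)^2)⁻¹ else 0 := by
  have hv : u 1 ≠ 0 := hu
  have h1 : HasFDerivAt (fun u : Fin 2 → 𝕜 => -(u 1)⁻¹)
      (-((-((u 1) ^ 2)⁻¹ : 𝕜) • (prj (𝕜 := 𝕜) (N := 2) 1))) u := by
    have h2 : HasFDerivAt (fun u : Fin 2 → 𝕜 => u 1) (prj (𝕜 := 𝕜) (N := 2) 1) u :=
      (prj (𝕜 := 𝕜) (N := 2) 1).hasFDerivAt
    exact ((hasDerivAt_inv hv).comp_hasFDerivAt u h2).neg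
  have h3 := (h1.hasLineDerivAt (Pi.single j 1)).lineDeriv
  unfold pd
  rw [h3]
  change -(-((u 1) ^ 2)⁻¹ • (Pi.single j (1:𝕜) : Fin 2 → 𝕜) 1) = _
  by_cases hj : j = 1
  · subst hj; simp
  · rw [Pi.single_eq_of_ne (Ne.symm hj)]; simp [hj]

lemma exSys_α (i j k : Fin 2) : (exSys 𝕜).α i j k
    = if i = 0 ∧ j = 1 ∧ k = 0 then (fun u => -(u 1)⁻¹) else fun _ => 0 := by
  by_cases h : i = 0 ∧ j = 1 ∧ k = 0
  · funext u; simp [exSys, h]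
  · funext u; simp only [exSys, h, if_false]

lemma Pk_one (v : Jets (OmO 𝕜)) : (Pk 1 : SF 𝕜 (OmO 𝕜) 𝕜).1 v
    = (v.1 0 1)⁻¹ * v.1 2 0 - ((v.1 0 1)⁻¹)^2 * v.1 1 1 * v.1 1 0 := by
  have h : (Pk 1 : SF 𝕜 (OmO 𝕜) 𝕜) = DD (mu Iy (xk 1)) := rfl
  rw [h, dv_mu, DD_Iy, DD_xk]
  simp only [add_val, neg_val, mu_val, Iy_val, xk_val, yk_val]
  ring

lemma Pk_two (v : Jets (OmO 𝕜)) : (Pk 2 : SF 𝕜 (OmO 𝕜) 𝕜).1 v
    = (v.1 0 1)⁻¹ * v.1 3 0 - 2 * ((v.1 0 1)⁻¹)^2 * v.1 1 1 * v.1 2 0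
      - ((v.1 0 1)⁻¹)^2 * v.1 2 1 * v.1 1 0 + 2 * ((v.1 0 1)⁻¹)^3 * (v.1 1 1)^2 * v.1 1 0 := by
  have h : (Pk 2 : SF 𝕜 (OmO 𝕜) 𝕜) = DD (DD (mu Iy (xk 1))) := rfl
  rw [h, dv_mu, DD_Iy, DD_xk, map_add, dv_mu, dv_mu, DD_Iy, DD_xk, DD_xk, map_neg, dv_mu, dv_mu,
    DD_Iy, DD_yk]
  simp only [add_val, neg_val, mu_val, Iy_val, xk_val, yk_val]
  ring

lemma exSys_rhs : Cor (exSys 𝕜).rhs (Ln 3 : SF 𝕜 (OmO 𝕜) (Fin 2 → 𝕜)) := by
  intro v hv i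
  have hv' : v 0 ∈ (Om : Set (Fin 2 → 𝕜)) := hv
  have hy : v 0 1 ≠ 0 := hv'
  simp only [GeomSystem.rhs, exSys_α, Fin.sum_univ_two]
  fin_cases i
  · have hL : (Ln 3 : SF 𝕜 (OmO 𝕜) (Fin 2 → 𝕜)).1 ⟨v, hv⟩ 0 = (Lx 3 : SF 𝕜 (OmO 𝕜) 𝕜).1 ⟨v, hv⟩ := rfl
    have hL2 : (Lx 3 : SF 𝕜 (OmO 𝕜) 𝕜) = mu (yk 0) (Pk 2) - mu (yk 1) (Pk 1) + mu (yk 2) (Pk 0) := by
      rw [Lx]
      simp only [Finset.sum_range_succ, Finset.sum_range_zero]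
      apply SF.ext; intro v
      simp only [add_val, sub_val, smul_val, zero_val, smul_eq_mul]
      norm_num
      ring
    have e : (Pk 0 : SF 𝕜 (OmO 𝕜) 𝕜).1 ⟨v, hv⟩ = (v 0 1)⁻¹ * v 1 0 := rfl
    change _ = (Ln 3 : SF 𝕜 (OmO 𝕜) (Fin 2 → 𝕜)).1 ⟨v, hv⟩ 0
    rw [hL, hL2]
    simp only [add_val, sub_val, mu_val, Pk_one, Pk_two, e, yk_val]
    simp [exSys, pd_const, pd_inv hv']
    field_simp
    ring
  · change _ = v 3 1
    simp [exSys, pd_const]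

/-- the example is integrable -/
theorem exSys_integrable : (exSys 𝕜).IsIntegrable := by
  intro m
  refine ⟨2 * m + 1, by omega, fun i v => open Classical in if h : v 0 ∈ OmO 𝕜 then (Ln (2*m+1)).1 ⟨v, h⟩ i else 0,
    ?_, ?_⟩
  · obtain ⟨h, ho, he⟩ := Lx_form (𝕜 := 𝕜) (2*m)
    classical
    refine ⟨fun i v => if i = 0 then (if hv : v 0 ∈ OmO 𝕜 then h.1 ⟨v, hv⟩ else 0) else 0, ?_, ?_⟩
    · intro i
      by_cases hi : i = 0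
      · subst hi
        apply smooth_of_SF ho
        intro v hv
        simp [hv]
      · apply smooth_of_SF (F := 0) (m := 2*m) (fun _ _ _ => rfl)
        intro v hv
        simp [hi]
    · intro v hv i
      have hv' : v 0 ∈ OmO 𝕜 := hv
      simp only [hv', dif_pos]
      by_cases hi : i = 0
      · subst hi
        have h1 : (Ln (2*m+1) : SF 𝕜 (OmO 𝕜) (Fin 2 → 𝕜)).1 ⟨v, hv'⟩ 0
          = (Lx (2*m+1) : SF 𝕜 (OmO 𝕜) 𝕜).1 ⟨v, hv'⟩ := rfl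
        rw [h1, he, add_val, xk_val]
        simp
      · obtain rfl : i = 1 := by omega
        have h1 : (Ln (2*m+1) : SF 𝕜 (OmO 𝕜) (Fin 2 → 𝕜)).1 ⟨v, hv'⟩ 1 = v (2*m+1) 1 := rfl
        rw [h1]; simp
  · intro v hv i
    have hv' : v 0 ∈ OmO 𝕜 := hv
    have hc : Cor (fun i v => open Classical in if h : v 0 ∈ OmO 𝕜 then
        (Ln (2*m+1) : SF 𝕜 (OmO 𝕜) (Fin 2 → 𝕜)).1 ⟨v, h⟩ i else 0) (Ln (2*m+1)) := by
      intro v hv i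
      simp only [hv, dif_pos]
    have h1 := (exSys_rhs (𝕜 := 𝕜)).evol hc v hv' i
    have h2 := hc.evol (exSys_rhs (𝕜 := 𝕜)) v hv' i
    refine h1.trans (Eq.trans ?_ h2.symm)
    rw [flows_comm (n := 3) (m := 2*m+1) (by decide) ⟨m, rfl⟩]

end Ex2

end Pool.Agent.H99.TJ.Coord
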