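import Mathlib

open scoped ContDiff

namespace Pool.Agent.H99.TJ

variable {𝕜 : Type*} [RCLike 𝕜] {E : Type*} [NormedAddCommGroup E] [NormedSpace 𝕜 E]
variable {F : Type*} [NormedAddCommGroup F] [NormedSpace 𝕜 F]
variable {F₁ : Type*} [NormedAddCommGroup F₁] [NormedSpace 𝕜 F₁]
variable {F₂ : Type*} [NormedAddCommGroup F₂] [NormedSpace 𝕜 F₂]

/-- continuous linear maps, wrapped so that nesting is harmless for instance search -/
def Hm (𝕜 : Type*) [RCLike 𝕜] (E : Type*) [NormedAddCommGroup E] [NormedSpace 𝕜 E]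
    (F : Type*) [NormedAddCommGroup F] [NormedSpace 𝕜 F] : Type _ := E →L[𝕜] F

namespace Hm

noncomputable instance : NormedAddCommGroup (Hm 𝕜 E F) :=
  inferInstanceAs (NormedAddCommGroup (E →L[𝕜] F))

noncomputable instance : NormedSpace 𝕜 (Hm 𝕜 E F) :=
  inferInstanceAs (NormedSpace 𝕜 (E →L[𝕜] F))

instance : FunLike (Hm 𝕜 E F) E F := inferInstanceAs (FunLike (E →L[𝕜] F) E F)

instance : ContinuousLinearMapClass (Hm 𝕜 E F) 𝕜 E F :=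
  inferInstanceAs (ContinuousLinearMapClass (E →L[𝕜] F) 𝕜 E F)

/-- the identification, one way -/
noncomputable def toL : Hm 𝕜 E F →L[𝕜] (E →L[𝕜] F) := ContinuousLinearMap.id 𝕜 (E →L[𝕜] F)

/-- the identification, the other way -/
noncomputable def ofL : (E →L[𝕜] F) →L[𝕜] Hm 𝕜 E F := ContinuousLinearMap.id 𝕜 (E →L[𝕜] F)

lemma toL_apply (f : Hm 𝕜 E F) (x : E) : toL f x = f x := rfl
lemma ofL_apply (f : E →L[𝕜] F) (x : E) : (ofL f : Hm 𝕜 E F) x = f x := rfl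

@[ext] lemma ext {f g : Hm 𝕜 E F} (h : ∀ x, f x = g x) : f = g := DFunLike.ext f g h

@[simp] lemma add_ap (f g : Hm 𝕜 E F) (x : E) : (f + g) x = f x + g x := rfl
@[simp] lemma sub_ap (f g : Hm 𝕜 E F) (x : E) : (f - g) x = f x - g x := rfl
@[simp] lemma neg_ap (f : Hm 𝕜 E F) (x : E) : (-f) x = -f x := rfl
@[simp] lemma zero_ap (x : E) : (0 : Hm 𝕜 E F) x = 0 := rfl
@[simp] lemma smul_ap (c : 𝕜) (f : Hm 𝕜 E F) (x : E) : (c • f) x = c • f x := rfl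

/-- flip -/
noncomputable def fl : Hm 𝕜 E (Hm 𝕜 E F) →L[𝕜] Hm 𝕜 E (Hm 𝕜 E F) :=
  (ContinuousLinearMap.flipₗᵢ 𝕜 E E F).toContinuousLinearEquiv.toContinuousLinearMap

lemma fl_apply (f : Hm 𝕜 E (Hm 𝕜 E F)) (x y : E) : fl f x y = f y x := rfl

/-- composition -/
noncomputable def cmp : (F₁ →L[𝕜] F₂) →L[𝕜] Hm 𝕜 E F₁ →L[𝕜] Hm 𝕜 E F₂ :=
  ContinuousLinearMap.compL 𝕜 E F₁ F₂

lemma cmp_apply (L : F₁ →L[𝕜] F₂) (f : Hm 𝕜 E F₁) (x : E) : cmp L f x = L (f x) := rfl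

/-- precomposition: `pcm A f = f ∘ A` -/
noncomputable def pcm : Hm 𝕜 E E →L[𝕜] Hm 𝕜 E F →L[𝕜] Hm 𝕜 E F :=
  (ContinuousLinearMap.compL 𝕜 E E F).flip

lemma pcm_apply (A : Hm 𝕜 E E) (f : Hm 𝕜 E F) (x : E) : pcm A f x = f (A x) := rfl

end Hm

end Pool.Agent.H99.TJ
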