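import Pool.Agent.H99.TJ.Jets
import Pool.Agent.H99.TJ.Hm

open scoped ContDiff

namespace Pool.Agent.H99.TJ

open TopologicalSpace

section Fields

variable {𝕜 : Type*} [RCLike 𝕜] {E : Type*} [NormedAddCommGroup E] [NormedSpace 𝕜 E]
variable {Ω : Opens E}
variable {F : Type*} [NormedAddCommGroup F] [NormedSpace 𝕜 F]
variable {F₁ : Type*} [NormedAddCommGroup F₁] [NormedSpace 𝕜 F₁]
variable {F₂ : Type*} [NormedAddCommGroup F₂] [NormedSpace 𝕜 F₂]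
variable {F₃ : Type*} [NormedAddCommGroup F₃] [NormedSpace 𝕜 F₃]

/-- smooth differential functions -/
def SJ (𝕜 : Type*) [RCLike 𝕜] {E : Type*} [NormedAddCommGroup E] [NormedSpace 𝕜 E] (Ω : Opens E)
    (F : Type*) [NormedAddCommGroup F] [NormedSpace 𝕜 F] : Submodule 𝕜 (Jets Ω → F) where
  carrier := {f | IsSm 𝕜 f}
  add_mem' := fun hf hg => hf.add hg
  zero_mem' := IsSm.const 0
  smul_mem' := fun c _ hf => hf.smul c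

abbrev SF (𝕜 : Type*) [RCLike 𝕜] {E : Type*} [NormedAddCommGroup E] [NormedSpace 𝕜 E] (Ω : Opens E)
    (F : Type*) [NormedAddCommGroup F] [NormedSpace 𝕜 F] : Type _ := ↥(SJ 𝕜 Ω F)

lemma SF.sm (f : SF 𝕜 Ω F) : IsSm 𝕜 f.1 := f.2

/-- derivation along a vector field -/
noncomputable def dv (X : ℕ → SF 𝕜 Ω E) : SF 𝕜 Ω F →ₗ[𝕜] SF 𝕜 Ω F where
  toFun f := ⟨fun v => ld 𝕜 f.1 v (fun k => (X k).1 v), f.sm.ld_field (fun k => (X k).sm)⟩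
  map_add' f g := by
    ext v
    exact IsSm.ld_add f.sm g.sm v _
  map_smul' c f := by
    ext v
    exact IsSm.ld_smul c f.sm v _

lemma dv_apply (X : ℕ → SF 𝕜 Ω E) (f : SF 𝕜 Ω F) (v : Jets Ω) :
    (dv X f).1 v = ld 𝕜 f.1 v (fun k => (X k).1 v) := rfl

lemma dv_bracket (X Y : ℕ → SF 𝕜 Ω E) (f : SF 𝕜 Ω F) :
    dv X (dv Y f) - dv Y (dv X f) = dv (fun k => dv X (Y k) - dv Y (X k)) f := by
  ext v
  have h1 : (dv X (dv Y f)).1 v = ld 𝕜 (fun v' => ld 𝕜 f.1 v' (fun k => (Y k).1 v)) v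
      (fun k => (X k).1 v) + ld 𝕜 f.1 v (fun k => (dv X (Y k)).1 v) :=
    IsSm.ld_ld_field f.sm (W := fun v k => (Y k).1 v) (fun k => (Y k).sm) v _
  have h2 : (dv Y (dv X f)).1 v = ld 𝕜 (fun v' => ld 𝕜 f.1 v' (fun k => (X k).1 v)) v
      (fun k => (Y k).1 v) + ld 𝕜 f.1 v (fun k => (dv Y (X k)).1 v) :=
    IsSm.ld_ld_field f.sm (W := fun v k => (X k).1 v) (fun k => (X k).sm) v _
  have h3 := IsSm.ld_symm f.sm v (fun k => (Y k).1 v) (fun k => (X k).1 v)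
  have h4 : (fun k => (dv X (Y k) - dv Y (X k)).1 v) =
      (fun k => (dv X (Y k)).1 v) + (-1 : 𝕜) • (fun k => (dv Y (X k)).1 v) := by
    funext k
    simp [sub_eq_add_neg]
  have h5 : (dv (fun k => dv X (Y k) - dv Y (X k)) f).1 v
      = ld 𝕜 f.1 v (fun k => (dv X (Y k)).1 v) - ld 𝕜 f.1 v (fun k => (dv Y (X k)).1 v) := by
    rw [dv_apply, h4, f.sm.ld_add_dir, f.sm.ld_smul_dir]
    simp [sub_eq_add_neg]
  change (dv X (dv Y f)).1 v - (dv Y (dv X f)).1 v = (dv (fun k => dv X (Y k) - dv Y (X k)) f).1 v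
  rw [h1, h2, h5, h3]
  abel

lemma dv_zero_field (f : SF 𝕜 Ω F) : dv (fun _ => 0) f = 0 := by
  ext v
  change ld 𝕜 f.1 v (fun _ => 0) = 0
  have := f.sm.ld_smul_dir v (0:𝕜) (fun _ => 0)
  rw [zero_smul, zero_smul] at this
  exact this

lemma dv_comm {X Y : ℕ → SF 𝕜 Ω E} (h : ∀ k, dv X (Y k) = dv Y (X k)) (f : SF 𝕜 Ω F) :
    dv X (dv Y f) = dv Y (dv X f) := by
  have h1 := dv_bracket X Y f
  have h2 : (fun k => dv X (Y k) - dv Y (X k)) = fun _ => (0 : SF 𝕜 Ω E) := by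
    funext k; rw [h k, sub_self]
  rw [h2, dv_zero_field] at h1
  exact sub_eq_zero.1 h1

/-- constants -/
def cst (c : F) : SF 𝕜 Ω F := ⟨fun _ => c, IsSm.const c⟩

/-- coordinates -/
def coord (k : ℕ) : SF 𝕜 Ω E := ⟨fun v => v.1 k, IsSm.coord k⟩

/-- functions of the base point -/
def base (C : E → F) (hC : ContDiffOn 𝕜 ∞ C Ω) : SF 𝕜 Ω F := ⟨fun v => C (v.1 0), IsSm.base hC⟩

/-- bilinear operations -/
def bil (B : F₁ →L[𝕜] F₂ →L[𝕜] F₃) (f : SF 𝕜 Ω F₁) (g : SF 𝕜 Ω F₂) : SF 𝕜 Ω F₃ :=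
  ⟨fun v => B (f.1 v) (g.1 v), IsSm.bilin B f.sm g.sm⟩

/-- postcomposition with a continuous linear map -/
def mapL (L : F₁ →L[𝕜] F₂) : SF 𝕜 Ω F₁ →ₗ[𝕜] SF 𝕜 Ω F₂ where
  toFun f := ⟨fun v => L (f.1 v), IsSm.clm L f.sm⟩
  map_add' f g := by ext v; exact map_add L _ _
  map_smul' c f := by ext v; exact map_smul L c _

/-- application -/
noncomputable def ap (f : SF 𝕜 Ω (Hm 𝕜 E F)) (g : SF 𝕜 Ω E) : SF 𝕜 Ω F :=
  ⟨fun v => f.1 v (g.1 v), IsSm.bilin Hm.toL f.sm g.sm⟩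

lemma ap_val (f : SF 𝕜 Ω (Hm 𝕜 E F)) (g : SF 𝕜 Ω E) (v : Jets Ω) :
    (ap f g).1 v = f.1 v (g.1 v) := rfl

lemma bil_val (B : F₁ →L[𝕜] F₂ →L[𝕜] F₃) (f : SF 𝕜 Ω F₁) (g : SF 𝕜 Ω F₂) (v : Jets Ω) :
    (bil B f g).1 v = B (f.1 v) (g.1 v) := rfl

lemma mapL_val (L : F₁ →L[𝕜] F₂) (f : SF 𝕜 Ω F₁) (v : Jets Ω) : (mapL L f).1 v = L (f.1 v) := rfl

lemma base_val (C : E → F) (hC : ContDiffOn 𝕜 ∞ C Ω) (v : Jets Ω) :
    (base C hC).1 v = C (v.1 0) := rfl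

lemma coord_val (k : ℕ) (v : Jets Ω) : (coord (𝕜 := 𝕜) k).1 v = v.1 k := rfl

lemma cst_val (c : F) (v : Jets Ω) : (cst (𝕜 := 𝕜) c).1 v = c := rfl

lemma add_val (f g : SF 𝕜 Ω F) (v : Jets Ω) : (f + g).1 v = f.1 v + g.1 v := rfl
lemma sub_val (f g : SF 𝕜 Ω F) (v : Jets Ω) : (f - g).1 v = f.1 v - g.1 v := rfl
lemma neg_val (f : SF 𝕜 Ω F) (v : Jets Ω) : (-f).1 v = -f.1 v := rfl
lemma zero_val (v : Jets Ω) : (0 : SF 𝕜 Ω F).1 v = 0 := rfl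
lemma smul_val (c : 𝕜) (f : SF 𝕜 Ω F) (v : Jets Ω) : (c • f).1 v = c • f.1 v := rfl
lemma nsmul_val (c : ℕ) (f : SF 𝕜 Ω F) (v : Jets Ω) : (c • f).1 v = c • f.1 v := rfl

lemma SF.ext {f g : SF 𝕜 Ω F} (h : ∀ v, f.1 v = g.1 v) : f = g := Subtype.ext (funext h)

lemma dv_cst (X : ℕ → SF 𝕜 Ω E) (c : F) : dv X (cst c) = 0 :=
  SF.ext fun v => ld_const c v _

lemma dv_coord (X : ℕ → SF 𝕜 Ω E) (k : ℕ) : dv X (coord k) = X k :=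
  SF.ext fun v => ld_coord k v _

lemma contDiffOn_fderiv {C : E → F} (hC : ContDiffOn 𝕜 ∞ C Ω) : ContDiffOn 𝕜 ∞ (fderiv 𝕜 C) Ω :=
  hC.fderiv_of_isOpen Ω.isOpen (by simp)

lemma contDiffOn_fderivH {C : E → F} (hC : ContDiffOn 𝕜 ∞ C Ω) :
    ContDiffOn 𝕜 ∞ (fun u => (Hm.ofL (fderiv 𝕜 C u) : Hm 𝕜 E F)) Ω :=
  (Hm.ofL (𝕜 := 𝕜) (E := E) (F := F)).contDiff.comp_contDiffOn (contDiffOn_fderiv hC)

lemma dv_base (X : ℕ → SF 𝕜 Ω E) (C : E → F) (hC : ContDiffOn 𝕜 ∞ C Ω) :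
    dv X (base C hC) = ap (base (fun u => (Hm.ofL (fderiv 𝕜 C u) : Hm 𝕜 E F))
      (contDiffOn_fderivH hC)) (X 0) :=
  SF.ext fun v => ld_base hC v _

lemma dv_bil (X : ℕ → SF 𝕜 Ω E) (B : F₁ →L[𝕜] F₂ →L[𝕜] F₃) (f : SF 𝕜 Ω F₁) (g : SF 𝕜 Ω F₂) :
    dv X (bil B f g) = bil B (dv X f) g + bil B f (dv X g) :=
  SF.ext fun v => IsSm.ld_bilin B f.sm g.sm v _

lemma dv_ap (X : ℕ → SF 𝕜 Ω E) (f : SF 𝕜 Ω (Hm 𝕜 E F)) (g : SF 𝕜 Ω E) :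
    dv X (ap f g) = ap (dv X f) g + ap f (dv X g) :=
  SF.ext fun v => IsSm.ld_bilin Hm.toL f.sm g.sm v _

lemma dv_mapL (X : ℕ → SF 𝕜 Ω E) (L : F₁ →L[𝕜] F₂) (f : SF 𝕜 Ω F₁) :
    dv X (mapL L f) = mapL L (dv X f) :=
  SF.ext fun v => IsSm.ld_clm L f.sm v _

/-- the total derivative as a vector field -/
def sh : ℕ → SF 𝕜 Ω E := fun k => coord (k+1)

/-- prolongation of an evolutionary field -/
noncomputable def prol (φ : SF 𝕜 Ω E) : ℕ → SF 𝕜 Ω E := fun k => (dv (sh (𝕜 := 𝕜) (Ω := Ω)))^[k] φ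

lemma prol_zero (φ : SF 𝕜 Ω E) : prol φ 0 = φ := rfl

lemma prol_succ (φ : SF 𝕜 Ω E) (k : ℕ) : prol φ (k+1) = dv sh (prol φ k) := by
  simp only [prol, Function.iterate_succ_apply']

lemma dv_prol_sh (φ : SF 𝕜 Ω E) (f : SF 𝕜 Ω F) :
    dv (prol φ) (dv sh f) = dv sh (dv (prol φ) f) := by
  apply dv_comm
  intro k
  rw [show (sh : ℕ → SF 𝕜 Ω E) k = coord (k+1) from rfl, dv_coord, prol_succ]

lemma dv_prol_prol (φ ψ : SF 𝕜 Ω E) (k : ℕ) :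
    dv (prol φ) (prol ψ k) = (dv sh)^[k] (dv (prol φ) ψ) := by
  induction k with
  | zero => rfl
  | succ k ih => rw [prol_succ, dv_prol_sh, ih, Function.iterate_succ_apply']

lemma iterate_sub (k : ℕ) (f g : SF 𝕜 Ω F) :
    (dv (sh (𝕜 := 𝕜) (Ω := Ω)))^[k] (f - g) = (dv sh)^[k] f - (dv sh)^[k] g := by
  induction k with
  | zero => rfl
  | succ k ih => simp only [Function.iterate_succ_apply', ih, map_sub]

lemma ev_bracket (φ ψ : SF 𝕜 Ω E) (f : SF 𝕜 Ω F) :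
    dv (prol φ) (dv (prol ψ) f) - dv (prol ψ) (dv (prol φ) f)
      = dv (prol (dv (prol φ) ψ - dv (prol ψ) φ)) f := by
  rw [dv_bracket]
  congr 1
  apply congrArg
  funext k
  rw [dv_prol_prol, dv_prol_prol, ← iterate_sub]
  rfl

end Fields

end Pool.Agent.H99.TJ
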