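import Mathlib

open scoped ContDiff

namespace Pool.Agent.H99.TJ

open TopologicalSpace

section Basic

variable {𝕜 : Type*} [RCLike 𝕜] {E : Type*} [NormedAddCommGroup E] [NormedSpace 𝕜 E]

/-- jets whose base point lies in `Ω` -/
@[ext] structure Jets (Ω : Opens E) where
  /-- the sequence -/
  val : ℕ → E
  mem : val 0 ∈ Ω

/-- the first `n+1` coordinates -/
def pr (n : ℕ) (w : ℕ → E) : Fin (n+1) → E := fun k => w k

def dom (Ω : Opens E) (n : ℕ) : Set (Fin (n+1) → E) := {p | p 0 ∈ Ω}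

lemma isOpen_dom (Ω : Opens E) (n : ℕ) : IsOpen (dom Ω n) :=
  Ω.isOpen.preimage (continuous_apply 0)

lemma pr_mem {Ω : Opens E} (n : ℕ) (v : Jets Ω) : pr n v.1 ∈ dom Ω n := v.2

variable {Ω : Opens E}
variable {F : Type*} [NormedAddCommGroup F] [NormedSpace 𝕜 F]
variable {F₁ : Type*} [NormedAddCommGroup F₁] [NormedSpace 𝕜 F₁]
variable {F₂ : Type*} [NormedAddCommGroup F₂] [NormedSpace 𝕜 F₂]
variable {F₃ : Type*} [NormedAddCommGroup F₃] [NormedSpace 𝕜 F₃]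

variable (𝕜) in
/-- `g` represents `f` through the first `n+1` coordinates -/
def Rep (n : ℕ) (g : (Fin (n+1) → E) → F) (f : Jets Ω → F) : Prop :=
  ContDiffOn 𝕜 ∞ g (dom Ω n) ∧ ∀ v : Jets Ω, f v = g (pr n v.1)

variable (𝕜) in
def IsSm (f : Jets Ω → F) : Prop := ∃ n g, Rep 𝕜 n g f

/-- restriction of coordinates -/
def res (𝕜 : Type*) [RCLike 𝕜] [NormedSpace 𝕜 E] {n m : ℕ} (h : n ≤ m) :
    (Fin (m+1) → E) →L[𝕜] (Fin (n+1) → E) :=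
  ContinuousLinearMap.pi fun k => ContinuousLinearMap.proj (Fin.castLE (by omega) k)

lemma res_pr {n m : ℕ} (h : n ≤ m) (w : ℕ → E) : res 𝕜 h (pr m w) = pr n w := by
  ext k; rfl

lemma Rep.mono {n m : ℕ} {g : (Fin (n+1) → E) → F} {f : Jets Ω → F} (hg : Rep 𝕜 n g f)
    (h : n ≤ m) : Rep 𝕜 m (fun p => g (res 𝕜 h p)) f := by
  refine ⟨?_, fun v => by simp only [res_pr]; exact hg.2 v⟩
  have h1 : ContDiff 𝕜 ∞ (fun p : Fin (m+1) → E => res 𝕜 h p) := (res (E := E) 𝕜 h).contDiff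
  exact hg.1.comp h1.contDiffOn (fun p hp => hp)

lemma IsSm.ge {f : Jets Ω → F} (hf : IsSm 𝕜 f) : ∃ n, ∀ m, n ≤ m → ∃ g, Rep 𝕜 m g f := by
  obtain ⟨n, g, hg⟩ := hf
  exact ⟨n, fun m hm => ⟨_, hg.mono hm⟩⟩

lemma IsSm.const (c : F) : IsSm 𝕜 (fun _ : Jets Ω => c) :=
  ⟨0, fun _ => c, contDiffOn_const, fun _ => rfl⟩

lemma IsSm.coord (k : ℕ) : IsSm 𝕜 (fun v : Jets Ω => v.1 k) :=
  ⟨k, fun p => p (Fin.last k), (contDiff_apply 𝕜 E (Fin.last k)).contDiffOn, fun v => by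
    simp [pr]⟩

lemma IsSm.base {C : E → F} (hC : ContDiffOn 𝕜 ∞ C Ω) : IsSm 𝕜 (fun v : Jets Ω => C (v.1 0)) :=
  ⟨0, fun p => C (p 0), hC.comp (contDiff_apply 𝕜 E 0).contDiffOn (fun p hp => hp), fun v => by
    simp [pr]⟩

lemma IsSm.add {f g : Jets Ω → F} (hf : IsSm 𝕜 f) (hg : IsSm 𝕜 g) : IsSm 𝕜 (fun v => f v + g v) := by
  obtain ⟨n, hn⟩ := hf.ge
  obtain ⟨m, hm⟩ := hg.ge
  obtain ⟨f', hf'⟩ := hn (max n m) (le_max_left _ _)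
  obtain ⟨g', hg'⟩ := hm (max n m) (le_max_right _ _)
  exact ⟨_, fun p => f' p + g' p, hf'.1.add hg'.1, fun v => by simp only [hf'.2, hg'.2]⟩

lemma IsSm.bilin (B : F₁ →L[𝕜] F₂ →L[𝕜] F₃) {f : Jets Ω → F₁} {g : Jets Ω → F₂}
    (hf : IsSm 𝕜 f) (hg : IsSm 𝕜 g) : IsSm 𝕜 (fun v => B (f v) (g v)) := by
  obtain ⟨n, hn⟩ := hf.ge
  obtain ⟨m, hm⟩ := hg.ge
  obtain ⟨f', hf'⟩ := hn (max n m) (le_max_left _ _)
  obtain ⟨g', hg'⟩ := hm (max n m) (le_max_right _ _)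
  refine ⟨_, fun p => B (f' p) (g' p), ?_, fun v => by simp only [hf'.2, hg'.2]⟩
  exact (B.contDiff.comp_contDiffOn hf'.1).clm_apply hg'.1

lemma IsSm.clm (L : F₁ →L[𝕜] F₂) {f : Jets Ω → F₁} (hf : IsSm 𝕜 f) : IsSm 𝕜 (fun v => L (f v)) := by
  obtain ⟨n, g, hg⟩ := hf
  exact ⟨n, fun p => L (g p), L.contDiff.comp_contDiffOn hg.1, fun v => by simp only [hg.2]⟩

lemma IsSm.smul (c : 𝕜) {f : Jets Ω → F} (hf : IsSm 𝕜 f) : IsSm 𝕜 (fun v => c • f v) := by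
  obtain ⟨n, g, hg⟩ := hf
  exact ⟨n, fun p => c • g p, hg.1.const_smul c, fun v => by simp only [hg.2]⟩

lemma IsSm.neg {f : Jets Ω → F} (hf : IsSm 𝕜 f) : IsSm 𝕜 (fun v => - f v) := by
  simpa using hf.smul (-1 : 𝕜)

/-- the extension by zero of a function on jets over `Ω` -/
noncomputable def ext0 (f : Jets Ω → F) (v : ℕ → E) : F :=
  open Classical in if h : v 0 ∈ Ω then f ⟨v, h⟩ else 0

variable (𝕜) in
/-- directional derivative -/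
noncomputable def ld (f : Jets Ω → F) (v : Jets Ω) (w : ℕ → E) : F :=
  deriv (fun t : 𝕜 => ext0 f (v.1 + t • w)) 0

lemma eventually_mem (v : Jets Ω) (w : ℕ → E) : ∀ᶠ t : 𝕜 in nhds 0, (v.1 + t • w) 0 ∈ Ω := by
  have h : Continuous (fun t : 𝕜 => (v.1 + t • w) 0) := by
    simp only [Pi.add_apply, Pi.smul_apply]
    fun_prop
  apply h.continuousAt.eventually_mem
  apply Ω.isOpen.mem_nhds
  simpa using v.2

lemma Rep.hasDerivAt {n : ℕ} {g : (Fin (n+1) → E) → F} {f : Jets Ω → F} (hg : Rep 𝕜 n g f)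
    (v : Jets Ω) (w : ℕ → E) :
    HasDerivAt (fun t : 𝕜 => ext0 f (v.1 + t • w)) (fderiv 𝕜 g (pr n v.1) (pr n w)) 0 := by
  have h1 : HasDerivAt (fun t : 𝕜 => g (pr n v.1 + t • pr n w)) (fderiv 𝕜 g (pr n v.1) (pr n w)) 0 := by
    have hd : DifferentiableAt 𝕜 g (pr n v.1) :=
      ((hg.1.contDiffAt ((isOpen_dom Ω n).mem_nhds (pr_mem n v)))).differentiableAt (by simp)
    have h2 : HasDerivAt (fun t : 𝕜 => pr n v.1 + t • pr n w) (pr n w) 0 := by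
      have := ((hasDerivAt_id (0:𝕜)).smul_const (pr n w)).const_add (pr n v.1)
      simpa using this
    have h3 : HasFDerivAt g (fderiv 𝕜 g (pr n v.1)) (pr n v.1 + (0:𝕜) • pr n w) := by
      simpa using hd.hasFDerivAt
    exact h3.comp_hasDerivAt (0:𝕜) h2
  apply h1.congr_of_eventuallyEq
  filter_upwards [eventually_mem (𝕜 := 𝕜) v w] with t ht
  rw [ext0, dif_pos ht, hg.2]
  rfl

lemma Rep.ld {n : ℕ} {g : (Fin (n+1) → E) → F} {f : Jets Ω → F} (hg : Rep 𝕜 n g f)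
    (v : Jets Ω) (w : ℕ → E) : ld 𝕜 f v w = fderiv 𝕜 g (pr n v.1) (pr n w) :=
  (hg.hasDerivAt v w).deriv

lemma Rep.diffAt {n : ℕ} {g : (Fin (n+1) → E) → F} {f : Jets Ω → F} (hg : Rep 𝕜 n g f)
    (v : Jets Ω) : DifferentiableAt 𝕜 g (pr n v.1) :=
  ((hg.1.contDiffAt ((isOpen_dom Ω n).mem_nhds (pr_mem n v)))).differentiableAt (by simp)

lemma Rep.contDiffAt {n : ℕ} {g : (Fin (n+1) → E) → F} {f : Jets Ω → F} (hg : Rep 𝕜 n g f)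
    (v : Jets Ω) : ContDiffAt 𝕜 ∞ g (pr n v.1) :=
  (hg.1.contDiffAt ((isOpen_dom Ω n).mem_nhds (pr_mem n v)))

lemma pr_add (n : ℕ) (w w' : ℕ → E) : pr n (w + w') = pr n w + pr n w' := rfl

lemma pr_smul (n : ℕ) (c : 𝕜) (w : ℕ → E) : pr n (c • w) = c • pr n w := rfl

lemma IsSm.ld_add_dir {f : Jets Ω → F} (hf : IsSm 𝕜 f) (v : Jets Ω) (w w' : ℕ → E) :
    ld 𝕜 f v (w + w') = ld 𝕜 f v w + ld 𝕜 f v w' := by
  obtain ⟨n, g, hg⟩ := hf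
  rw [hg.ld, hg.ld, hg.ld, pr_add, map_add]

lemma IsSm.ld_smul_dir {f : Jets Ω → F} (hf : IsSm 𝕜 f) (v : Jets Ω) (c : 𝕜) (w : ℕ → E) :
    ld 𝕜 f v (c • w) = c • ld 𝕜 f v w := by
  obtain ⟨n, g, hg⟩ := hf
  rw [hg.ld, hg.ld, pr_smul, map_smul]

lemma IsSm.exists_two {f : Jets Ω → F₁} {g : Jets Ω → F₂} (hf : IsSm 𝕜 f) (hg : IsSm 𝕜 g) :
    ∃ n f' g', Rep 𝕜 n f' f ∧ Rep 𝕜 n g' g := by
  obtain ⟨n, hn⟩ := hf.ge
  obtain ⟨m, hm⟩ := hg.ge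
  obtain ⟨f', hf'⟩ := hn (max n m) (le_max_left _ _)
  obtain ⟨g', hg'⟩ := hm (max n m) (le_max_right _ _)
  exact ⟨_, f', g', hf', hg'⟩

lemma IsSm.ld_add {f g : Jets Ω → F} (hf : IsSm 𝕜 f) (hg : IsSm 𝕜 g) (v : Jets Ω) (w : ℕ → E) :
    ld 𝕜 (fun v => f v + g v) v w = ld 𝕜 f v w + ld 𝕜 g v w := by
  obtain ⟨n, f', g', hf', hg'⟩ := hf.exists_two hg
  have h : Rep 𝕜 n (fun p => f' p + g' p) (fun v => f v + g v) :=
    ⟨hf'.1.add hg'.1, fun v => by simp only [hf'.2, hg'.2]⟩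
  rw [h.ld, hf'.ld, hg'.ld, fderiv_fun_add (hf'.diffAt v) (hg'.diffAt v)]
  rfl

lemma IsSm.ld_smul (c : 𝕜) {f : Jets Ω → F} (hf : IsSm 𝕜 f) (v : Jets Ω) (w : ℕ → E) :
    ld 𝕜 (fun v => c • f v) v w = c • ld 𝕜 f v w := by
  obtain ⟨n, g, hg⟩ := hf
  have h : Rep 𝕜 n (fun p => c • g p) (fun v => c • f v) :=
    ⟨hg.1.const_smul c, fun v => by simp only [hg.2]⟩
  rw [h.ld, hg.ld, fderiv_fun_const_smul (hg.diffAt v)]
  rfl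

lemma ld_const (c : F) (v : Jets Ω) (w : ℕ → E) : ld 𝕜 (fun _ : Jets Ω => c) v w = 0 := by
  have h : Rep 𝕜 0 (fun _ => c) (fun _ : Jets Ω => c) := ⟨contDiffOn_const, fun _ => rfl⟩
  rw [h.ld]; simp

lemma ld_coord (k : ℕ) (v : Jets Ω) (w : ℕ → E) : ld 𝕜 (fun v : Jets Ω => v.1 k) v w = w k := by
  have h : Rep 𝕜 k (fun p => p (Fin.last k)) (fun v : Jets Ω => v.1 k) :=
    ⟨(contDiff_apply 𝕜 E (Fin.last k)).contDiffOn, fun v => by simp [pr]⟩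
  rw [h.ld]
  have : (fun p : Fin (k+1) → E => p (Fin.last k)) = ContinuousLinearMap.proj (R := 𝕜) (φ := fun _ : Fin (k+1) => E) (Fin.last k) := rfl
  rw [this, ContinuousLinearMap.fderiv]
  simp [pr]

lemma ld_base {C : E → F} (hC : ContDiffOn 𝕜 ∞ C Ω) (v : Jets Ω) (w : ℕ → E) :
    ld 𝕜 (fun v : Jets Ω => C (v.1 0)) v w = fderiv 𝕜 C (v.1 0) (w 0) := by
  have h : Rep 𝕜 0 (fun p => C (p 0)) (fun v : Jets Ω => C (v.1 0)) :=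
    ⟨hC.comp (contDiff_apply 𝕜 E 0).contDiffOn (fun p hp => hp), fun v => by simp [pr]⟩
  rw [h.ld]
  have hd : DifferentiableAt 𝕜 C ((pr 0 v.1) 0) :=
    ((hC.contDiffAt (Ω.isOpen.mem_nhds v.2)).differentiableAt (by simp))
  have : (fun p : Fin (0+1) → E => C (p 0)) = C ∘ (ContinuousLinearMap.proj (R := 𝕜) (φ := fun _ : Fin (0+1) => E) 0) := rfl
  rw [this, fderiv_comp _ (by exact hd) (ContinuousLinearMap.differentiableAt _),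
    ContinuousLinearMap.fderiv]
  simp [pr]

lemma IsSm.ld_bilin (B : F₁ →L[𝕜] F₂ →L[𝕜] F₃) {f : Jets Ω → F₁} {g : Jets Ω → F₂}
    (hf : IsSm 𝕜 f) (hg : IsSm 𝕜 g) (v : Jets Ω) (w : ℕ → E) :
    ld 𝕜 (fun v => B (f v) (g v)) v w = B (ld 𝕜 f v w) (g v) + B (f v) (ld 𝕜 g v w) := by
  obtain ⟨n, f', g', hf', hg'⟩ := hf.exists_two hg
  have h : Rep 𝕜 n (fun p => B (f' p) (g' p)) (fun v => B (f v) (g v)) :=
    ⟨(B.contDiff.comp_contDiffOn hf'.1).clm_apply hg'.1, fun v => by simp only [hf'.2, hg'.2]⟩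
  rw [h.ld, hf'.ld, hg'.ld, B.fderiv_of_bilinear (hf'.diffAt v) (hg'.diffAt v), hf'.2, hg'.2]
  simp [add_comm]

lemma IsSm.ld_clm (L : F₁ →L[𝕜] F₂) {f : Jets Ω → F₁} (hf : IsSm 𝕜 f) (v : Jets Ω) (w : ℕ → E) :
    ld 𝕜 (fun v => L (f v)) v w = L (ld 𝕜 f v w) := by
  obtain ⟨n, g, hg⟩ := hf
  have h : Rep 𝕜 n (fun p => L (g p)) (fun v => L (f v)) :=
    ⟨L.contDiff.comp_contDiffOn hg.1, fun v => by simp only [hg.2]⟩
  rw [h.ld, hg.ld]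
  have : (fun p => L (g p)) = L ∘ g := rfl
  rw [this, fderiv_comp _ (L.differentiableAt) (hg.diffAt v), ContinuousLinearMap.fderiv]
  rfl

lemma IsSm.exists_rep_fin {k : ℕ} {f : Fin k → Jets Ω → F} (hf : ∀ i, IsSm 𝕜 (f i)) :
    ∃ n, ∀ i, ∃ g, Rep 𝕜 n g (f i) := by
  choose n hn using fun i => (hf i).ge
  exact ⟨Finset.univ.sup n, fun i => hn i _ (Finset.le_sup (Finset.mem_univ i))⟩

lemma IsSm.pi {k : ℕ} {f : Fin k → Jets Ω → F} (hf : ∀ i, IsSm 𝕜 (f i)) :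
    IsSm 𝕜 (fun v i => f i v) := by
  obtain ⟨n, hn⟩ := IsSm.exists_rep_fin hf
  choose g hg using hn
  exact ⟨n, fun p i => g i p, contDiffOn_pi.2 (fun i => (hg i).1), fun v => by
    ext i; exact (hg i).2 v⟩

lemma IsSm.ld_pi {k : ℕ} {f : Fin k → Jets Ω → F} (hf : ∀ i, IsSm 𝕜 (f i)) (v : Jets Ω)
    (w : ℕ → E) : ld 𝕜 (fun v i => f i v) v w = fun i => ld 𝕜 (f i) v w := by
  obtain ⟨n, hn⟩ := IsSm.exists_rep_fin hf
  choose g hg using hn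
  have h : Rep 𝕜 n (fun p i => g i p) (fun v i => f i v) :=
    ⟨contDiffOn_pi.2 (fun i => (hg i).1), fun v => by ext i; exact (hg i).2 v⟩
  rw [h.ld, fderiv_pi (fun i => (hg i).diffAt v)]
  ext i
  simp [(hg i).ld]

lemma Rep.fderiv {n : ℕ} {g : (Fin (n+1) → E) → F} {f : Jets Ω → F} (hg : Rep 𝕜 n g f) :
    Rep 𝕜 n (fderiv 𝕜 g) (fun v : Jets Ω => fderiv 𝕜 g (pr n v.1)) :=
  ⟨hg.1.fderiv_of_isOpen (isOpen_dom Ω n) (by simp), fun _ => rfl⟩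

/-- the evaluation map as a bilinear map -/
def evalB (𝕜 : Type*) [RCLike 𝕜] (F₁ F₂ : Type*) [NormedAddCommGroup F₁] [NormedSpace 𝕜 F₁]
    [NormedAddCommGroup F₂] [NormedSpace 𝕜 F₂] : (F₁ →L[𝕜] F₂) →L[𝕜] F₁ →L[𝕜] F₂ :=
  ContinuousLinearMap.id 𝕜 _

lemma IsSm.ld_field {f : Jets Ω → F} (hf : IsSm 𝕜 f) {W : Jets Ω → ℕ → E}
    (hW : ∀ k, IsSm 𝕜 (fun v => W v k)) : IsSm 𝕜 (fun v => ld 𝕜 f v (W v)) := by
  obtain ⟨n, g, hg⟩ := hf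
  have h1 : IsSm 𝕜 (fun v : Jets Ω => fderiv 𝕜 g (pr n v.1)) := ⟨n, _, hg.fderiv⟩
  have h2 : IsSm 𝕜 (fun v : Jets Ω => fun i : Fin (n+1) => W v i) := IsSm.pi (fun i => hW i)
  have h3 := IsSm.bilin (evalB 𝕜 (Fin (n+1) → E) F) h1 h2
  have : (fun v => ld 𝕜 f v (W v)) = (fun v : Jets Ω => evalB 𝕜 (Fin (n+1) → E) F
      (fderiv 𝕜 g (pr n v.1)) (fun i : Fin (n+1) => W v i)) := by
    funext v
    rw [hg.ld]
    rfl
  rw [this]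
  exact h3

lemma IsSm.ld_dir {f : Jets Ω → F} (hf : IsSm 𝕜 f) (w : ℕ → E) : IsSm 𝕜 (fun v => ld 𝕜 f v w) :=
  hf.ld_field (W := fun _ => w) (fun k => IsSm.const (w k))

lemma IsSm.ld_ld_field {f : Jets Ω → F} (hf : IsSm 𝕜 f) {W : Jets Ω → ℕ → E}
    (hW : ∀ k, IsSm 𝕜 (fun v => W v k)) (v : Jets Ω) (w : ℕ → E) :
    ld 𝕜 (fun v => ld 𝕜 f v (W v)) v w =
      ld 𝕜 (fun v' => ld 𝕜 f v' (W v)) v w + ld 𝕜 f v (fun k => ld 𝕜 (fun v => W v k) v w) := by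
  obtain ⟨n, g, hg⟩ := hf
  have h1 : IsSm 𝕜 (fun v : Jets Ω => fderiv 𝕜 g (pr n v.1)) := ⟨n, _, hg.fderiv⟩
  have key : ∀ {W : Jets Ω → ℕ → E} (hW : ∀ k, IsSm 𝕜 (fun v => W v k)),
      ld 𝕜 (fun v => ld 𝕜 f v (W v)) v w = fderiv 𝕜 (fderiv 𝕜 g) (pr n v.1) (pr n w) (pr n (W v))
        + fderiv 𝕜 g (pr n v.1) (fun i : Fin (n+1) => ld 𝕜 (fun v => W v i) v w) := by
    intro W hW
    have h2 : IsSm 𝕜 (fun v : Jets Ω => fun i : Fin (n+1) => W v i) := IsSm.pi (fun i => hW i)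
    have : (fun v => ld 𝕜 f v (W v)) = (fun v : Jets Ω => evalB 𝕜 (Fin (n+1) → E) F
        (fderiv 𝕜 g (pr n v.1)) (fun i : Fin (n+1) => W v i)) := by
      funext v
      rw [hg.ld]
      rfl
    rw [this, IsSm.ld_bilin _ h1 h2, hg.fderiv.ld, IsSm.ld_pi (fun i : Fin (n+1) => hW i)]
    rfl
  rw [key hW, key (W := fun _ => W v) (fun k => IsSm.const _), hg.ld]
  have : (fun i : Fin (n+1) => ld 𝕜 (fun _ : Jets Ω => W v i) v w) = 0 := by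
    funext i; exact ld_const _ _ _
  rw [this, map_zero, add_zero]
  rfl

lemma IsSm.ld_symm {f : Jets Ω → F} (hf : IsSm 𝕜 f) (v : Jets Ω) (w w' : ℕ → E) :
    ld 𝕜 (fun v => ld 𝕜 f v w) v w' = ld 𝕜 (fun v => ld 𝕜 f v w') v w := by
  obtain ⟨n, g, hg⟩ := hf
  have key : ∀ w w' : ℕ → E, ld 𝕜 (fun v => ld 𝕜 f v w) v w' =
      fderiv 𝕜 (fderiv 𝕜 g) (pr n v.1) (pr n w') (pr n w) := by
    intro w w'
    have h1 : IsSm 𝕜 (fun v : Jets Ω => fderiv 𝕜 g (pr n v.1)) := ⟨n, _, hg.fderiv⟩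
    have : (fun v => ld 𝕜 f v w) = (fun v : Jets Ω => evalB 𝕜 (Fin (n+1) → E) F
        (fderiv 𝕜 g (pr n v.1)) (pr n w)) := by
      funext v
      rw [hg.ld]
      rfl
    rw [this, IsSm.ld_bilin _ h1 (IsSm.const _), hg.fderiv.ld, ld_const]
    simp [evalB]
  rw [key, key]
  have h2 : IsSymmSndFDerivAt 𝕜 g (pr n v.1) :=
    (hg.contDiffAt v).isSymmSndFDerivAt (by
      simp only [minSmoothness_of_isRCLikeNormedField]
      exact WithTop.coe_le_coe.2 (le_top : (2:ℕ∞) ≤ ⊤))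
  exact h2 _ _

end Basic

end Pool.Agent.H99.TJ
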