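import Pool.Agent.H99.TJ.Tens
import Pool.Agent.H99.TJ.Coef3

open scoped ContDiff

namespace Pool.Agent.H99.TJ

open TopologicalSpace

section Lin

variable {𝕜 : Type*} [RCLike 𝕜] {E : Type*} [NormedAddCommGroup E] [NormedSpace 𝕜 E]
variable {Ω : Opens E}
variable {F : Type*} [NormedAddCommGroup F] [NormedSpace 𝕜 F]

/-- `e ↦ f e a b` -/
noncomputable def s1 (f : SF 𝕜 Ω (Hm 𝕜 E (Hm 𝕜 E (Hm 𝕜 E F)))) (a b : SF 𝕜 Ω E) :
    SF 𝕜 Ω (Hm 𝕜 E F) := ap (Conn.fl (ap (Conn.fl f) a)) b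

lemma s1_val (f : SF 𝕜 Ω (Hm 𝕜 E (Hm 𝕜 E (Hm 𝕜 E F)))) (a b : SF 𝕜 Ω E) (v : Jets Ω) (e : E) :
    (s1 f a b).1 v e = f.1 v e (a.1 v) (b.1 v) := rfl

lemma Conn.cov_s1 (c : Conn 𝕜 Ω) [Rp 𝕜 E F] (X : ℕ → SF 𝕜 Ω E)
    (f : SF 𝕜 Ω (Hm 𝕜 E (Hm 𝕜 E (Hm 𝕜 E F)))) (a b : SF 𝕜 Ω E) :
    c.cov X (s1 f a b) = s1 (c.cov X f) a b + s1 f (c.cov X a) b + s1 f a (c.cov X b) := by
  apply SF.ext; intro v
  ext e
  simp only [s1, c.cov_ap, c.cov_fl, Conn.fl_val, add_val, ap_val, Hm.add_ap]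

/-- covariant derivatives of the velocity -/
noncomputable def Conn.P (c : Conn 𝕜 Ω) : ℕ → SF 𝕜 Ω E
  | 0 => coord 1
  | k + 1 => c.D (Conn.P c k)

lemma Conn.D_P (c : Conn 𝕜 Ω) (k : ℕ) : c.cov sh (c.P k) = c.P (k+1) := rfl

lemma Conn.sh_zero (c : Conn 𝕜 Ω) : (sh 0 : SF 𝕜 Ω E) = c.P 0 := rfl

lemma Conn.cov_prol_P0 (c : Conn 𝕜 Ω) (φ : SF 𝕜 Ω E) :
    c.cov (prol φ) (c.P 0) = c.cov sh φ + ap (ap c.Th φ) (c.P 0) := by
  have h : dv (prol φ) (sh 0 : SF 𝕜 Ω E) = dv sh (prol φ 0) := by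
    rw [show (sh 0 : SF 𝕜 Ω E) = coord (0+1) from rfl, dv_coord, prol_succ]
  exact c.cov_torsion h

lemma Conn.cov_prol_D (c : Conn 𝕜 Ω) (φ ψ : SF 𝕜 Ω E) :
    c.cov (prol φ) (c.cov sh ψ) = c.cov sh (c.cov (prol φ) ψ) + ap (ap (ap c.Rh φ) (c.P 0)) ψ := by
  have h : dv (prol φ) (sh 0 : SF 𝕜 Ω E) = dv sh (prol φ 0) := by
    rw [show (sh 0 : SF 𝕜 Ω E) = coord (0+1) from rfl, dv_coord, prol_succ]
  exact c.cov_curv h ψ (dv_prol_sh φ ψ)

lemma Conn.cov_prol_prol (c : Conn 𝕜 Ω) {φ ψ : SF 𝕜 Ω E} (h : dv (prol φ) ψ = dv (prol ψ) φ)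
    (χ : SF 𝕜 Ω E) :
    c.cov (prol φ) (c.cov (prol ψ) χ) = c.cov (prol ψ) (c.cov (prol φ) χ)
      + ap (ap (ap c.Rh φ) ψ) χ := by
  have h1 : dv (prol φ) (prol ψ 0) = dv (prol ψ) (prol φ 0) := h
  have h2 := ev_bracket φ ψ χ
  have h3 : prol (dv (prol φ) ψ - dv (prol ψ) φ) = fun _ => (0 : SF 𝕜 Ω E) := by
    rw [h, sub_self]
    funext k
    induction k with
    | zero => rfl
    | succ k ih => rw [prol_succ, ih, map_zero]
  rw [h3, dv_zero_field] at h2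
  exact c.cov_curv h1 χ (sub_eq_zero.1 h2)

/-- linear dependence on the field -/
lemma dv_prol_add (φ ψ : SF 𝕜 Ω E) (f : SF 𝕜 Ω F) :
    dv (prol (φ + ψ)) f = dv (prol φ) f + dv (prol ψ) f := by
  have h : ∀ k, prol (φ + ψ) k = prol φ k + prol ψ k := by
    intro k
    induction k with
    | zero => rfl
    | succ k ih => rw [prol_succ, ih, map_add, prol_succ, prol_succ]
  apply SF.ext; intro v
  have h2 : (fun k => (prol (φ + ψ) k).1 v) = (fun k => (prol φ k).1 v) + (fun k => (prol ψ k).1 v) := by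
    funext k; rw [h]; rfl
  rw [dv_apply, h2, f.sm.ld_add_dir]
  rfl

lemma dv_prol_smul (r : 𝕜) (φ : SF 𝕜 Ω E) (f : SF 𝕜 Ω F) :
    dv (prol (r • φ)) f = r • dv (prol φ) f := by
  have h : ∀ k, prol (r • φ) k = r • prol φ k := by
    intro k
    induction k with
    | zero => rfl
    | succ k ih => rw [prol_succ, ih, map_smul, prol_succ]
  apply SF.ext; intro v
  have h2 : (fun k => (prol (r • φ) k).1 v) = r • (fun k => (prol φ k).1 v) := by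
    funext k; rw [h]; rfl
  rw [dv_apply, h2, f.sm.ld_smul_dir]
  rfl

/-- the adjoint operator of an evolutionary field -/
noncomputable def AD (S : SF 𝕜 Ω E) : Module.End 𝕜 (SF 𝕜 Ω E) where
  toFun φ := dv (prol S) φ - dv (prol φ) S
  map_add' φ ψ := by rw [map_add, dv_prol_add]; abel
  map_smul' r φ := by rw [map_smul, dv_prol_smul, smul_sub]; rfl

lemma AD_apply (S φ : SF 𝕜 Ω E) : AD S φ = dv (prol S) φ - dv (prol φ) S := rfl

lemma AD_comm {K S : SF 𝕜 Ω E} (h : dv (prol K) S = dv (prol S) K) : AD K * AD S = AD S * AD K := by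
  apply LinearMap.ext; intro φ
  change dv (prol K) (dv (prol S) φ - dv (prol φ) S) - dv (prol (dv (prol S) φ - dv (prol φ) S)) K
    = dv (prol S) (dv (prol K) φ - dv (prol φ) K) - dv (prol (dv (prol K) φ - dv (prol φ) K)) S
  have e1 := ev_bracket S φ K
  have e2 := ev_bracket K φ S
  rw [← e1, ← e2, map_sub, map_sub]
  have e3 := ev_bracket K S φ
  have h3 : prol (dv (prol K) S - dv (prol S) K) = fun _ => (0 : SF 𝕜 Ω E) := by
    rw [h, sub_self]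
    funext k
    induction k with
    | zero => rfl
    | succ k ih => rw [prol_succ, ih, map_zero]
  rw [h3, dv_zero_field, sub_eq_zero] at e3
  rw [e3, h]
  abel

/-- `N_S = D_S - ad_S` -/
noncomputable def Conn.NN (c : Conn 𝕜 Ω) (S : SF 𝕜 Ω E) : Module.End 𝕜 (SF 𝕜 Ω E) :=
  c.op (prol S) - AD S

lemma Conn.NN_apply (c : Conn 𝕜 Ω) (S φ : SF 𝕜 Ω E) :
    c.NN S φ = c.cov (prol φ) S + ap (ap c.Th S) φ := by
  change c.cov (prol S) φ - (dv (prol S) φ - dv (prol φ) S) = _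
  apply SF.ext; intro v
  simp only [c.cov_vec, add_val, sub_val, ap_val, prol_zero, Conn.Th, Conn.αh, base_val,
    Conn.T_apply]
  abel

end Lin

end Pool.Agent.H99.TJ
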