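import Pool.Agent.H99.TJ.Lin

open scoped ContDiff

namespace Pool.Agent.H99.TJ

open TopologicalSpace

set_option linter.unusedSectionVars false

section FilS

variable {𝕜 : Type*} [Field 𝕜] {O : Type*} [Ring O] [Algebra 𝕜 O]

/-- operators of order `< m` with coefficients in `V` -/
def FilS (V : Submodule 𝕜 O) (d : O) (m : ℕ) : Submodule 𝕜 O where
  carrier := {x | ∃ f : ℕ → O, (∀ k, f k ∈ V) ∧ x = ∑ k ∈ Finset.range m, f k * d ^ k}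
  add_mem' := by
    rintro _ _ ⟨f, hf, rfl⟩ ⟨g, hg, rfl⟩
    refine ⟨fun k => f k + g k, fun k => V.add_mem (hf k) (hg k), ?_⟩
    rw [← Finset.sum_add_distrib]
    exact Finset.sum_congr rfl fun k _ => by rw [add_mul]
  zero_mem' := ⟨fun _ => 0, fun _ => V.zero_mem, by simp⟩
  smul_mem' := by
    rintro c _ ⟨f, hf, rfl⟩
    refine ⟨fun k => c • f k, fun k => V.smul_mem c (hf k), ?_⟩
    rw [Finset.smul_sum]
    exact Finset.sum_congr rfl fun k _ => by rw [smul_mul_assoc]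

variable {V : Submodule 𝕜 O} {d : O}

lemma mem_FilS {g : O} (hg : g ∈ V) {k m : ℕ} (h : k < m) : g * d ^ k ∈ FilS V d m := by
  classical
  refine ⟨fun j => if j = k then g else 0, fun j => ?_, ?_⟩
  · by_cases hj : j = k
    · simp [hj, hg]
    · simp [hj, V.zero_mem]
  · rw [Finset.sum_eq_single k]
    · simp
    · intro j _ hj; simp [hj]
    · intro hk; exact absurd (Finset.mem_range.2 h) hk

lemma FilS_le_of {m : ℕ} {S : Submodule 𝕜 O} (h : ∀ g ∈ V, ∀ k < m, g * d ^ k ∈ S) :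
    FilS V d m ≤ S := by
  rintro _ ⟨f, hf, rfl⟩
  exact S.sum_mem fun k hk => h _ (hf k) k (Finset.mem_range.1 hk)

lemma FilS_mono {m n : ℕ} (h : m ≤ n) : FilS V d m ≤ FilS V d n :=
  FilS_le_of fun _ hg _ hk => mem_FilS hg (by omega)

lemma G_FilS {g x : O} (hg : ∀ v ∈ V, g * v ∈ V) {m : ℕ} (hx : x ∈ FilS V d m) :
    g * x ∈ FilS V d m := by
  have : FilS V d m ≤ (FilS V d m).comap (LinearMap.mulLeft 𝕜 g) := by
    apply FilS_le_of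
    intro g' hg' k hk
    rw [Submodule.mem_comap, LinearMap.mulLeft_apply, ← mul_assoc]
    exact mem_FilS (hg _ hg') hk
  exact this hx

lemma d_FilS (hd : ∀ g ∈ V, ad d g ∈ V) {x : O} {m : ℕ} (hx : x ∈ FilS V d m) :
    d * x ∈ FilS V d (m+1) := by
  have : FilS V d m ≤ (FilS V d (m+1)).comap (LinearMap.mulLeft 𝕜 d) := by
    apply FilS_le_of
    intro g hg k hk
    rw [Submodule.mem_comap, LinearMap.mulLeft_apply]
    have : d * (g * d ^ k) = ad d g * d ^ k + g * d ^ (k+1) := by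
      unfold ad
      rw [pow_succ']
      noncomm_ring
    rw [this]
    exact (FilS V d (m+1)).add_mem (mem_FilS (hd g hg) (by omega)) (mem_FilS hg (by omega))
  exact this hx

lemma pow_sub_FilS (hd : ∀ g ∈ V, ad d g ∈ V) {γ : O} (hγ : γ ∈ V) (hγV : ∀ v ∈ V, γ * v ∈ V)
    (k : ℕ) : (d - γ) ^ k - d ^ k ∈ FilS V d k := by
  induction k with
  | zero => simp
  | succ k ih =>
    have : (d - γ) ^ (k+1) - d ^ (k+1) = d * ((d - γ)^k - d^k) - γ * d^k - γ * ((d - γ)^k - d^k) := by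
      rw [pow_succ', pow_succ']
      noncomm_ring
    rw [this]
    exact (FilS V d (k+1)).sub_mem ((FilS V d (k+1)).sub_mem (d_FilS hd ih) (mem_FilS hγ (by omega)))
      (FilS_mono (by omega) (G_FilS hγV ih))

lemma mul_split (a x y : O) : a * x = a * y + a * (x - y) := by noncomm_ring

end FilS

section Lin2

variable {𝕜 : Type*} [RCLike 𝕜] {E : Type*} [NormedAddCommGroup E] [NormedSpace 𝕜 E]
variable {Ω : Opens E}
variable {F : Type*} [NormedAddCommGroup F] [NormedSpace 𝕜 F]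

/-- inclusion of a coordinate -/
def sgl (𝕜 : Type*) [RCLike 𝕜] (E : Type*) [NormedAddCommGroup E] [NormedSpace 𝕜 E] (n k : ℕ) :
    E →L[𝕜] (Fin (n+1) → E) :=
  ContinuousLinearMap.pi fun i => if (i : ℕ) = k then ContinuousLinearMap.id 𝕜 E else 0

lemma sgl_apply (n k : ℕ) (e : E) : sgl 𝕜 E n k e = pr n (Pi.single k e) := by
  funext i
  simp only [sgl, ContinuousLinearMap.coe_pi', pr]
  by_cases h : (i : ℕ) = k
  · subst h; simp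
  · simp [h]

/-- partial derivative in the coordinate `k` -/
noncomputable def pd (k : ℕ) (f : SF 𝕜 Ω F) : SF 𝕜 Ω (Hm 𝕜 E F) :=
  ⟨fun v => Hm.ofL ((fderiv 𝕜 f.sm.choose_spec.choose (pr f.sm.choose v.1)).comp
      (sgl 𝕜 E f.sm.choose k)), by
    have h1 := f.sm.choose_spec.choose_spec.fderiv
    have h2 : IsSm 𝕜 (fun v : Jets Ω => fderiv 𝕜 f.sm.choose_spec.choose (pr f.sm.choose v.1)) :=
      ⟨_, _, h1⟩
    exact IsSm.clm (Hm.ofL.comp ((ContinuousLinearMap.compL 𝕜 E _ F).flip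
      (sgl 𝕜 E f.sm.choose k))) h2⟩

lemma pd_val (k : ℕ) (f : SF 𝕜 Ω F) (v : Jets Ω) (e : E) :
    (pd k f).1 v e = ld 𝕜 f.1 v (Pi.single k e) := by
  rw [f.sm.choose_spec.choose_spec.ld, ← sgl_apply (𝕜 := 𝕜)]
  rfl

lemma ld_zero_dir (f : SF 𝕜 Ω F) (v : Jets Ω) : ld 𝕜 f.1 v 0 = 0 := by
  have := f.sm.ld_smul_dir v (0:𝕜) 0
  rw [zero_smul, zero_smul] at this
  exact this

lemma ld_sum_dir (f : SF 𝕜 Ω F) (v : Jets Ω) (w : ℕ → ℕ → E) (m : ℕ) :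
    ld 𝕜 f.1 v (∑ k ∈ Finset.range m, w k) = ∑ k ∈ Finset.range m, ld 𝕜 f.1 v (w k) := by
  induction m with
  | zero => simp [ld_zero_dir]
  | succ m ih => rw [Finset.sum_range_succ, f.sm.ld_add_dir, ih, Finset.sum_range_succ]

lemma ld_expand {m : ℕ} {f : SF 𝕜 Ω F} (h : OrdLE m f) (v : Jets Ω) (w : ℕ → E) :
    ld 𝕜 f.1 v w = ∑ k ∈ Finset.range (m+1), ld 𝕜 f.1 v (Pi.single k (w k)) := by
  rw [← ld_sum_dir f v (fun k => Pi.single k (w k))]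
  apply ld_congr h (fun _ _ => rfl)
  intro k hk
  rw [Finset.sum_apply, Finset.sum_eq_single k]
  · simp
  · intro j _ hj
    rw [Pi.single_eq_of_ne (Ne.symm hj)]
  · intro hk'
    exact absurd (Finset.mem_range.2 (by omega)) hk'

lemma dv_expand {m : ℕ} {f : SF 𝕜 Ω F} (h : OrdLE m f) (X : ℕ → SF 𝕜 Ω E) :
    dv X f = ∑ k ∈ Finset.range (m+1), ap (pd k f) (X k) := by
  apply SF.ext
  intro v
  rw [dv_apply, ld_expand h, AddSubmonoidClass.coe_finsetSum, Finset.sum_apply]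
  apply Finset.sum_congr rfl
  intro k _
  rw [ap_val, pd_val]

lemma Conn.dv_sh_eq (c : Conn 𝕜 Ω) (φ : SF 𝕜 Ω E) :
    dv sh φ = (c.op sh - io (ap c.αh (c.P 0))) φ := by
  change _ = c.cov sh φ - ap (ap c.αh (sh 0)) φ
  rw [c.cov_vec]
  abel

lemma Conn.dv_sh_pow (c : Conn 𝕜 Ω) (φ : SF 𝕜 Ω E) (k : ℕ) :
    prol φ k = ((c.op sh - io (ap c.αh (c.P 0)))^k) φ := by
  induction k with
  | zero => rfl
  | succ k ih => rw [prol_succ, ih, c.dv_sh_eq, pow_succ']; rfl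

lemma Conn.NN_eq (c : Conn 𝕜 Ω) {m : ℕ} {S : SF 𝕜 Ω E} (h : OrdLE m S) :
    c.NN S = ∑ k ∈ Finset.range (m+1), io (pd k S) * (c.op sh - io (ap c.αh (c.P 0)))^k
      + io (ap c.αh S) := by
  apply LinearMap.ext
  intro φ
  rw [LinearMap.add_apply, LinearMap.sum_apply]
  have : (∑ k ∈ Finset.range (m+1), (io (pd k S) * (c.op sh - io (ap c.αh (c.P 0)))^k) φ)
      = dv (prol φ) S := by
    rw [dv_expand h]
    apply Finset.sum_congr rfl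
    intro k _
    rw [c.dv_sh_pow]
    rfl
  rw [this]
  change c.cov (prol S) φ - (dv (prol S) φ - dv (prol φ) S) = dv (prol φ) S + ap (ap c.αh S) φ
  rw [c.cov_vec]
  rw [prol_zero]
  abel

/-- the multiplication operators vanishing at zero jets -/
def ZZ : Submodule 𝕜 (Module.End 𝕜 (SF 𝕜 Ω E)) where
  carrier := {x | ∃ f : SF 𝕜 Ω (Hm 𝕜 E E), Z0 f ∧ io f = x}
  add_mem' := by
    rintro _ _ ⟨f, hf, rfl⟩ ⟨g, hg, rfl⟩
    refine ⟨f + g, fun v hv => ?_, io_add f g⟩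
    rw [add_val, hf v hv, hg v hv, add_zero]
  zero_mem' := ⟨0, fun _ _ => rfl, rfl⟩
  smul_mem' := by
    rintro r _ ⟨f, hf, rfl⟩
    refine ⟨r • f, fun v hv => ?_, io_smul r f⟩
    rw [smul_val, hf v hv, smul_zero]

lemma mem_ZZ {f : SF 𝕜 Ω (Hm 𝕜 E E)} (h : Z0 f) : io f ∈ ZZ (𝕜 := 𝕜) (Ω := Ω) := ⟨f, h, rfl⟩

lemma Z0_of_mem {f : SF 𝕜 Ω (Hm 𝕜 E E)} (h : io f ∈ ZZ (𝕜 := 𝕜) (Ω := Ω)) : Z0 f := by
  obtain ⟨g, hg, hgf⟩ := h
  rw [← io_inj hgf]; exact hg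

lemma ZZ_le {x : Module.End 𝕜 (SF 𝕜 Ω E)} (h : x ∈ ZZ (𝕜 := 𝕜) (Ω := Ω)) :
    x ∈ GG (𝕜 := 𝕜) (Ω := Ω) := by
  obtain ⟨g, _, rfl⟩ := h
  exact io_mem g

lemma G_ZZ {g x : Module.End 𝕜 (SF 𝕜 Ω E)} (hg : g ∈ GG (𝕜 := 𝕜) (Ω := Ω))
    (hx : x ∈ ZZ (𝕜 := 𝕜) (Ω := Ω)) : g * x ∈ ZZ (𝕜 := 𝕜) (Ω := Ω) := by
  obtain ⟨f, rfl⟩ := hg
  obtain ⟨z, hz, rfl⟩ := hx
  refine ⟨mulE f z, fun v hv => ?_, io_mul f z⟩
  ext w
  rw [mulE_val, hz v hv]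
  simp

lemma Conn.ad_GG (c : Conn 𝕜 Ω) (X : ℕ → SF 𝕜 Ω E) (f : SF 𝕜 Ω (Hm 𝕜 E E)) :
    ad (c.op X) (io f) = io (c.cov X f) := c.op_io X f

lemma Conn.hd (c : Conn 𝕜 Ω) : ∀ g ∈ GG (𝕜 := 𝕜) (Ω := Ω), ad (c.op sh) g ∈ GG (𝕜 := 𝕜) (Ω := Ω) := by
  rintro _ ⟨f, rfl⟩
  rw [c.ad_GG]
  exact io_mem _

lemma Conn.hdX (c : Conn 𝕜 Ω) (X : ℕ → SF 𝕜 Ω E) :
    ∀ g ∈ GG (𝕜 := 𝕜) (Ω := Ω), ad (c.op X) g ∈ GG (𝕜 := 𝕜) (Ω := Ω) := by
  rintro _ ⟨f, rfl⟩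
  rw [c.ad_GG]
  exact io_mem _

lemma Conn.hZd (c : Conn 𝕜 Ω) : ∀ g ∈ GG (𝕜 := 𝕜) (Ω := Ω), ad (c.op sh) g ∈ ZZ (𝕜 := 𝕜) (Ω := Ω) := by
  rintro _ ⟨f, rfl⟩
  rw [c.ad_GG]
  exact mem_ZZ (c.Z0_D f)

lemma Conn.hZc (c : Conn 𝕜 Ω) : ∀ g ∈ GG (𝕜 := 𝕜) (Ω := Ω), g ∈ ZZ (𝕜 := 𝕜) (Ω := Ω) →
    ad (c.op sh) g = 0 → g = 0 := by
  rintro _ ⟨f, rfl⟩ hZ h
  rw [c.ad_GG, ← io_zero] at h
  rw [c.const_zero (io_inj h) (Z0_of_mem hZ), io_zero]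

lemma Conn.hfree (c : Conn 𝕜 Ω) : ∀ (M : ℕ) (f : ℕ → Module.End 𝕜 (SF 𝕜 Ω E)),
    (∀ k, f k ∈ GG (𝕜 := 𝕜) (Ω := Ω)) →
    ∑ k ∈ Finset.range M, f k * (c.op sh) ^ k = 0 → ∀ k < M, f k = 0 := by
  intro M f hf h k hk
  choose g hg using hf
  have h1 : ∑ k ∈ Finset.range M, io (g k) * c.op sh ^ k = 0 := by
    rw [← h]
    exact Finset.sum_congr rfl fun k _ => by rw [hg]
  have h2 := c.free M g h1 k hk
  rw [← hg k, h2, io_zero]

/-- the linearisation of a function `v_n + ...` -/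
lemma Conn.NN_form (c : Conn 𝕜 Ω) {n : ℕ} (h0 : 0 < n) {S : SF 𝕜 Ω E} (h : OrdLE n S)
    (htop : pd n S = oneE) (hZ : ∀ k, k < n → n ≤ k + 3 → Z0 (pd k S)) :
    ∃ f : ℕ → Module.End 𝕜 (SF 𝕜 Ω E), (∀ k, f k ∈ GG (𝕜 := 𝕜) (Ω := Ω)) ∧
      (∀ k, k < n → 0 < k → n ≤ k + 3 → f k ∈ ZZ (𝕜 := 𝕜) (Ω := Ω)) ∧
      c.NN S = c.op sh ^ n + ∑ k ∈ Finset.range n, f k * c.op sh ^ k := by
  set d := c.op sh with hdd
  set γ : Module.End 𝕜 (SF 𝕜 Ω E) := io (ap c.αh (c.P 0)) with hγ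
  have hγZ : γ ∈ ZZ (𝕜 := 𝕜) (Ω := Ω) := by
    apply mem_ZZ
    intro v hv
    rw [ap_val]
    have : (c.P 0).1 v = 0 := hv 0
    rw [this, map_zero]
  have hVd : ∀ g ∈ ZZ (𝕜 := 𝕜) (Ω := Ω), ad d g ∈ ZZ (𝕜 := 𝕜) (Ω := Ω) :=
    fun g hg => c.hZd g (ZZ_le hg)
  have hy : ∀ k, (d - γ)^k - d^k ∈ FilS (ZZ (𝕜 := 𝕜) (Ω := Ω)) d k :=
    pow_sub_FilS hVd hγZ (fun v hv => G_ZZ (ZZ_le hγZ) hv)
  have hsum : ∑ k ∈ Finset.range (n+1), io (pd k S) * ((d - γ)^k - d^k)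
      ∈ FilS (ZZ (𝕜 := 𝕜) (Ω := Ω)) d n := by
    apply Submodule.sum_mem
    intro k hk
    exact FilS_mono (by have := Finset.mem_range.1 hk; omega)
      (G_FilS (fun v hv => G_ZZ (io_mem _) hv) (hy k))
  obtain ⟨z, hz, hze⟩ := hsum
  refine ⟨fun k => io (pd k S) + z k + (if k = 0 then io (ap c.αh S) else 0), ?_, ?_, ?_⟩
  · intro k
    refine Subalgebra.add_mem _ (Subalgebra.add_mem _ (io_mem _) (ZZ_le (hz k))) ?_
    by_cases hk : k = 0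
    · simp only [hk, if_true]; exact io_mem _
    · simp only [hk, if_false]; exact Subalgebra.zero_mem _
  · intro k hk h0' h3
    have hk0 : k ≠ 0 := by omega
    simp only [hk0, if_false, add_zero]
    exact Submodule.add_mem _ (mem_ZZ (hZ k hk h3)) (hz k)
  · rw [c.NN_eq h]
    have e1 : ∑ k ∈ Finset.range (n+1), io (pd k S) * (d - γ)^k
        = ∑ k ∈ Finset.range (n+1), io (pd k S) * d^k
          + ∑ k ∈ Finset.range (n+1), io (pd k S) * ((d - γ)^k - d^k) := by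
      rw [← Finset.sum_add_distrib]
      exact Finset.sum_congr rfl fun k _ => mul_split (O := Module.End 𝕜 (SF 𝕜 Ω E)) _ _ _
    rw [e1, hze, Finset.sum_range_succ, htop, io_one, one_mul]
    have e2 : ∑ k ∈ Finset.range n, (if k = 0 then io (ap c.αh S) else 0) * d^k
        = io (ap c.αh S) := by
      rw [Finset.sum_eq_single 0]
      · simp
      · intro b _ hb; simp [hb]
      · intro hh; exact absurd (Finset.mem_range.2 h0) hh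
    simp only [add_mul, Finset.sum_add_distrib]
    rw [e2]
    abel

end Lin2

end Pool.Agent.H99.TJ
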