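import Pool.Agent.H99.TJ.Lin2

open scoped ContDiff

namespace Pool.Agent.H99.TJ

open TopologicalSpace

set_option linter.unusedSectionVars false

section NK

variable {𝕜 : Type*} [RCLike 𝕜] {E : Type*} [NormedAddCommGroup E] [NormedSpace 𝕜 E]
variable {Ω : Opens E}
variable {F : Type*} [NormedAddCommGroup F] [NormedSpace 𝕜 F]

/-- `e ↦ f e a b c` -/
noncomputable def s0 (f : SF 𝕜 Ω (Hm 𝕜 E (Hm 𝕜 E (Hm 𝕜 E (Hm 𝕜 E F))))) (a b c : SF 𝕜 Ω E) :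
    SF 𝕜 Ω (Hm 𝕜 E F) := s1 (ap (Conn.fl f) a) b c

lemma s0_val (f : SF 𝕜 Ω (Hm 𝕜 E (Hm 𝕜 E (Hm 𝕜 E (Hm 𝕜 E F))))) (a b c : SF 𝕜 Ω E)
    (v : Jets Ω) (e : E) : (s0 f a b c).1 v e = f.1 v e (a.1 v) (b.1 v) (c.1 v) := rfl

namespace Sys

variable (c : Sys 𝕜 Ω)

/-- the covariant derivative of the torsion, as a differential function -/
noncomputable def nTh : SF 𝕜 Ω (Hm 𝕜 E (Hm 𝕜 E (Hm 𝕜 E E))) := base (c.nab c.T) (c.nab_sm c.T_sm)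
noncomputable def nRh : SF 𝕜 Ω (Hm 𝕜 E (Hm 𝕜 E (Hm 𝕜 E (Hm 𝕜 E E)))) :=
  base (c.nab c.R) (c.nab_sm c.R_sm)
noncomputable def nβh : SF 𝕜 Ω (Hm 𝕜 E (Hm 𝕜 E (Hm 𝕜 E (Hm 𝕜 E E)))) :=
  base (c.nab c.β) (c.nab_sm c.βsm)
noncomputable def nsh : SF 𝕜 Ω (Hm 𝕜 E (Hm 𝕜 E (Hm 𝕜 E (Hm 𝕜 E E)))) :=
  base (c.nab c.sg) (c.nab_sm c.sg_sm)

lemma cov_Th (X : ℕ → SF 𝕜 Ω E) : c.cov X c.Th = ap c.nTh (X 0) := c.cov_base X c.T_sm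
lemma cov_Rh (X : ℕ → SF 𝕜 Ω E) : c.cov X c.Rh = ap c.nRh (X 0) := c.cov_base X c.R_sm
lemma cov_βh (X : ℕ → SF 𝕜 Ω E) : c.cov X c.βh = ap c.nβh (X 0) := c.cov_base X c.βsm
lemma cov_sh' (X : ℕ → SF 𝕜 Ω E) : c.cov X c.sh' = ap c.nsh (X 0) := c.cov_base X c.sg_sm

/-- the right hand side of the system -/
noncomputable def K : SF 𝕜 Ω E :=
  c.P 2 + ap (ap c.Th (c.P 0)) (c.P 1) + ap (ap (ap c.βh (c.P 0)) (c.P 0)) (c.P 0)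

noncomputable def T0 : SF 𝕜 Ω (Hm 𝕜 E E) := ap c.Th (c.P 0)
noncomputable def T1 : SF 𝕜 Ω (Hm 𝕜 E E) := ap c.Th (c.P 1)
noncomputable def X0 : SF 𝕜 Ω (Hm 𝕜 E E) := s1 c.Rh (c.P 0) (c.P 0)
noncomputable def bPP : SF 𝕜 Ω (Hm 𝕜 E E) := ap (ap c.βh (c.P 0)) (c.P 0)

/-- the coefficient of the first derivative -/
noncomputable def ca : SF 𝕜 Ω (Hm 𝕜 E E) :=
  (-2:𝕜) • c.D c.T0 + c.X0 - mulE c.T0 c.T0 + (3:𝕜) • c.bPP - c.T1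

/-- the coefficient of order zero -/
noncomputable def cb : SF 𝕜 Ω (Hm 𝕜 E E) :=
  - c.D (c.D c.T0) + c.D c.X0 - mulE c.T0 (c.D c.T0) + mulE c.T0 c.X0 - (3:𝕜) • mulE c.bPP c.T0
    + mulE c.T1 c.T0 + (s1 c.Rh (c.P 0) (c.P 1) + s1 c.nTh (c.P 0) (c.P 1)
      + s0 c.nβh (c.P 0) (c.P 0) (c.P 0) + ap c.Th c.K)

lemma Th_skew (a b : SF 𝕜 Ω E) : ap (ap c.Th a) b = - ap (ap c.Th b) a :=
  SF.ext fun _ => c.T_skew _ _ _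

lemma Rh_skew (a b : SF 𝕜 Ω E) : ap (ap c.Rh a) b = - ap (ap c.Rh b) a :=
  SF.ext fun _ => Hm.ext fun _ => c.R_skew _ _ _ _

lemma D_apx [Rp 𝕜 E F] (f : SF 𝕜 Ω (Hm 𝕜 E F)) (φ : SF 𝕜 Ω E) :
    c.D (ap f φ) = ap (c.D f) φ + ap f (c.D φ) := c.cov_ap sh f φ

theorem NK : c.NN c.K = c.op sh ^ 3 + io c.ca * c.op sh + io c.cb := by
  apply LinearMap.ext
  intro φ
  have h0 : c.cov (prol φ) (c.P 0) = c.D φ - ap c.T0 φ := by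
    rw [c.cov_prol_P0, c.Th_skew]
    exact (sub_eq_add_neg _ _).symm
  have h1 : c.cov (prol φ) (c.P 1) = c.D (c.D φ) - ap (c.D c.T0) φ - ap c.T0 (c.D φ) + ap c.X0 φ := by
    change c.cov (prol φ) (c.cov sh (c.P 0)) = _
    rw [c.cov_prol_D, h0, map_sub, c.cov_ap]
    apply SF.ext; intro v
    simp only [add_val, sub_val, ap_val, X0, s1_val]
    abel
  have h2 : c.cov (prol φ) (c.P 2) = c.D (c.D (c.D φ)) - ap (c.D (c.D c.T0)) φ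
      - (2:𝕜) • ap (c.D c.T0) (c.D φ) - ap c.T0 (c.D (c.D φ)) + ap (c.D c.X0) φ
      + ap c.X0 (c.D φ) + ap (s1 c.Rh (c.P 0) (c.P 1)) φ := by
    change c.cov (prol φ) (c.cov sh (c.P 1)) = _
    rw [c.cov_prol_D, h1, map_add, map_sub, map_sub, c.cov_ap, c.cov_ap, c.cov_ap]
    apply SF.ext; intro v
    simp only [add_val, sub_val, ap_val, s1_val, two_smul]
    abel
  have hL : (c.op sh ^ 3 + io c.ca * c.op sh + io c.cb) φ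
      = c.D (c.D (c.D φ)) + ap c.ca (c.D φ) + ap c.cb φ := rfl
  rw [hL, c.NN_apply]
  have hK : c.cov (prol φ) c.K = c.cov (prol φ) (c.P 2) +
      (ap (ap (ap c.nTh φ) (c.P 0)) (c.P 1) + ap (ap c.Th (c.cov (prol φ) (c.P 0))) (c.P 1)
        + ap c.T0 (c.cov (prol φ) (c.P 1))) +
      (ap (ap (ap (ap c.nβh φ) (c.P 0)) (c.P 0)) (c.P 0)
        + ap (ap (ap c.βh (c.cov (prol φ) (c.P 0))) (c.P 0)) (c.P 0)
        + ap (ap (ap c.βh (c.P 0)) (c.cov (prol φ) (c.P 0))) (c.P 0)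
        + ap (ap (ap c.βh (c.P 0)) (c.P 0)) (c.cov (prol φ) (c.P 0))) := by
    rw [K, map_add, map_add, c.cov_ap, c.cov_ap, c.cov_ap, c.cov_ap, c.cov_ap, c.cov_Th, c.cov_βh]
    apply SF.ext; intro v
    simp only [add_val, ap_val, Hm.add_ap, prol_zero, T0]
  rw [hK, h0, h1, h2]
  apply SF.ext; intro v
  have b1 : ∀ x y z, (c.βh).1 v x y z = (c.βh).1 v y x z := fun x y z => c.βs1 _ v.2 _ _ _
  have b2 : ∀ x y z, (c.βh).1 v x y z = (c.βh).1 v x z y := fun x y z => c.βs2 _ v.2 _ _ _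
  have t1 : ∀ x, (c.Th).1 v x ((c.P 1).1 v) = - (c.Th).1 v ((c.P 1).1 v) x := fun x => c.T_skew _ _ _
  simp only [add_val, sub_val, ap_val, s1_val, smul_val, neg_val, Hm.add_ap, Hm.sub_ap, Hm.smul_ap,
    Hm.neg_ap, map_add, map_sub, ca, cb, mulE_val, s0_val, T1, bPP]
  rw [t1, t1, b1 (((c.D φ).1 v)), b2 _ (((c.D φ).1 v)), b1 ((c.T0.1 v (φ.1 v))), b2 _ ((c.T0.1 v (φ.1 v)))]
  module

end Sys

end NK

end Pool.Agent.H99.TJ
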