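import Pool.Agent.H99.TJ.Cov

open scoped ContDiff

namespace Pool.Agent.H99.TJ

open TopologicalSpace

section Ops

variable {𝕜 : Type*} [RCLike 𝕜] {E : Type*} [NormedAddCommGroup E] [NormedSpace 𝕜 E]
variable {Ω : Opens E}
variable {F : Type*} [NormedAddCommGroup F] [NormedSpace 𝕜 F]

/-! ### Orders -/

def OrdLE (m : ℕ) (f : SF 𝕜 Ω F) : Prop :=
  ∀ v v' : Jets Ω, (∀ k ≤ m, v.1 k = v'.1 k) → f.1 v = f.1 v'

lemma OrdLE.mono {m n : ℕ} {f : SF 𝕜 Ω F} (h : OrdLE m f) (hmn : m ≤ n) : OrdLE n f :=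
  fun v v' hv => h v v' (fun k hk => hv k (hk.trans hmn))

lemma exists_ord (f : SF 𝕜 Ω F) : ∃ m, OrdLE m f := by
  obtain ⟨n, g, hg⟩ := f.sm
  refine ⟨n, fun v v' h => ?_⟩
  rw [hg.2, hg.2]
  congr 1
  funext k
  exact h k (Nat.lt_succ_iff.1 k.2)

lemma ld_congr {m : ℕ} {f : SF 𝕜 Ω F} (h : OrdLE m f) {v v' : Jets Ω} {w w' : ℕ → E}
    (hv : ∀ k ≤ m, v.1 k = v'.1 k) (hw : ∀ k ≤ m, w k = w' k) :
    ld 𝕜 f.1 v w = ld 𝕜 f.1 v' w' := by
  unfold ld
  congr 1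
  funext t
  have h0 : (v.1 + t • w) 0 = (v'.1 + t • w') 0 := by
    simp [hv 0 (Nat.zero_le m), hw 0 (Nat.zero_le m)]
  unfold ext0
  by_cases h1 : (v.1 + t • w) 0 ∈ Ω
  · rw [dif_pos h1, dif_pos (h0 ▸ h1)]
    apply h
    intro k hk
    simp [hv k hk, hw k hk]
  · rw [dif_neg h1, dif_neg (h0 ▸ h1)]

/-- add `e` to the coordinate `k + 1` -/
def bump (v : Jets Ω) (k : ℕ) (e : E) : Jets Ω :=
  ⟨v.1 + Pi.single (k+1) e, by simpa using v.2⟩

lemma bump_val (v : Jets Ω) (k : ℕ) (e : E) (j : ℕ) :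
    (bump v k e).1 j = v.1 j + (Pi.single (k+1) e : ℕ → E) j := rfl

lemma bump_ne (v : Jets Ω) (k : ℕ) (e : E) {j : ℕ} (h : j ≠ k + 1) : (bump v k e).1 j = v.1 j := by
  rw [bump_val, Pi.single_eq_of_ne h, add_zero]

lemma bump_self (v : Jets Ω) (k : ℕ) (e : E) : (bump v k e).1 (k+1) = v.1 (k+1) + e := by
  rw [bump_val, Pi.single_eq_same]

/-- the total covariant derivative -/
noncomputable abbrev Conn.D (c : Conn 𝕜 Ω) [Rp 𝕜 E F] : SF 𝕜 Ω F →ₗ[𝕜] SF 𝕜 Ω F := c.cov sh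

lemma Conn.D_val (c : Conn 𝕜 Ω) [Rp 𝕜 E F] (Y : SF 𝕜 Ω F) (v : Jets Ω) :
    (c.D Y).1 v = ld 𝕜 Y.1 v (fun k => v.1 (k+1)) +
      (Rp.act (c.α (v.1 0) (v.1 1)) : F →L[𝕜] F) (Y.1 v) := rfl

lemma Conn.ord_D (c : Conn 𝕜 Ω) [Rp 𝕜 E F] {m : ℕ} {Y : SF 𝕜 Ω F} (h : OrdLE m Y) :
    OrdLE (m+1) (c.D Y) := by
  intro v v' hv
  rw [c.D_val, c.D_val, ld_congr h (fun k hk => hv k (by omega)) (fun k hk => hv (k+1) (by omega)),
    hv 0 (by omega), hv 1 (by omega), h v v' (fun k hk => hv k (by omega))]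

lemma Conn.diff_D (c : Conn 𝕜 Ω) [Rp 𝕜 E F] {m : ℕ} {Y : SF 𝕜 Ω F} (h : OrdLE (m+1) Y)
    (v : Jets Ω) (e : E) :
    (c.D Y).1 (bump v (m+1) e) = (c.D Y).1 v + ld 𝕜 Y.1 v (Pi.single (m+1) e) := by
  rw [c.D_val, c.D_val]
  have h1 : ∀ k ≤ m+1, (bump v (m+1) e).1 k = v.1 k := fun k hk => bump_ne v _ e (by omega)
  rw [h1 0 (by omega), h1 1 (by omega), h _ _ h1]
  have h2 : ld 𝕜 Y.1 (bump v (m+1) e) (fun k => (bump v (m+1) e).1 (k+1)) =
      ld 𝕜 Y.1 v ((fun k => v.1 (k+1)) + Pi.single (m+1) e) := by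
    apply ld_congr h h1
    intro k _
    simp only [Pi.add_apply]
    by_cases hk : k = m + 1
    · subst hk
      rw [bump_self, Pi.single_eq_same]
    · rw [bump_ne _ _ _ (by omega), Pi.single_eq_of_ne hk, add_zero]
  rw [h2, Y.sm.ld_add_dir]
  abel

lemma hasDerivAt_bump (Y : SF 𝕜 Ω F) (v : Jets Ω) (m : ℕ) (e : E) (t : 𝕜) :
    HasDerivAt (fun t : 𝕜 => Y.1 (bump v m (t • e)))
      (ld 𝕜 Y.1 (bump v m (t • e)) (Pi.single (m+1) e)) t := by
  obtain ⟨n, g, hg⟩ := Y.sm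
  have h1 := hg.hasDerivAt (bump v m (t • e)) (Pi.single (m+1) e)
  rw [← hg.ld] at h1
  have h2 : (fun s : 𝕜 => Y.1 (bump v m (s • e))) =
      fun s => ext0 Y.1 ((bump v m (t • e)).1 + (s - t) • (Pi.single (m+1) e : ℕ → E)) := by
    funext s
    have : (bump v m (t • e)).1 + (s - t) • (Pi.single (m+1) e : ℕ → E) = (bump v m (s • e)).1 := by
      funext j
      simp only [Pi.add_apply, Pi.smul_apply, bump_val]
      by_cases hj : j = m + 1
      · subst hj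
        simp only [Pi.single_eq_same, sub_smul]
        abel
      · simp [Pi.single_eq_of_ne hj]
    rw [this]
    unfold ext0
    rw [dif_pos (bump v m (s • e)).2]
  rw [h2]
  have h3 : HasDerivAt (fun s : 𝕜 => s - t) 1 t := (hasDerivAt_id t).sub_const t
  have h4 := HasDerivAt.scomp (h := fun s : 𝕜 => s - t) t (by simpa using h1) h3
  simp only [one_smul] at h4
  exact h4

lemma ord_lower {m : ℕ} {Y : SF 𝕜 Ω F} (h : OrdLE (m+1) Y)
    (h0 : ∀ v e, ld 𝕜 Y.1 v (Pi.single (m+1) e) = 0) : OrdLE m Y := by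
  intro v v' hv
  have h1 : Y.1 (bump v m (v'.1 (m+1) - v.1 (m+1))) = Y.1 v' := by
    apply h
    intro k hk
    rcases Nat.lt_or_eq_of_le hk with hk | hk
    · rw [bump_ne _ _ _ (by omega)]; exact hv k (by omega)
    · subst hk
      rw [bump_self]; abel
  have h2 : ∀ e, Y.1 (bump v m e) = Y.1 v := by
    intro e
    have hd : ∀ t : 𝕜, HasDerivAt (fun t : 𝕜 => Y.1 (bump v m (t • e))) 0 t := by
      intro t
      have := hasDerivAt_bump Y v m e t
      rwa [h0] at this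
    have h3 := is_const_of_deriv_eq_zero (𝕜 := 𝕜) (f := fun t : 𝕜 => Y.1 (bump v m (t • e)))
      (fun t => (hd t).differentiableAt) (fun t => (hd t).deriv) 1 0
    simp only [one_smul, zero_smul] at h3
    rw [h3]
    have h6 : bump v m (0 : E) = v := by
      ext i; rw [bump_val]; simp
    rw [h6]
  rw [← h1, h2]

lemma Conn.ord_of_D (c : Conn 𝕜 Ω) [Rp 𝕜 E F] {m : ℕ} {Y : SF 𝕜 Ω F} (h : OrdLE (m+1) (c.D Y)) :
    OrdLE m Y := by
  obtain ⟨M, hM⟩ := exists_ord Y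
  induction M with
  | zero => exact hM.mono (Nat.zero_le m)
  | succ M ih =>
    by_cases hMm : M + 1 ≤ m
    · exact hM.mono hMm
    · apply ih
      apply ord_lower hM
      intro v e
      have h1 := c.diff_D hM v e
      have h2 : (c.D Y).1 (bump v (M+1) e) = (c.D Y).1 v := by
        apply h
        intro k hk
        exact bump_ne _ _ _ (by omega)
      rw [h2] at h1
      simpa using h1.symm

/-! ### Vanishing at zero jets -/

def Z0 (f : SF 𝕜 Ω F) : Prop := ∀ v : Jets Ω, (∀ k, v.1 (k+1) = 0) → f.1 v = 0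

lemma Conn.Z0_D (c : Conn 𝕜 Ω) [Rp 𝕜 E F] (Y : SF 𝕜 Ω F) : Z0 (c.D Y) := by
  intro v hv
  rw [c.D_val, hv 0, map_zero, map_zero]
  have : (fun k => v.1 (k+1)) = (0 : 𝕜) • (fun k => v.1 (k+1)) := by
    funext k; simp [hv k]
  rw [this, Y.sm.ld_smul_dir]
  simp

lemma Conn.const_zero (c : Conn 𝕜 Ω) [Rp 𝕜 E F] {Y : SF 𝕜 Ω F} (h : c.D Y = 0) (h0 : Z0 Y) :
    Y = 0 := by
  have h1 : OrdLE (0+1) (c.D Y) := by
    rw [h]; intro v v' _; rfl
  have h2 := c.ord_of_D h1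
  apply SF.ext
  intro v
  have h3 := h2 v ⟨fun k => if k = 0 then v.1 0 else 0, by simpa using v.2⟩ (fun k hk => by
    obtain rfl : k = 0 := by omega
    simp)
  rw [h3]
  apply h0
  intro k; simp

/-! ### Operators -/

/-- multiplication operator -/
noncomputable def io (f : SF 𝕜 Ω (Hm 𝕜 E E)) : Module.End 𝕜 (SF 𝕜 Ω E) where
  toFun φ := ap f φ
  map_add' _ _ := SF.ext fun v => map_add (f.1 v) _ _
  map_smul' r _ := SF.ext fun v => map_smul (f.1 v) r _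

lemma io_apply (f : SF 𝕜 Ω (Hm 𝕜 E E)) (φ : SF 𝕜 Ω E) : io f φ = ap f φ := rfl

lemma io_inj {f g : SF 𝕜 Ω (Hm 𝕜 E E)} (h : io f = io g) : f = g := by
  apply SF.ext; intro v
  ext x
  have h1 := LinearMap.congr_fun h (cst x)
  have h2 := congrArg (fun k => k.1 v) h1
  exact h2

lemma io_add (f g : SF 𝕜 Ω (Hm 𝕜 E E)) : io (f + g) = io f + io g := rfl
lemma io_sub (f g : SF 𝕜 Ω (Hm 𝕜 E E)) : io (f - g) = io f - io g := rfl
lemma io_neg (f : SF 𝕜 Ω (Hm 𝕜 E E)) : io (-f) = -io f := rfl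
lemma io_zero : io (0 : SF 𝕜 Ω (Hm 𝕜 E E)) = 0 := rfl
lemma io_smul (r : 𝕜) (f : SF 𝕜 Ω (Hm 𝕜 E E)) : io (r • f) = r • io f := rfl

/-- product of endomorphism valued functions -/
noncomputable def mulE (f g : SF 𝕜 Ω (Hm 𝕜 E E)) : SF 𝕜 Ω (Hm 𝕜 E E) :=
  bil ((Hm.cmp (𝕜 := 𝕜) (E := E) (F₁ := E) (F₂ := E)).comp Hm.toL) f g

lemma mulE_val (f g : SF 𝕜 Ω (Hm 𝕜 E E)) (v : Jets Ω) (x : E) :
    (mulE f g).1 v x = f.1 v (g.1 v x) := rfl

lemma io_mul (f g : SF 𝕜 Ω (Hm 𝕜 E E)) : io (mulE f g) = io f * io g := rfl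

/-- the identity -/
noncomputable def oneE : SF 𝕜 Ω (Hm 𝕜 E E) := cst (Hm.ofL (ContinuousLinearMap.id 𝕜 E))

lemma io_one : io (oneE : SF 𝕜 Ω (Hm 𝕜 E E)) = 1 := rfl

/-- the algebra of multiplication operators -/
def GG : Subalgebra 𝕜 (Module.End 𝕜 (SF 𝕜 Ω E)) where
  carrier := Set.range io
  mul_mem' := by
    rintro _ _ ⟨f, rfl⟩ ⟨g, rfl⟩
    exact ⟨mulE f g, io_mul f g⟩
  add_mem' := by
    rintro _ _ ⟨f, rfl⟩ ⟨g, rfl⟩
    exact ⟨f + g, io_add f g⟩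
  algebraMap_mem' r := by
    refine ⟨r • oneE, ?_⟩
    rw [io_smul, io_one, Algebra.algebraMap_eq_smul_one]

lemma io_mem (f : SF 𝕜 Ω (Hm 𝕜 E E)) : io f ∈ GG (𝕜 := 𝕜) (Ω := Ω) := ⟨f, rfl⟩

/-- covariant derivative along a field, as an operator -/
noncomputable abbrev Conn.op (c : Conn 𝕜 Ω) (X : ℕ → SF 𝕜 Ω E) : Module.End 𝕜 (SF 𝕜 Ω E) := c.cov X

lemma Conn.op_io (c : Conn 𝕜 Ω) (X : ℕ → SF 𝕜 Ω E) (f : SF 𝕜 Ω (Hm 𝕜 E E)) :
    c.op X * io f - io f * c.op X = io (c.cov X f) := by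
  apply LinearMap.ext
  intro φ
  change c.cov X (ap f φ) - ap f (c.cov X φ) = ap (c.cov X f) φ
  rw [c.cov_ap]
  abel

lemma Conn.pow_coord (c : Conn 𝕜 Ω) (j k : ℕ) :
    OrdLE (j + k + 1) ((c.op sh ^ k) (coord (j+1))) ∧
    ∀ v e, ((c.op sh ^ k) (coord (j+1))).1 (bump v (j + k) e)
      = ((c.op sh ^ k) (coord (j+1))).1 v + e := by
  induction k with
  | zero =>
    refine ⟨fun v v' h => h (j+1) (by omega), fun v e => ?_⟩
    exact bump_self v j e
  | succ k ih =>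
    obtain ⟨h1, h2⟩ := ih
    have h3 : (c.op sh ^ (k+1)) (coord (j+1)) = c.D ((c.op sh ^ k) (coord (j+1))) := by
      rw [pow_succ']; rfl
    rw [h3]
    refine ⟨c.ord_D h1, fun v e => ?_⟩
    have h4 := c.diff_D (m := j + k) h1 v e
    rw [show j + (k + 1) = j + k + 1 by ring, h4]
    congr 1
    have h5 := hasDerivAt_bump ((c.op sh ^ k) (coord (j+1))) v (j+k) e 0
    have h6 : bump v (j+k) ((0:𝕜) • e) = v := by
      ext i; rw [bump_val]; simp
    rw [h6] at h5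
    have h7 : (fun t : 𝕜 => ((c.op sh ^ k) (coord (j+1))).1 (bump v (j+k) (t • e)))
        = fun t => ((c.op sh ^ k) (coord (j+1))).1 v + t • e := by
      funext t; exact h2 v _
    rw [h7] at h5
    have h8 : HasDerivAt (fun t : 𝕜 => ((c.op sh ^ k) (coord (j+1))).1 v + t • e) e 0 := by
      have := ((hasDerivAt_id (0:𝕜)).smul_const e).const_add (((c.op sh ^ k) (coord (j+1))).1 v)
      simpa using this
    exact h5.unique h8

lemma Conn.free (c : Conn 𝕜 Ω) (m : ℕ) (f : ℕ → SF 𝕜 Ω (Hm 𝕜 E E))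
    (h : ∑ k ∈ Finset.range m, io (f k) * c.op sh ^ k = 0) : ∀ k < m, f k = 0 := by
  induction m with
  | zero => intro k hk; omega
  | succ m ih =>
    -- common order bound
    have hb : ∃ M, ∀ k ≤ m, OrdLE M (f k) := by
      choose M hM using fun k => exists_ord (f k)
      exact ⟨(Finset.range (m+1)).sup M, fun k hk =>
        (hM k).mono (Finset.le_sup (Finset.mem_range.2 (by omega)))⟩
    obtain ⟨M, hM⟩ := hb
    have hfm : f m = 0 := by
      apply SF.ext; intro v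
      ext e
      have h1 := congrArg (fun A => (A (coord (M+1))).1 v) h
      have h2 := congrArg (fun A => (A (coord (M+1))).1 (bump v (M+m) e)) h
      simp only [LinearMap.sum_apply] at h1 h2
      have hval : ∀ v', (∑ k ∈ Finset.range (m+1), (io (f k) * c.op sh ^ k) (coord (M+1)) : SF 𝕜 Ω E).1 v'
          = ∑ k ∈ Finset.range (m+1), (f k).1 v' (((c.op sh ^ k) (coord (M+1))).1 v') := by
        intro v'
        rw [AddSubmonoidClass.coe_finsetSum, Finset.sum_apply]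
        rfl
      rw [hval] at h1 h2
      rw [Finset.sum_range_succ] at h1 h2
      have h3 : ∀ k ∈ Finset.range m, (f k).1 (bump v (M+m) e)
          (((c.op sh ^ k) (coord (M+1))).1 (bump v (M+m) e))
          = (f k).1 v (((c.op sh ^ k) (coord (M+1))).1 v) := by
        intro k hk
        have hk' := Finset.mem_range.1 hk
        rw [hM k (by omega) (bump v (M+m) e) v (fun i hi => bump_ne _ _ _ (by omega)),
          (c.pow_coord M k).1 (bump v (M+m) e) v (fun i hi => bump_ne _ _ _ (by omega))]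
      rw [Finset.sum_congr rfl h3, (c.pow_coord M m).2,
        hM m le_rfl (bump v (M+m) e) v (fun i hi => bump_ne _ _ _ (by omega)), map_add,
        ← add_assoc, h1] at h2
      simpa [zero_val] using h2
    intro k hk
    rcases Nat.lt_or_eq_of_le (Nat.lt_succ_iff.1 hk) with hk | hk
    · apply ih _ k hk
      rw [Finset.sum_range_succ, hfm, io_zero, zero_mul, add_zero] at h
      exact h
    · rw [hk]; exact hfm

end Ops

end Pool.Agent.H99.TJ
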