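import Pool.Agent.H99.TJ.NK

open scoped ContDiff

namespace Pool.Agent.H99.TJ

open TopologicalSpace

set_option linter.unusedSectionVars false

section Abs

variable {𝕜 : Type*} [Field 𝕜] [CharZero 𝕜] {O : Type*} [Ring O] [Algebra 𝕜 O]
variable {G : Subalgebra 𝕜 O} {d : O} (hd : ∀ g ∈ G, ad d g ∈ G)

/-- the commutator of the adjoint operator with the linearisation has low order -/
lemma low_order {AK AS DK DS NK a b : O} (hcomm : AK * AS = AS * AK) (hAK : AK = DK - NK)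
    (hNK : NK = d^3 + a * d + b) (ha : a ∈ G) (hb : b ∈ G)
    (hDD : DK * DS - DS * DK ∈ G) (hρ : ad DS d ∈ G) (hDS : ∀ g ∈ G, ad DS g ∈ G)
    (hd : ∀ g ∈ G, ad d g ∈ G) :
    ad (DK - NK) (DS - AS) ∈ Fil G d 3 := by
  have h1 : ad (DK - NK) (DS - AS) = (DK * DS - DS * DK) + ad DS (d^3) + ad DS (a * d) + ad DS b := by
    rw [← hAK]
    have : ad AK (DS - AS) = AK * DS - DS * AK - (AK * AS - AS * AK) := by
      unfold ad; noncomm_ring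
    rw [this, hcomm, sub_self, sub_zero, hAK, hNK]
    unfold ad
    noncomm_ring
  rw [h1]
  have h3 : ad DS (d^3) ∈ Fil G d 3 := Dt_pow_mem (𝕜 := 𝕜) hd hρ 3
  have hone : ∀ {g : O}, g ∈ G → g ∈ Fil G d 3 := by
    intro g hg
    have := mem_Fil (d := d) hg (show 0 < 3 by omega)
    rwa [pow_zero, mul_one] at this
  have h2 : ad DS (a * d) ∈ Fil G d 3 := by
    rw [ad_mul]
    have e1 : ad DS a * d ∈ Fil G d 3 := by
      have := mem_Fil (d := d) (hDS a ha) (show 1 < 3 by omega)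
      rwa [pow_one] at this
    exact (Fil G d 3).add_mem e1 (hone (G.mul_mem ha hρ))
  exact (Fil G d 3).add_mem ((Fil G d 3).add_mem ((Fil G d 3).add_mem (hone hDD) h3) h2)
    (hone (hDS b hb))

/-- splitting off the five top terms -/
lemma split5 {V : Submodule 𝕜 O} {m : ℕ} {L : O} {f : ℕ → O} (hf : ∀ k, f k ∈ G)
    (hV : ∀ k, k < m + 5 → 0 < k → m + 5 ≤ k + 3 → f k ∈ V)
    (hL : L = d^(m+5) + ∑ k ∈ Finset.range (m+5), f k * d^k) :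
    ∃ l1 l2 l3 l4 l5 rest : O, l1 ∈ G ∧ l2 ∈ G ∧ l3 ∈ G ∧ l4 ∈ G ∧ l5 ∈ G ∧ rest ∈ Fil G d m ∧
      l1 ∈ V ∧ l2 ∈ V ∧ l3 ∈ V ∧
      L = d^(m+5) + l1 * d^(m+4) + (l2 * (d^3 * d^m) + l3 * (d^2 * d^m) + l4 * (d * d^m)
        + l5 * d^m + rest) := by
  refine ⟨f (m+4), f (m+3), f (m+2), f (m+1), f m, ∑ k ∈ Finset.range m, f k * d^k,
    hf _, hf _, hf _, hf _, hf _, ⟨f, hf, rfl⟩, hV _ (by omega) (by omega) (by omega),
    hV _ (by omega) (by omega) (by omega), hV _ (by omega) (by omega) (by omega), ?_⟩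
  have p1 : d * d^m = d^(m+1) := (pow_succ' d m).symm
  have p2 : d^2 * d^m = d^(m+2) := by rw [← pow_add, add_comm]
  have p3 : d^3 * d^m = d^(m+3) := by rw [← pow_add, add_comm]
  rw [hL, p1, p2, p3]
  simp only [Finset.sum_range_succ]
  abel

end Abs

section Stage

variable {𝕜 : Type*} [RCLike 𝕜] {E : Type*} [NormedAddCommGroup E] [NormedSpace 𝕜 E]
variable {Ω : Opens E}
variable {F : Type*} [NormedAddCommGroup F] [NormedSpace 𝕜 F]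

namespace Sys

variable (c : Sys 𝕜 Ω)

/-- a normalised symmetry of order `n` -/
structure NSym (n : ℕ) (S : SF 𝕜 Ω E) : Prop where
  ord : OrdLE n S
  top : pd n S = oneE
  zero : ∀ k, k < n → n ≤ k + 3 → Z0 (pd k S)
  comm : dv (prol c.K) S = dv (prol S) c.K

lemma Z0_P (k : ℕ) : Z0 (c.P k) := by
  cases k with
  | zero => intro v hv; exact hv 0
  | succ k => exact c.Z0_D _

lemma Z0_add {f g : SF 𝕜 Ω F} (hf : Z0 f) (hg : Z0 g) : Z0 (f + g) := by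
  intro v hv; rw [add_val, hf v hv, hg v hv, add_zero]

lemma Z0_sub {f g : SF 𝕜 Ω F} (hf : Z0 f) (hg : Z0 g) : Z0 (f - g) := by
  intro v hv; rw [sub_val, hf v hv, hg v hv, sub_zero]

lemma Z0_smul (r : 𝕜) {f : SF 𝕜 Ω F} (hf : Z0 f) : Z0 (r • f) := by
  intro v hv; rw [smul_val, hf v hv, smul_zero]

lemma Z0_ap {f : SF 𝕜 Ω (Hm 𝕜 E F)} {g : SF 𝕜 Ω E} (hg : Z0 g) : Z0 (ap f g) := by
  intro v hv; rw [ap_val, hg v hv, map_zero]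

lemma Z0_K : Z0 c.K := by
  unfold K
  exact Z0_add (Z0_add (c.Z0_P 2) (Z0_ap (c.Z0_P 1))) (Z0_ap (c.Z0_P 0))

lemma Z0_T0 : Z0 c.T0 := Z0_ap (c.Z0_P 0)

lemma Z0_X0 : Z0 c.X0 := by
  intro v hv
  ext e
  rw [X0, s1_val, c.Z0_P 0 v hv, map_zero]
  rfl

lemma Z0_mulE_left {f g : SF 𝕜 Ω (Hm 𝕜 E E)} (hf : Z0 f) : Z0 (mulE f g) := by
  intro v hv
  ext e
  rw [mulE_val, hf v hv]
  rfl

lemma Z0_mulE_right {f g : SF 𝕜 Ω (Hm 𝕜 E E)} (hg : Z0 g) : Z0 (mulE f g) := by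
  intro v hv
  ext e
  rw [mulE_val, hg v hv]
  simp

lemma Z0_s1 {f : SF 𝕜 Ω (Hm 𝕜 E (Hm 𝕜 E (Hm 𝕜 E F)))} {a b : SF 𝕜 Ω E} (hb : Z0 b) :
    Z0 (s1 f a b) := by
  intro v hv
  ext e
  rw [s1_val, hb v hv, map_zero]
  rfl

lemma Z0_s0 {f : SF 𝕜 Ω (Hm 𝕜 E (Hm 𝕜 E (Hm 𝕜 E (Hm 𝕜 E F))))} {a b d : SF 𝕜 Ω E} (hb : Z0 d) :
    Z0 (s0 f a b d) := by
  intro v hv
  ext e
  rw [s0_val, hb v hv, map_zero]
  rfl

lemma Z0_ap' {f : SF 𝕜 Ω (Hm 𝕜 E (Hm 𝕜 E E))} {g : SF 𝕜 Ω E} (hg : Z0 g) : Z0 (ap f g) := Z0_ap hg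

lemma Z0_ca : Z0 c.ca := by
  unfold ca
  refine Z0_sub (Z0_add (Z0_sub (Z0_add (Z0_smul _ (c.Z0_D _)) c.Z0_X0) (Z0_mulE_left c.Z0_T0))
    (Z0_smul _ ?_)) ?_
  · exact Z0_ap (c.Z0_P 0)
  · exact Z0_ap (c.Z0_P 1)

lemma Z0_cb : Z0 c.cb := by
  unfold cb
  refine Z0_add (Z0_add (Z0_sub (Z0_add (Z0_sub (Z0_add ?_ (c.Z0_D _))
    (Z0_mulE_left c.Z0_T0)) (Z0_mulE_left c.Z0_T0)) (Z0_smul _ (Z0_mulE_right c.Z0_T0)))
    (Z0_mulE_right c.Z0_T0)) (Z0_add (Z0_add (Z0_add (Z0_s1 (c.Z0_P 1)) (Z0_s1 (c.Z0_P 1)))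
    (Z0_s0 (c.Z0_P 0))) (Z0_ap c.Z0_K))
  intro v hv
  rw [neg_val, c.Z0_D _ v hv, neg_zero]

/-- the corrected time derivative -/
noncomputable def dt [Rp 𝕜 E F] (r : SF 𝕜 Ω (Hm 𝕜 E E)) : SF 𝕜 Ω F →ₗ[𝕜] SF 𝕜 Ω F where
  toFun f := c.cov (prol c.K) f + bil Rp.act r f
  map_add' f g := by
    apply SF.ext; intro v
    simp only [map_add, add_val, bil_val]
    abel
  map_smul' s f := by
    apply SF.ext; intro v
    simp only [map_smul, add_val, bil_val, smul_val, smul_add, RingHom.id_apply]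

lemma dt_def [Rp 𝕜 E F] (r : SF 𝕜 Ω (Hm 𝕜 E E)) (f : SF 𝕜 Ω F) :
    c.dt r f = c.cov (prol c.K) f + bil Rp.act r f := rfl

lemma dt_vec (r : SF 𝕜 Ω (Hm 𝕜 E E)) (f : SF 𝕜 Ω E) :
    c.dt r f = c.cov (prol c.K) f + ap r f := rfl

lemma dt_ap [Rp 𝕜 E F] (r : SF 𝕜 Ω (Hm 𝕜 E E)) (f : SF 𝕜 Ω (Hm 𝕜 E F)) (φ : SF 𝕜 Ω E) :
    c.dt r (ap f φ) = ap (c.dt r f) φ + ap f (c.dt r φ) := by
  apply SF.ext; intro v
  simp only [dt_def, c.cov_ap, add_val, bil_val, ap_val, act_hom, act_self, map_add, Hm.add_ap]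
  abel

lemma ad_dt (r f : SF 𝕜 Ω (Hm 𝕜 E E)) :
    ad (c.op (prol c.K) + io r) (io f) = io (c.dt r f) := by
  have h : ad (c.op (prol c.K) + io r) (io f) = ad (c.op (prol c.K)) (io f) + (io r * io f - io f * io r) := by
    apply LinearMap.ext; intro φ
    change (c.cov (prol c.K) (ap f φ) + ap r (ap f φ)) - (ap f (c.cov (prol c.K) φ + ap r φ))
      = (c.cov (prol c.K) (ap f φ) - ap f (c.cov (prol c.K) φ)) + (ap r (ap f φ) - ap f (ap r φ))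
    apply SF.ext; intro v
    simp only [add_val, sub_val, ap_val, map_add]
    abel
  rw [h, c.ad_GG]
  apply LinearMap.ext; intro φ
  apply SF.ext; intro v
  change (ap (c.cov (prol c.K) f) φ).1 v + ((ap r (ap f φ)).1 v - (ap f (ap r φ)).1 v)
    = (ap (c.dt r f) φ).1 v
  simp only [ap_val, dt_def, add_val, bil_val, act_hom, act_self, Hm.add_ap]

lemma ad_K_d : ad (c.op (prol c.K)) (c.op sh) = io (ap (ap c.Rh c.K) (c.P 0)) := by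
  apply LinearMap.ext; intro φ
  change c.cov (prol c.K) (c.cov sh φ) - c.cov sh (c.cov (prol c.K) φ) = ap (ap (ap c.Rh c.K) (c.P 0)) φ
  rw [c.cov_prol_D]
  abel

lemma ad_S_d (S : SF 𝕜 Ω E) : ad (c.op (prol S)) (c.op sh) = io (ap (ap c.Rh S) (c.P 0)) := by
  apply LinearMap.ext; intro φ
  change c.cov (prol S) (c.cov sh φ) - c.cov sh (c.cov (prol S) φ) = ap (ap (ap c.Rh S) (c.P 0)) φ
  rw [c.cov_prol_D]
  abel

/-- the form of the linearisation of a symmetry -/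
lemma stage_form {m : ℕ} {S : SF 𝕜 Ω E} (hS : c.NSym (m+5) S) :
    ∃ l2 l3 l4 l5 rest : Module.End 𝕜 (SF 𝕜 Ω E),
      l2 ∈ GG (𝕜 := 𝕜) (Ω := Ω) ∧ l3 ∈ GG (𝕜 := 𝕜) (Ω := Ω) ∧ l4 ∈ GG (𝕜 := 𝕜) (Ω := Ω) ∧
      l5 ∈ GG (𝕜 := 𝕜) (Ω := Ω) ∧ rest ∈ Fil (GG (𝕜 := 𝕜) (Ω := Ω)) (c.op sh) m ∧
      l2 ∈ ZZ (𝕜 := 𝕜) (Ω := Ω) ∧ l3 ∈ ZZ (𝕜 := 𝕜) (Ω := Ω) ∧
      ad (c.op (prol c.K) - ((c.op sh)^3 + io c.ca * c.op sh + io c.cb))
        ((c.op sh)^5 * (c.op sh)^m + l2 * ((c.op sh)^3 * (c.op sh)^m) + l3 * ((c.op sh)^2 * (c.op sh)^m)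
          + l4 * (c.op sh * (c.op sh)^m) + l5 * (c.op sh)^m + rest)
        ∈ Fil (GG (𝕜 := 𝕜) (Ω := Ω)) (c.op sh) 3 := by
  obtain ⟨f, hf, hfV, hL⟩ := c.NN_form (by omega) hS.ord hS.top hS.zero
  obtain ⟨l1, l2, l3, l4, l5, rest, h1, h2, h3, h4, h5, hr, h1V, h2V, h3V, hL'⟩ :=
    split5 (𝕜 := 𝕜) (O := Module.End 𝕜 (SF 𝕜 Ω E)) hf hfV hL
  have hlow : ad (c.op (prol c.K) - ((c.op sh)^3 + io c.ca * c.op sh + io c.cb)) (c.NN S)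
      ∈ Fil (GG (𝕜 := 𝕜) (Ω := Ω)) (c.op sh) 3 := by
    have h := low_order (𝕜 := 𝕜) (O := Module.End 𝕜 (SF 𝕜 Ω E)) (G := GG (𝕜 := 𝕜) (Ω := Ω))
      (d := c.op sh) (AK := AD c.K) (AS := AD S) (DK := c.op (prol c.K)) (DS := c.op (prol S))
      (NK := c.NN c.K) (a := io c.ca) (b := io c.cb) (AD_comm hS.comm) (by
        unfold Conn.NN; abel) c.NK (io_mem _) (io_mem _) ?_ ?_ (c.hdX _) c.hd
    · rw [c.NK] at h
      exact h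
    · refine ⟨ap (ap c.Rh c.K) S, ?_⟩
      apply LinearMap.ext; intro φ
      change ap (ap (ap c.Rh c.K) S) φ = c.cov (prol c.K) (c.cov (prol S) φ) - c.cov (prol S) (c.cov (prol c.K) φ)
      rw [c.cov_prol_prol hS.comm]
      abel
    · rw [c.ad_S_d]; exact io_mem _
  have hX : l2 * ((c.op sh)^3 * (c.op sh)^m) + l3 * ((c.op sh)^2 * (c.op sh)^m)
          + l4 * (c.op sh * (c.op sh)^m) + l5 * (c.op sh)^m + rest
        ∈ Fil (GG (𝕜 := 𝕜) (Ω := Ω)) (c.op sh) (m+4) := by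
    have p1 : c.op sh * (c.op sh)^m = (c.op sh)^(m+1) := (pow_succ' _ m).symm
    have p2 : (c.op sh)^2 * (c.op sh)^m = (c.op sh)^(m+2) := by rw [← pow_add, add_comm]
    have p3 : (c.op sh)^3 * (c.op sh)^m = (c.op sh)^(m+3) := by rw [← pow_add, add_comm]
    rw [p1, p2, p3]
    exact Submodule.add_mem _ (Submodule.add_mem _ (Submodule.add_mem _ (Submodule.add_mem _
      (mem_Fil h2 (by omega)) (mem_Fil h3 (by omega))) (mem_Fil h4 (by omega)))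
      (mem_Fil h5 (by omega))) (Fil_mono (by omega) hr)
  rw [hL'] at hlow
  have hl1 : l1 = 0 := stage1 (𝕜 := 𝕜) (O := Module.End 𝕜 (SF 𝕜 Ω E)) c.hd c.hfree c.hZc
    (io_mem c.ca) (io_mem c.cb) h1 hX h1V (by rw [c.ad_K_d]; exact io_mem _) (c.hdX _) hlow
  refine ⟨l2, l3, l4, l5, rest, h2, h3, h4, h5, hr, h2V, h3V, ?_⟩
  rw [hl1] at hlow
  have p5 : (c.op sh)^5 * (c.op sh)^m = (c.op sh)^(m+5) := by rw [← pow_add, add_comm]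
  rw [p5]
  convert hlow using 2
  rw [zero_mul, add_zero]
  abel

/-- first consequence: the curvature term is a total derivative -/
theorem curv_exact {m : ℕ} {S : SF 𝕜 Ω E} (hS : c.NSym (m+5) S) :
    ∃ Y : SF 𝕜 Ω (Hm 𝕜 E E), ap (ap c.Rh c.K) (c.P 0) = c.D Y := by
  obtain ⟨l2, l3, l4, l5, rest, h2, h3, h4, h5, hr, h2V, h3V, hL⟩ := c.stage_form hS
  obtain ⟨_, ⟨Y, rfl⟩, hY⟩ := stage2 (𝕜 := 𝕜) (O := Module.End 𝕜 (SF 𝕜 Ω E)) c.hd c.hfree c.hZc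
    (io_mem c.ca) (io_mem c.cb) h2 h3 h4 h5 hr (mem_ZZ c.Z0_ca) h2V
    (by rw [c.ad_K_d]; exact io_mem _) (c.hdX _) hL
  refine ⟨Y, ?_⟩
  rw [c.ad_K_d, c.ad_GG] at hY
  exact io_inj hY

/-- second consequence -/
theorem lax_exact {m : ℕ} (hm : 1 ≤ m) {S : SF 𝕜 Ω E} (hS : c.NSym (m+5) S)
    {r : SF 𝕜 Ω (Hm 𝕜 E E)} (hr : c.D r = ap (ap c.Rh c.K) (c.P 0)) (hr0 : Z0 r) :
    ∃ Θ : SF 𝕜 Ω (Hm 𝕜 E E), c.dt r c.ca = c.D Θ ∧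
      ∃ Y : SF 𝕜 Ω (Hm 𝕜 E E), c.dt r (c.cb + r) - (1/3:𝕜) • (mulE c.ca Θ - mulE Θ c.ca) = c.D Y := by
  obtain ⟨l2, l3, l4, l5, rest, h2, h3, h4, h5, hrest, h2V, h3V, hL⟩ := c.stage_form hS
  have hδ : ad (c.op (prol c.K) + io r) (c.op sh) = 0 := by
    have h1 : ad (c.op (prol c.K) + io r) (c.op sh) = ad (c.op (prol c.K)) (c.op sh)
        - ad (c.op sh) (io r) := by
      apply LinearMap.ext; intro φ
      change (c.cov (prol c.K) (c.cov sh φ) + ap r (c.cov sh φ)) - c.cov sh (c.cov (prol c.K) φ + ap r φ)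
        = (c.cov (prol c.K) (c.cov sh φ) - c.cov sh (c.cov (prol c.K) φ))
          - (c.cov sh (ap r φ) - ap r (c.cov sh φ))
      rw [map_add]
      abel
    rw [h1, c.ad_K_d, c.ad_GG, hr]
    exact sub_self (io (ap (ap c.Rh c.K) (c.P 0)) : Module.End 𝕜 (SF 𝕜 Ω E))
  have hδG : ∀ g ∈ GG (𝕜 := 𝕜) (Ω := Ω), ad (c.op (prol c.K) + io r) g ∈ GG (𝕜 := 𝕜) (Ω := Ω) := by
    rintro _ ⟨f, rfl⟩
    rw [c.ad_dt]
    exact io_mem _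
  have hL' : ad ((c.op (prol c.K) + io r) - ((c.op sh)^3 + io c.ca * c.op sh + io (c.cb + r)))
        ((c.op sh)^5 * (c.op sh)^m + l2 * ((c.op sh)^3 * (c.op sh)^m) + l3 * ((c.op sh)^2 * (c.op sh)^m)
          + l4 * (c.op sh * (c.op sh)^m) + l5 * (c.op sh)^m + rest)
        ∈ Fil (GG (𝕜 := 𝕜) (Ω := Ω)) (c.op sh) 3 := by
    convert hL using 2
    rw [io_add]
    abel
  obtain ⟨_, ⟨Θ, rfl⟩, hΘ, _, ⟨Y, rfl⟩, hY⟩ := stage3 (𝕜 := 𝕜) (O := Module.End 𝕜 (SF 𝕜 Ω E))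
    c.hd c.hfree c.hZd c.hZc hm (io_mem c.ca) (io_mem (c.cb + r)) h2 h3 h4 h5 hrest
    (mem_ZZ c.Z0_ca) (mem_ZZ (Z0_add c.Z0_cb hr0)) h2V h3V hδ hδG hL'
  rw [c.ad_dt, c.ad_GG] at hΘ
  refine ⟨Θ, io_inj hΘ, Y, ?_⟩
  rw [c.ad_dt, c.ad_GG] at hY
  apply io_inj
  rw [← hY]
  rfl

end Sys

end Stage

end Pool.Agent.H99.TJ
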