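import Pool.Agent.H99.TJ.Ops

open scoped ContDiff

namespace Pool.Agent.H99.TJ

open TopologicalSpace

section Tens

variable {𝕜 : Type*} [RCLike 𝕜] {E : Type*} [NormedAddCommGroup E] [NormedSpace 𝕜 E]
variable {Ω : Opens E}
variable {F : Type*} [NormedAddCommGroup F] [NormedSpace 𝕜 F]

/-- `rot f X Y Z = f Y Z X` -/
noncomputable def rot : Hm 𝕜 E (Hm 𝕜 E (Hm 𝕜 E F)) →L[𝕜] Hm 𝕜 E (Hm 𝕜 E (Hm 𝕜 E F)) :=
  (Hm.fl (𝕜 := 𝕜) (E := E) (F := Hm 𝕜 E F)).comp (Hm.cmp Hm.fl)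

lemma rot_apply (f : Hm 𝕜 E (Hm 𝕜 E (Hm 𝕜 E F))) (x y z : E) : rot f x y z = f y z x := rfl

/-- a connection together with a symmetric tensor -/
structure Sys (𝕜 : Type*) [RCLike 𝕜] {E : Type*} [NormedAddCommGroup E] [NormedSpace 𝕜 E]
    (Ω : Opens E) extends Conn 𝕜 Ω where
  /-- the tensor -/
  β : E → Hm 𝕜 E (Hm 𝕜 E (Hm 𝕜 E E))
  βsm : ContDiffOn 𝕜 ∞ β Ω
  βs1 : ∀ u ∈ Ω, ∀ x y z, β u x y z = β u y x z
  βs2 : ∀ u ∈ Ω, ∀ x y z, β u x y z = β u x z y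

namespace Sys

variable (c : Sys 𝕜 Ω)

/-- the tensor `δ` -/
noncomputable def dl (u : E) : Hm 𝕜 E (Hm 𝕜 E (Hm 𝕜 E E)) :=
  Conn.BB (c.T u) (c.T u) + rot (c.R u) - c.nab c.T u

lemma dl_apply (u x y z : E) : c.dl u x y z = c.T u x (c.T u y z) + c.R u y z x - c.nab c.T u x y z := rfl

lemma BB_smT : ContDiffOn 𝕜 ∞ (fun u => Conn.BB (c.T u) (c.T u)) Ω := by
  have h1 : ContDiffOn 𝕜 ∞ (fun u => (Conn.MM (𝕜 := 𝕜) (E := E)).flip (c.T u)) Ω :=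
    ((Conn.MM (𝕜 := 𝕜) (E := E)).flip).contDiff.comp_contDiffOn c.T_sm
  have h2 := (Hm.cmp (𝕜 := 𝕜) (E := E) (F₁ := Hm 𝕜 E E) (F₂ := Hm 𝕜 E (Hm 𝕜 E E))).contDiff.comp_contDiffOn h1
  exact h2.clm_apply c.T_sm

lemma dl_sm : ContDiffOn 𝕜 ∞ c.dl Ω := by
  have h2 : ContDiffOn 𝕜 ∞ (fun u => rot (c.R u)) Ω :=
    (rot (𝕜 := 𝕜) (E := E) (F := E)).contDiff.comp_contDiffOn c.R_sm
  exact (c.BB_smT.add h2).sub (c.nab_sm c.T_sm)

/-- the tensor `σ` -/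
noncomputable def sg (u : E) : Hm 𝕜 E (Hm 𝕜 E (Hm 𝕜 E E)) :=
  c.β u - (1/3 : 𝕜) • c.dl u + (1/3 : 𝕜) • rot (rot (c.dl u))

lemma sg_apply (u x y z : E) : c.sg u x y z =
    c.β u x y z - (1/3 : 𝕜) • c.dl u x y z + (1/3 : 𝕜) • c.dl u z x y := rfl

lemma sg_sm : ContDiffOn 𝕜 ∞ c.sg Ω := by
  have h1 : ContDiffOn 𝕜 ∞ (fun u => rot (rot (c.dl u))) Ω :=
    (rot (𝕜 := 𝕜) (E := E) (F := E)).contDiff.comp_contDiffOn
      ((rot (𝕜 := 𝕜) (E := E) (F := E)).contDiff.comp_contDiffOn c.dl_sm)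
  exact (c.βsm.sub (c.dl_sm.const_smul (1/3 : 𝕜))).add (h1.const_smul (1/3 : 𝕜))

/-! pointwise identities -/

lemma T_skew (u x y : E) : c.T u x y = - c.T u y x := by
  rw [Conn.T_apply, Conn.T_apply]; abel

lemma R_skew (u x y z : E) : c.R u x y z = - c.R u y x z := by
  rw [Conn.R_apply, Conn.R_apply]; abel

lemma nabT_apply {u : E} (hu : u ∈ Ω) (x y z : E) : c.nab c.T u x y z =
    fderiv 𝕜 c.α u x y z - fderiv 𝕜 c.α u x z y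
      + (c.α u x (c.T u y z) - c.T u (c.α u x y) z - c.T u y (c.α u x z)) := by
  have hd : DifferentiableAt 𝕜 c.α u :=
    (c.sm.contDiffAt (Ω.isOpen.mem_nhds hu)).differentiableAt (by simp)
  have h1 : fderiv 𝕜 c.T u = fderiv 𝕜 c.α u -
      (Hm.fl (𝕜 := 𝕜) (E := E) (F := E)).comp (fderiv 𝕜 c.α u) := by
    have h2 : HasFDerivAt c.T (fderiv 𝕜 c.α u -
      (Hm.fl (𝕜 := 𝕜) (E := E) (F := E)).comp (fderiv 𝕜 c.α u)) u :=
      hd.hasFDerivAt.sub ((Hm.fl (𝕜 := 𝕜) (E := E) (F := E)).hasFDerivAt.comp u hd.hasFDerivAt)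
    exact h2.fderiv
  rw [Conn.nab_apply, h1]
  simp only [Hm.add_ap, act_hom, act_self, Hm.sub_ap]
  have h3 : (fderiv 𝕜 c.α u - (Hm.fl (𝕜 := 𝕜) (E := E) (F := E)).comp (fderiv 𝕜 c.α u)) x y z
    = fderiv 𝕜 c.α u x y z - fderiv 𝕜 c.α u x z y := rfl
  rw [h3]
  abel

lemma dl_skew {u : E} (hu : u ∈ Ω) (x y z : E) : c.dl u x y z = - c.dl u x z y := by
  rw [dl_apply, dl_apply, c.nabT_apply hu, c.nabT_apply hu, c.T_skew u z y, c.R_skew u z y,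
    c.T_skew u (c.α u x z) y, c.T_skew u z (c.α u x y)]
  simp only [map_neg]
  abel

lemma bianchi {u : E} (hu : u ∈ Ω) (x y z : E) :
    c.dl u x y z + c.dl u y z x + c.dl u z x y = 0 := by
  simp only [dl_apply, c.nabT_apply hu, Conn.R_apply, Conn.T_apply, map_sub]
  abel

lemma dl_eq {u : E} (hu : u ∈ Ω) (x y z : E) : c.dl u x y z = c.sg u x z y - c.sg u x y z := by
  simp only [sg_apply]
  rw [c.βs2 u hu x z y, c.dl_skew hu x z y, c.dl_skew hu y x z]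
  have h := c.bianchi hu x y z
  have h1 : c.dl u z x y = - c.dl u x y z - c.dl u y z x := by
    rw [← sub_eq_zero, ← h]; abel
  rw [h1]
  module

lemma sg_symm {u : E} (hu : u ∈ Ω) (x y z : E) : c.sg u x y z = c.sg u z y x := by
  simp only [sg_apply]
  rw [c.dl_skew hu z y x, c.dl_skew hu x z y, c.βs1 u hu z y x, c.βs2 u hu y z x, c.βs1 u hu y x z]
  module

lemma β_eq {u : E} (hu : u ∈ Ω) (x y z : E) :
    (3:𝕜) • c.β u x y z = c.sg u x y z + c.sg u y z x + c.sg u z x y := by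
  simp only [sg_apply]
  have h := c.bianchi hu x y z
  have h2 : c.β u y z x = c.β u x y z := by rw [c.βs2 u hu y z x, c.βs1 u hu y x z]
  have h3 : c.β u z x y = c.β u x y z := by rw [c.βs1 u hu z x y, c.βs2 u hu x z y]
  rw [h2, h3]
  have h1 : c.dl u z x y = - c.dl u x y z - c.dl u y z x := by
    rw [← sub_eq_zero, ← h]; abel
  rw [h1]
  module

noncomputable def βh : SF 𝕜 Ω (Hm 𝕜 E (Hm 𝕜 E (Hm 𝕜 E E))) := base c.β c.βsm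
noncomputable def dh : SF 𝕜 Ω (Hm 𝕜 E (Hm 𝕜 E (Hm 𝕜 E E))) := base c.dl c.dl_sm
noncomputable def sh' : SF 𝕜 Ω (Hm 𝕜 E (Hm 𝕜 E (Hm 𝕜 E E))) := base c.sg c.sg_sm

end Sys

end Tens

end Pool.Agent.H99.TJ
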